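import Pool.Agent.Lib.MP_d8ef8f_an.Sf.Stm
import Pool.Agent.Lib.MP_d8ef8f_an.Gd.A2

set_option autoImplicit false

namespace Pool.Agent.Lib.MP_d8ef8f_an.Sf

open Set Filter Topology MeasureTheory Pool.Agent.Lib.MP_d8ef8f_an.Gd Pool.Agent.Lib.MP_d8ef8f_an.Ff

/-- restrictions of `C¹` functions -/
private def apAlg {n : ℕ} (K : Set (Sp n)) : Subalgebra ℝ C(K, ℝ) where
  carrier := {g | ∃ ψ : Sp n → ℝ, ContDiff ℝ 1 ψ ∧ ∀ x : K, g x = ψ x}
  mul_mem' := by
    rintro a b ⟨φ, hφ, ha⟩ ⟨ψ, hψ, hb⟩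
    exact ⟨fun x => φ x * ψ x, hφ.mul hψ, fun x => by
      rw [ContinuousMap.mul_apply, ha, hb]⟩
  add_mem' := by
    rintro a b ⟨φ, hφ, ha⟩ ⟨ψ, hψ, hb⟩
    exact ⟨fun x => φ x + ψ x, hφ.add hψ, fun x => by
      rw [ContinuousMap.add_apply, ha, hb]⟩
  algebraMap_mem' := fun r => ⟨fun _ => r, contDiff_const, fun x => by simp⟩

private theorem apAlg_sep {n : ℕ} (K : Set (Sp n)) : (apAlg K).SeparatesPoints := by
  intro x y hxy
  have h1 : (x : Sp n) ≠ y := fun h => hxy (Subtype.ext h)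
  obtain ⟨i, hi⟩ : ∃ i, (x : Sp n) i ≠ (y : Sp n) i := by
    by_contra hc
    push Not at hc
    exact h1 (by ext i; exact hc i)
  refine ⟨fun z : K => (z : Sp n) i, ⟨⟨fun z : K => (z : Sp n) i, ?_⟩, ?_, rfl⟩, hi⟩
  · fun_prop
  · exact ⟨fun z => z i, by fun_prop, fun z => rfl⟩

theorem p_Ap : StmAp := by
  intro n Ω _ hb f hf e he
  haveI : CompactSpace (closure Ω) := isCompact_iff_compactSpace.1 hb.isCompact_closure
  obtain ⟨⟨g, ψ, hψ, hg⟩, hgf⟩ :=
    ContinuousMap.exists_mem_subalgebra_near_continuous_of_separatesPoints (apAlg (closure Ω))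
      (apAlg_sep _) (fun x : closure Ω => f x) (continuousOn_iff_continuous_restrict.1 hf) e he
  refine ⟨ψ, gradient ψ, ⟨hψ.continuous.continuousOn, ?_, ?_⟩, ?_⟩
  · have h1 : Continuous (fderiv ℝ ψ) := hψ.continuous_fderiv one_ne_zero
    exact ((InnerProductSpace.toDual ℝ (Sp n)).symm.continuous.comp h1).continuousOn
  · intro x _
    exact (hψ.differentiable one_ne_zero x).hasGradientAt
  · intro x hx
    have h1 := hgf ⟨x, hx⟩
    rw [Real.norm_eq_abs] at h1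
    have h2 := hg ⟨x, hx⟩
    simp only at h1 h2
    rw [h2] at h1
    exact h1.le

end Pool.Agent.Lib.MP_d8ef8f_an.Sf
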