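import Pool.Agent.Lib.MP_d8ef8f_an.Sf.Stm
import Pool.Agent.Lib.MP_d8ef8f_an.Gd.A2

set_option autoImplicit false

/-!
[Be] A bump function where `m` is positive.
-/

namespace Pool.Agent.Lib.MP_d8ef8f_an.Sf

open Set Filter Topology MeasureTheory
open Pool.Agent.Lib.MP_d8ef8f_an.Gd Pool.Agent.Lib.MP_d8ef8f_an.Ff

private lemma be_c1 {n : ℕ} (Ω : Set (Sp n)) (g : Sp n → ℝ) (hg : ContDiff ℝ 1 g) :
    C1 Ω g (fun x => (InnerProductSpace.toDual ℝ (Sp n)).symm (fderiv ℝ g x)) := by
  refine ⟨hg.continuous.continuousOn, ?_, ?_⟩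
  · exact ((InnerProductSpace.toDual ℝ (Sp n)).symm.continuous.comp
      (hg.continuous_fderiv one_ne_zero)).continuousOn
  · intro x _
    exact (hg.differentiable one_ne_zero x).hasGradientAt

theorem p_Be : StmBe := by
  intro n Ω hΩ hb m hm hpos
  obtain ⟨x, hx, hmx⟩ := hpos
  -- a point of `Ω` where `m` is positive
  have h1 : ∀ᶠ y in 𝓝[closure Ω] x, 0 < m y := (hm x hx).eventually (lt_mem_nhds hmx)
  have h2 : ∀ᶠ y in 𝓝[Ω] x, 0 < m y := nhdsWithin_mono x subset_closure h1
  have h3 : (𝓝[Ω] x).NeBot := mem_closure_iff_nhdsWithin_neBot.1 hx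
  obtain ⟨x0, hx0m, hx0⟩ := (h2.and self_mem_nhdsWithin).exists
  -- a ball around it
  have h4 : ∀ᶠ y in 𝓝 x0, 0 < m y := by
    have h5 : ContinuousAt m x0 :=
      hm.continuousAt (mem_of_superset (hΩ.mem_nhds hx0) subset_closure)
    exact h5.eventually (lt_mem_nhds hx0m)
  obtain ⟨r, hr, hball⟩ := Metric.eventually_nhds_iff_ball.1 (h4.and (hΩ.mem_nhds hx0))
  let f : ContDiffBump x0 := ⟨r / 4, r / 2, by linarith, by linarith⟩
  have hf : ContDiff ℝ 1 (f : Sp n → ℝ) := f.contDiff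
  have hf2 : IntegrableOn (fun y => f y ^ 2) Ω :=
    p_A2 Ω hb (fun y => f y ^ 2) (hf.continuous.pow 2).continuousOn
  have hI : 0 < ∫ y in Ω, f y ^ 2 := by
    rw [setIntegral_pos_iff_support_of_nonneg_ae (Eventually.of_forall fun y => sq_nonneg _) hf2]
    have h6 : Metric.ball x0 (r / 2) ⊆ Function.support (fun y => f y ^ 2) ∩ Ω := by
      intro y hy
      refine ⟨?_, ?_⟩
      · have h7 : y ∈ Function.support (f : Sp n → ℝ) := by
          rw [f.support_eq]
          exact hy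
        rw [Function.mem_support] at h7 ⊢
        exact pow_ne_zero 2 h7
      · exact (hball y (Metric.ball_subset_ball (by linarith) hy)).2
    exact lt_of_lt_of_le (Metric.measure_ball_pos volume x0 (by linarith)) (measure_mono h6)
  have hV : 0 ≤ vol Ω := measureReal_nonneg
  set c : ℝ := Real.sqrt (vol Ω / ∫ y in Ω, f y ^ 2) with hc
  refine ⟨fun y => c * f y, _, be_c1 Ω (fun y => c * f y) (contDiff_const.mul hf), ?_, ?_⟩
  · intro y _ hy
    have h7 : y ∈ Function.support (f : Sp n → ℝ) := by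
      rw [Function.mem_support]
      exact right_ne_zero_of_mul hy
    rw [f.support_eq] at h7
    exact (hball y (Metric.ball_subset_ball (show r / 2 ≤ r by linarith) h7)).1
  · have h8 : ∀ y, (c * f y) ^ 2 = c ^ 2 * f y ^ 2 := fun y => by ring
    simp only [h8]
    rw [integral_const_mul, hc, Real.sq_sqrt (div_nonneg hV hI.le)]
    exact div_mul_cancel₀ _ hI.ne'

end Pool.Agent.Lib.MP_d8ef8f_an.Sf
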