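import Pool.Agent.Lib.MP_d8ef8f_an.Sf.Stm
import Pool.Agent.Lib.MP_d8ef8f_an.Gd.P2

set_option autoImplicit false

namespace Pool.Agent.Lib.MP_d8ef8f_an.Sf

open Set Filter Topology MeasureTheory
open Pool.Agent.Lib.MP_d8ef8f_an.Gd Pool.Agent.Lib.MP_d8ef8f_an.Ff
open scoped ENNReal

/-- one dimensional estimate along a segment, with the length of the segment -/
private lemma C1_line {n : ℕ} {v : Sp n → ℝ} {v' : Sp n → Sp n →L[ℝ] ℝ} {B : ℝ}
    (h1 : ∀ y ∈ cube n, HasFDerivAt v (v' y) y) (h2 : ∀ y ∈ cube n, ‖v' y‖ ≤ B)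
    {x y : Sp n} (hx : x ∈ cube n) (hy : y ∈ cube n) :
    IntegrableOn (fun t : ℝ => ‖fderiv ℝ v (y + t • (x - y))‖ ^ 2) (Ioc 0 1) ∧
    (v x - v y) ^ 2 ≤ ‖x - y‖ ^ 2 * ∫ t in Ioc (0:ℝ) 1, ‖fderiv ℝ v (y + t • (x - y))‖ ^ 2 := by
  have hB : 0 ≤ B := (norm_nonneg _).trans (h2 x hx)
  have hseg : ∀ t ∈ Icc (0:ℝ) 1, y + t • (x - y) ∈ cube n := fun t ht => p2_seg hx hy ht.1 ht.2
  have hγc : Continuous fun t : ℝ => y + t • (x - y) := by fun_prop
  have hm : Measurable fun t : ℝ => fderiv ℝ v (y + t • (x - y)) :=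
    (measurable_fderiv ℝ v).comp hγc.measurable
  have hfd : ∀ t ∈ Icc (0:ℝ) 1, fderiv ℝ v (y + t • (x - y)) = v' (y + t • (x - y)) :=
    fun t ht => (h1 _ (hseg t ht)).fderiv
  have hm1 : Measurable fun t : ℝ => fderiv ℝ v (y + t • (x - y)) (x - y) :=
    hm.apply_continuousLinearMap (x - y)
  have hb1 : ∀ t ∈ Icc (0:ℝ) 1, ‖fderiv ℝ v (y + t • (x - y)) (x - y)‖ ≤ B * ‖x - y‖ := by
    intro t ht
    rw [hfd t ht]
    exact (ContinuousLinearMap.le_opNorm _ _).trans
      (mul_le_mul_of_nonneg_right (h2 _ (hseg t ht)) (norm_nonneg _))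
  have hfin : volume (Ioc (0:ℝ) 1) ≠ ⊤ := measure_Ioc_lt_top.ne
  have hi1 : IntegrableOn (fun t : ℝ => fderiv ℝ v (y + t • (x - y)) (x - y)) (Ioc 0 1) := by
    refine Measure.integrableOn_of_bounded (M := B * ‖x - y‖) hfin hm1.aestronglyMeasurable ?_
    filter_upwards [ae_restrict_mem measurableSet_Ioc] with t ht
    exact hb1 t ⟨ht.1.le, ht.2⟩
  have hi2 : IntegrableOn (fun t : ℝ => (fderiv ℝ v (y + t • (x - y)) (x - y)) ^ 2)
      (Ioc 0 1) := by
    refine Measure.integrableOn_of_bounded (M := (B * ‖x - y‖) ^ 2) hfin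
      (hm1.pow_const 2).aestronglyMeasurable ?_
    filter_upwards [ae_restrict_mem measurableSet_Ioc] with t ht
    rw [norm_pow]
    exact pow_le_pow_left₀ (norm_nonneg _) (hb1 t ⟨ht.1.le, ht.2⟩) 2
  have hi3 : IntegrableOn (fun t : ℝ => ‖fderiv ℝ v (y + t • (x - y))‖ ^ 2) (Ioc 0 1) := by
    refine Measure.integrableOn_of_bounded (M := B ^ 2) hfin
      (hm.norm.pow_const 2).aestronglyMeasurable ?_
    filter_upwards [ae_restrict_mem measurableSet_Ioc] with t ht
    rw [norm_pow, norm_norm, hfd t ⟨ht.1.le, ht.2⟩]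
    exact pow_le_pow_left₀ (norm_nonneg _) (h2 _ (hseg t ⟨ht.1.le, ht.2⟩)) 2
  refine ⟨hi3, ?_⟩
  have hftc : ∫ t in Ioc (0:ℝ) 1, fderiv ℝ v (y + t • (x - y)) (x - y) = v x - v y := by
    rw [← intervalIntegral.integral_of_le zero_le_one]
    have := intervalIntegral.integral_eq_sub_of_hasDerivAt (a := (0:ℝ)) (b := 1)
      (f := fun t => v (y + t • (x - y)))
      (f' := fun t : ℝ => fderiv ℝ v (y + t • (x - y)) (x - y)) ?_ ?_
    · rw [this]; simp
    · intro t ht
      rw [uIcc_of_le zero_le_one] at ht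
      have hγ : HasDerivAt (fun t : ℝ => y + t • (x - y)) (x - y) t := by
        simpa using ((hasDerivAt_id t).smul_const (x - y)).const_add y
      have := (h1 _ (hseg t ht)).comp_hasDerivAt t hγ
      rw [hfd t ht]
      exact this
    · rw [intervalIntegrable_iff_integrableOn_Ioc_of_le zero_le_one]
      exact hi1
  set I := v x - v y with hI
  have hvol : volume.real (Ioc (0:ℝ) 1) = 1 := by simp
  have hcs : I ^ 2 ≤ ∫ t in Ioc (0:ℝ) 1, (fderiv ℝ v (y + t • (x - y)) (x - y)) ^ 2 := by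
    have h0 : 0 ≤ ∫ t in Ioc (0:ℝ) 1, (fderiv ℝ v (y + t • (x - y)) (x - y) - I) ^ 2 :=
      integral_nonneg fun _ => sq_nonneg _
    have e : (fun t : ℝ => (fderiv ℝ v (y + t • (x - y)) (x - y) - I) ^ 2)
        = fun t : ℝ => ((fderiv ℝ v (y + t • (x - y)) (x - y)) ^ 2
          + (-(2 * I)) * fderiv ℝ v (y + t • (x - y)) (x - y)) + I ^ 2 := by
      funext t; ring
    have hl : IntegrableOn (fun t : ℝ => (-(2 * I)) * fderiv ℝ v (y + t • (x - y)) (x - y))
        (Ioc 0 1) := hi1.const_mul _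
    have s1 : ∫ t in Ioc (0:ℝ) 1, (((fderiv ℝ v (y + t • (x - y)) (x - y)) ^ 2
          + (-(2 * I)) * fderiv ℝ v (y + t • (x - y)) (x - y)) + I ^ 2)
        = (∫ t in Ioc (0:ℝ) 1, ((fderiv ℝ v (y + t • (x - y)) (x - y)) ^ 2
          + (-(2 * I)) * fderiv ℝ v (y + t • (x - y)) (x - y))) + ∫ _t in Ioc (0:ℝ) 1, I ^ 2 :=
      integral_add (hi2.add hl) (integrableOn_const hfin)
    rw [e, s1, integral_add hi2 hl, integral_const_mul, hftc, setIntegral_const, hvol,
      smul_eq_mul, one_mul] at h0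
    nlinarith
  have hmono : ∫ t in Ioc (0:ℝ) 1, (fderiv ℝ v (y + t • (x - y)) (x - y)) ^ 2
      ≤ ∫ t in Ioc (0:ℝ) 1, ‖x - y‖ ^ 2 * ‖fderiv ℝ v (y + t • (x - y))‖ ^ 2 := by
    refine setIntegral_mono hi2 (hi3.const_mul _) fun t => ?_
    have hle := ContinuousLinearMap.le_opNorm (fderiv ℝ v (y + t • (x - y))) (x - y)
    calc (fderiv ℝ v (y + t • (x - y)) (x - y)) ^ 2
        = ‖fderiv ℝ v (y + t • (x - y)) (x - y)‖ ^ 2 := by rw [Real.norm_eq_abs, sq_abs]
      _ ≤ (‖fderiv ℝ v (y + t • (x - y))‖ * ‖x - y‖) ^ 2 :=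
          pow_le_pow_left₀ (norm_nonneg _) hle 2
      _ = ‖x - y‖ ^ 2 * ‖fderiv ℝ v (y + t • (x - y))‖ ^ 2 := by ring
  rw [integral_const_mul] at hmono
  exact hcs.trans hmono

/-- affine change of variables -/
private lemma C1_affine {n : ℕ} {H : Sp n → ℝ≥0∞} (hH : Measurable H) (c : Sp n) {t : ℝ}
    (ht : 0 < t) : ∫⁻ x, H (c + t • x) = ENNReal.ofReal ((t ^ n)⁻¹) * ∫⁻ x, H x := by
  have h1 : ∫⁻ x, H (c + t • x) = ∫⁻ z, H (c + z) ∂(Measure.map (t • ·) volume) := by
    rw [lintegral_map]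
    · exact hH.comp (measurable_const_add c)
    · exact measurable_const_smul t
  rw [h1, Measure.map_addHaar_smul _ ht.ne', lintegral_smul_measure, lintegral_add_left_eq_self]
  rw [smul_eq_mul, finrank_euclideanSpace, Fintype.card_fin, abs_of_pos (by positivity)]

private lemma C1_pos (n : ℕ) : volume (cube n) ≠ 0 := by
  have hne : (cube n).Nonempty := by
    refine ⟨WithLp.toLp 2 fun _ => (1 / 2 : ℝ), fun i => ?_⟩
    constructor <;> norm_num
  exact ((p2_cube_open n).measure_pos volume hne).ne'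

private lemma C1_conv (I D P Q V a b : ℝ) (n : ℕ) (hI : 0 ≤ I) (hD : 0 ≤ D) (hP : 0 ≤ P)
    (hV : 0 ≤ V) (ha : 0 ≤ a) (hb : 0 ≤ b) (hQ : 0 ≤ Q)
    (h : ENNReal.ofReal I * ENNReal.ofReal V ≤ ENNReal.ofReal a *
      ((2 ^ n * ENNReal.ofReal D) * ENNReal.ofReal V) +
        (2 * ENNReal.ofReal P) * (ENNReal.ofReal b * ENNReal.ofReal Q)) :
    I * V ≤ a * ((2 ^ n * D) * V) + (2 * P) * (b * Q) := by
  have e4 : (2 : ℝ≥0∞) = ENNReal.ofReal 2 := (ENNReal.ofReal_ofNat 2).symm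
  rw [e4, ← ENNReal.ofReal_pow (by norm_num),
    ← ENNReal.ofReal_mul hI, ← ENNReal.ofReal_mul (by positivity),
    ← ENNReal.ofReal_mul (by positivity), ← ENNReal.ofReal_mul (by positivity),
    ← ENNReal.ofReal_mul (by positivity), ← ENNReal.ofReal_mul (by positivity),
    ← ENNReal.ofReal_mul (by positivity), ← ENNReal.ofReal_add (by positivity) (by positivity),
    ENNReal.ofReal_le_ofReal_iff (by positivity)] at h
  exact h

theorem p_C1 : StmC1 := by
  intro n η hη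
  have hVfin : volume (cube n) ≠ ⊤ := (p2_bdd n).measure_lt_top.ne
  have hV0 : volume (cube n) ≠ 0 := C1_pos n
  have hms : MeasurableSet (cube n) := (p2_cube_open n).measurableSet
  have hVr : 0 < volume.real (cube n) := ENNReal.toReal_pos hV0 hVfin
  have : IsFiniteMeasure (volume.restrict (cube n)) :=
    ⟨by rw [Measure.restrict_apply_univ]; exact hVfin.lt_top⟩
  -- the scale
  obtain ⟨t, ht0, ht1, ht2⟩ : ∃ t : ℝ, 0 < t ∧ t ≤ 1 ∧ 2 * (n * t ^ 2) * 2 ^ n ≤ η := by
    refine ⟨min 1 (η / (2 * n * 2 ^ n + 1)), by positivity, min_le_left _ _, ?_⟩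
    set t := min 1 (η / (2 * n * 2 ^ n + 1)) with ht
    have h0 : 0 < t := by positivity
    have h1 : t ≤ 1 := min_le_left _ _
    have h2 : t ≤ η / (2 * n * 2 ^ n + 1) := min_le_right _ _
    rw [le_div_iff₀ (by positivity)] at h2
    have h3 : t ^ 2 ≤ t := by nlinarith
    calc 2 * (n * t ^ 2) * 2 ^ n = t ^ 2 * (2 * n * 2 ^ n) := by ring
      _ ≤ t * (2 * n * 2 ^ n) := mul_le_mul_of_nonneg_right h3 (by positivity)
      _ ≤ t * (2 * n * 2 ^ n + 1) := by linarith
      _ ≤ η := h2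
  refine ⟨2 * (t ^ n)⁻¹ / volume.real (cube n), by positivity, ?_⟩
  intro v v' B h1 h2 ρ hρm hρ
  have hvc : ContinuousOn v (cube n) := fun y hy => (h1 y hy).continuousAt.continuousWithinAt
  -- `v` is bounded
  obtain ⟨Cv, hCv0, hCv⟩ : ∃ Cv : ℝ, 0 ≤ Cv ∧ ∀ x ∈ cube n, |v x| ≤ Cv := by
    have hne : (cube n).Nonempty := nonempty_of_measure_ne_zero hV0
    obtain ⟨y, hy⟩ := hne
    refine ⟨|v y| + (1 + n * B ^ 2), by positivity, fun x hx => ?_⟩
    obtain ⟨hi, hle⟩ := C1_line h1 h2 hx hy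
    have h3 : ∫ t in Ioc (0:ℝ) 1, ‖fderiv ℝ v (y + t • (x - y))‖ ^ 2 ≤ B ^ 2 := by
      calc ∫ t in Ioc (0:ℝ) 1, ‖fderiv ℝ v (y + t • (x - y))‖ ^ 2
          ≤ ∫ _t in Ioc (0:ℝ) 1, B ^ 2 := by
            apply setIntegral_mono_on hi (integrableOn_const measure_Ioc_lt_top.ne)
              measurableSet_Ioc
            intro s hs
            have hz := p2_seg hx hy hs.1.le hs.2
            rw [(h1 _ hz).fderiv]
            exact pow_le_pow_left₀ (norm_nonneg _) (h2 _ hz) 2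
        _ = B ^ 2 := by simp
    have h4 : (v x - v y) ^ 2 ≤ n * B ^ 2 :=
      hle.trans (mul_le_mul (p2_norm hx hy) h3 (integral_nonneg fun _ => sq_nonneg _)
        (Nat.cast_nonneg n))
    have h5 : |v x - v y| ≤ 1 + n * B ^ 2 := by
      have : |v x - v y| ^ 2 = (v x - v y) ^ 2 := sq_abs _
      nlinarith [abs_nonneg (v x - v y), sq_nonneg (|v x - v y| - 1)]
    have h6 := abs_add_le (v y) (v x - v y)
    rw [add_sub_cancel] at h6
    linarith
  -- auxiliary functions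
  set G : Sp n → ℝ≥0∞ := (cube n).indicator (fun w => ENNReal.ofReal (‖fderiv ℝ v w‖ ^ 2))
    with hGdef
  have hfm : Measurable fun w : Sp n => ‖fderiv ℝ v w‖ ^ 2 :=
    (measurable_fderiv ℝ v).norm.pow_const 2
  have hGm : Measurable G := hfm.ennreal_ofReal.indicator hms
  set H : Sp n → ℝ≥0∞ := (cube n).indicator (fun w => ENNReal.ofReal (v w ^ 2)) with hHdef
  have hHm : Measurable H := by
    classical
    rw [hHdef, ← Set.piecewise_eq_indicator]
    apply ContinuousOn.measurable_piecewise _ _ hms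
    · exact ENNReal.continuous_ofReal.comp_continuousOn (hvc.pow 2)
    · exact continuousOn_const
  have hint_v2 : IntegrableOn (fun x => v x ^ 2) (cube n) := by
    refine Integrable.of_bound ((hvc.pow 2).aestronglyMeasurable hms) (Cv ^ 2) ?_
    filter_upwards [ae_restrict_mem hms] with y hy
    rw [norm_pow, Real.norm_eq_abs]
    exact pow_le_pow_left₀ (abs_nonneg _) (hCv y hy) 2
  have hint_ρ : IntegrableOn ρ (cube n) := by
    refine Integrable.of_bound hρm 1 ?_
    filter_upwards [ae_restrict_mem hms] with y hy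
    rw [Real.norm_eq_abs, abs_of_nonneg (hρ y hy).1]
    exact (hρ y hy).2
  have hint_vρ : IntegrableOn (fun x => v x ^ 2 * ρ x) (cube n) := by
    refine Integrable.of_bound (((hvc.pow 2).aestronglyMeasurable hms).mul hρm) (Cv ^ 2) ?_
    filter_upwards [ae_restrict_mem hms] with y hy
    rw [norm_mul, norm_pow, Real.norm_eq_abs, Real.norm_eq_abs, abs_of_nonneg (hρ y hy).1]
    calc |v y| ^ 2 * ρ y ≤ Cv ^ 2 * 1 :=
          mul_le_mul (pow_le_pow_left₀ (abs_nonneg _) (hCv y hy) 2) (hρ y hy).2 (hρ y hy).1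
            (by positivity)
      _ = Cv ^ 2 := mul_one _
  have hint_d : IntegrableOn (fun w => ‖fderiv ℝ v w‖ ^ 2) (cube n) := by
    refine Measure.integrableOn_of_bounded (M := B ^ 2) hVfin hfm.aestronglyMeasurable ?_
    filter_upwards [ae_restrict_mem hms] with w hw
    rw [norm_pow, norm_norm, (h1 w hw).fderiv]
    exact pow_le_pow_left₀ (norm_nonneg _) (h2 w hw) 2
  have hGi : ∫⁻ w, G w = ENNReal.ofReal (∫ w in cube n, ‖v' w‖ ^ 2) := by
    have e : ∫ w in cube n, ‖v' w‖ ^ 2 = ∫ w in cube n, ‖fderiv ℝ v w‖ ^ 2 :=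
      setIntegral_congr_fun hms fun w hw => by
        show ‖v' w‖ ^ 2 = ‖fderiv ℝ v w‖ ^ 2
        rw [(h1 w hw).fderiv]
    rw [e, hGdef, lintegral_indicator hms,
      ofReal_integral_eq_lintegral_ofReal hint_d (Eventually.of_forall fun _ => sq_nonneg _)]
  have hHi : ∫⁻ w, H w = ENNReal.ofReal (∫ w in cube n, v w ^ 2) := by
    rw [hHdef, lintegral_indicator hms,
      ofReal_integral_eq_lintegral_ofReal hint_v2 (Eventually.of_forall fun _ => sq_nonneg _)]
  have hρi : ∫⁻ w in cube n, ENNReal.ofReal (ρ w) = ENNReal.ofReal (∫ w in cube n, ρ w) := by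
    rw [ofReal_integral_eq_lintegral_ofReal hint_ρ]
    filter_upwards [ae_restrict_mem hms] with y hy using (hρ y hy).1
  have hLi : ∫⁻ w in cube n, ENNReal.ofReal (v w ^ 2 * ρ w) =
      ENNReal.ofReal (∫ w in cube n, v w ^ 2 * ρ w) := by
    rw [ofReal_integral_eq_lintegral_ofReal hint_vρ]
    filter_upwards [ae_restrict_mem hms] with y hy using mul_nonneg (sq_nonneg _) (hρ y hy).1
  -- pointwise bound
  have hpt : ∀ x ∈ cube n, ∀ y ∈ cube n, ENNReal.ofReal (v x ^ 2 * ρ x)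
      ≤ ENNReal.ofReal (2 * (n * t ^ 2)) *
          (∫⁻ s in Ioc (0:ℝ) 1, G (y + (1 - (1 - s) * t) • (x - y)))
        + ENNReal.ofReal (2 * ρ x) * H ((x - t • x) + t • y) := by
    intro x hx y hy
    have hx' : x + t • (y - x) ∈ cube n := p2_seg hy hx ht0.le ht1
    obtain ⟨hi, hle⟩ := C1_line h1 h2 hx hx'
    have hn : ‖x - (x + t • (y - x))‖ ^ 2 ≤ n * t ^ 2 := by
      have : x - (x + t • (y - x)) = t • (x - y) := by
        rw [smul_sub, smul_sub]
        abel
      rw [this, norm_smul, mul_pow, Real.norm_eq_abs, sq_abs, mul_comm]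
      exact mul_le_mul_of_nonneg_right (p2_norm hx hy) (sq_nonneg _)
    have hI0 : 0 ≤ ∫ s in Ioc (0:ℝ) 1,
        ‖fderiv ℝ v (x + t • (y - x) + s • (x - (x + t • (y - x))))‖ ^ 2 :=
      integral_nonneg fun _ => sq_nonneg _
    have hle2 : (v x - v (x + t • (y - x))) ^ 2 ≤ (n * t ^ 2) * ∫ s in Ioc (0:ℝ) 1,
        ‖fderiv ℝ v (x + t • (y - x) + s • (x - (x + t • (y - x))))‖ ^ 2 :=
      hle.trans (mul_le_mul_of_nonneg_right hn hI0)
    have hρx := hρ x hx
    have e1 : v x ^ 2 * ρ x ≤ 2 * ((n * t ^ 2) * ∫ s in Ioc (0:ℝ) 1,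
        ‖fderiv ℝ v (x + t • (y - x) + s • (x - (x + t • (y - x))))‖ ^ 2) +
        2 * ρ x * v (x + t • (y - x)) ^ 2 := by
      have k1 : v x ^ 2 ≤ 2 * (v x - v (x + t • (y - x))) ^ 2 +
          2 * v (x + t • (y - x)) ^ 2 := by
        nlinarith [sq_nonneg (v x - 2 * v (x + t • (y - x)))]
      calc v x ^ 2 * ρ x ≤ (2 * (v x - v (x + t • (y - x))) ^ 2 +
          2 * v (x + t • (y - x)) ^ 2) * ρ x := mul_le_mul_of_nonneg_right k1 hρx.1
        _ = 2 * (v x - v (x + t • (y - x))) ^ 2 * ρ x + 2 * ρ x * v (x + t • (y - x)) ^ 2 := by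
            ring
        _ ≤ 2 * (v x - v (x + t • (y - x))) ^ 2 * 1 + 2 * ρ x * v (x + t • (y - x)) ^ 2 := by
            gcongr
            exact hρx.2
        _ ≤ _ := by linarith
    have hG' : ∫⁻ s in Ioc (0:ℝ) 1, G (y + (1 - (1 - s) * t) • (x - y)) =
        ENNReal.ofReal (∫ s in Ioc (0:ℝ) 1,
          ‖fderiv ℝ v (x + t • (y - x) + s • (x - (x + t • (y - x))))‖ ^ 2) := by
      rw [ofReal_integral_eq_lintegral_ofReal hi (Eventually.of_forall fun _ => sq_nonneg _)]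
      refine setLIntegral_congr_fun measurableSet_Ioc fun s hs => ?_
      have hp : y + (1 - (1 - s) * t) • (x - y) =
          x + t • (y - x) + s • (x - (x + t • (y - x))) := by
        module
      rw [hp, hGdef, indicator_of_mem (p2_seg hx hx' hs.1.le hs.2)]
    have hH' : H ((x - t • x) + t • y) = ENNReal.ofReal (v (x + t • (y - x)) ^ 2) := by
      have hp : (x - t • x) + t • y = x + t • (y - x) := by
        module
      rw [hp, hHdef, indicator_of_mem hx']
    rw [hG', hH', ← ENNReal.ofReal_mul (by positivity),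
      ← ENNReal.ofReal_mul (by linarith [hρx.1]), ← ENNReal.ofReal_add
        (mul_nonneg (by positivity) hI0) (mul_nonneg (by linarith [hρx.1]) (sq_nonneg _))]
    apply ENNReal.ofReal_le_ofReal
    calc _ ≤ _ := e1
      _ = _ := by ring
  -- measurability
  have hm3 : Measurable fun p : (Sp n × ℝ) × Sp n =>
      G (p.2 + (1 - (1 - p.1.2) * t) • (p.1.1 - p.2)) := by
    apply hGm.comp
    fun_prop
  have hm2 : Measurable fun p : Sp n × ℝ =>
      ∫⁻ y in cube n, G (y + (1 - (1 - p.2) * t) • (p.1 - y)) :=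
    hm3.lintegral_prod_right'
  -- first part
  have hA : ∫⁻ x in cube n, ∫⁻ y in cube n,
      ∫⁻ s in Ioc (0:ℝ) 1, G (y + (1 - (1 - s) * t) • (x - y)) ≤
      (2 ^ n * ∫⁻ w, G w) * volume (cube n) := by
    calc ∫⁻ x in cube n, ∫⁻ y in cube n,
          ∫⁻ s in Ioc (0:ℝ) 1, G (y + (1 - (1 - s) * t) • (x - y))
        = ∫⁻ x in cube n, ∫⁻ s in Ioc (0:ℝ) 1, ∫⁻ y in cube n,
            G (y + (1 - (1 - s) * t) • (x - y)) := by
          refine lintegral_congr fun x => ?_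
          have hmx : Measurable fun p : Sp n × ℝ =>
              G (p.1 + (1 - (1 - p.2) * t) • (x - p.1)) := by
            apply hGm.comp
            fun_prop
          exact lintegral_lintegral_swap
            (f := fun y s => G (y + (1 - (1 - s) * t) • (x - y))) hmx.aemeasurable
      _ = ∫⁻ s in Ioc (0:ℝ) 1, ∫⁻ x in cube n, ∫⁻ y in cube n,
            G (y + (1 - (1 - s) * t) • (x - y)) :=
          lintegral_lintegral_swap
            (f := fun x s => ∫⁻ y in cube n, G (y + (1 - (1 - s) * t) • (x - y)))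
            hm2.aemeasurable
      _ ≤ ∫⁻ _s in Ioc (0:ℝ) 1, ((2 ^ n * ∫⁻ w, G w) * volume (cube n)) :=
          lintegral_mono fun s => p2_fixed hGm _
      _ = (2 ^ n * ∫⁻ w, G w) * volume (cube n) := by
          rw [setLIntegral_const]
          simp
  -- second part
  have hBd : ∀ x, ∫⁻ y in cube n, H ((x - t • x) + t • y) ≤
      ENNReal.ofReal ((t ^ n)⁻¹) * ∫⁻ w, H w := fun x =>
    (setLIntegral_le_lintegral _ _).trans (C1_affine hHm (x - t • x) ht0).le
  set c₂ : ℝ≥0∞ := ENNReal.ofReal ((t ^ n)⁻¹) * ∫⁻ w, H w with hc₂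
  have hmain : (∫⁻ x in cube n, ENNReal.ofReal (v x ^ 2 * ρ x)) * volume (cube n) ≤
      ENNReal.ofReal (2 * (n * t ^ 2)) * ((2 ^ n * ∫⁻ w, G w) * volume (cube n)) +
        (2 * ∫⁻ x in cube n, ENNReal.ofReal (ρ x)) * c₂ := by
    calc (∫⁻ x in cube n, ENNReal.ofReal (v x ^ 2 * ρ x)) * volume (cube n)
        = ∫⁻ x in cube n, ENNReal.ofReal (v x ^ 2 * ρ x) * volume (cube n) :=
          (lintegral_mul_const' _ _ hVfin).symm
      _ = ∫⁻ x in cube n, ∫⁻ _y in cube n, ENNReal.ofReal (v x ^ 2 * ρ x) := by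
          refine lintegral_congr fun x => ?_
          rw [setLIntegral_const]
      _ ≤ ∫⁻ x in cube n, ∫⁻ y in cube n, (ENNReal.ofReal (2 * (n * t ^ 2)) *
          (∫⁻ s in Ioc (0:ℝ) 1, G (y + (1 - (1 - s) * t) • (x - y)))
        + ENNReal.ofReal (2 * ρ x) * H ((x - t • x) + t • y)) :=
          setLIntegral_mono' hms fun x hx => setLIntegral_mono' hms fun y hy => hpt x hx y hy
      _ = ∫⁻ x in cube n, (ENNReal.ofReal (2 * (n * t ^ 2)) *
          (∫⁻ y in cube n, ∫⁻ s in Ioc (0:ℝ) 1, G (y + (1 - (1 - s) * t) • (x - y)))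
        + ENNReal.ofReal (2 * ρ x) * ∫⁻ y in cube n, H ((x - t • x) + t • y)) := by
          refine lintegral_congr fun x => ?_
          have hmH : Measurable fun y => H ((x - t • x) + t • y) := by
            apply hHm.comp
            fun_prop
          rw [lintegral_add_right _ (hmH.const_mul _),
            lintegral_const_mul' _ _ ENNReal.ofReal_ne_top, lintegral_const_mul _ hmH]
      _ ≤ ∫⁻ x in cube n, (ENNReal.ofReal (2 * (n * t ^ 2)) *
          (∫⁻ y in cube n, ∫⁻ s in Ioc (0:ℝ) 1, G (y + (1 - (1 - s) * t) • (x - y)))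
        + ENNReal.ofReal (2 * ρ x) * c₂) := by
          refine lintegral_mono fun x => ?_
          gcongr
          exact hBd x
      _ = ENNReal.ofReal (2 * (n * t ^ 2)) * (∫⁻ x in cube n,
          ∫⁻ y in cube n, ∫⁻ s in Ioc (0:ℝ) 1, G (y + (1 - (1 - s) * t) • (x - y)))
        + ∫⁻ x in cube n, ENNReal.ofReal (2 * ρ x) * c₂ := by
          rw [lintegral_add_right', lintegral_const_mul' _ _ ENNReal.ofReal_ne_top]
          exact ((hρm.aemeasurable.const_mul 2).ennreal_ofReal).mul_const _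
      _ ≤ _ := by
          gcongr
          · rw [lintegral_mul_const'' _ (hρm.aemeasurable.const_mul 2).ennreal_ofReal]
            gcongr
            rw [← lintegral_const_mul' _ _ (by norm_num)]
            refine lintegral_mono fun x => ?_
            rw [ENNReal.ofReal_mul (by norm_num), ENNReal.ofReal_ofNat]
  -- back to real numbers
  set I := ∫ w in cube n, v w ^ 2 * ρ w with hI
  set D := ∫ w in cube n, ‖v' w‖ ^ 2 with hD
  set P := ∫ w in cube n, ρ w with hP
  set Q := ∫ w in cube n, v w ^ 2 with hQ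
  have hD0 : 0 ≤ D := integral_nonneg fun _ => sq_nonneg _
  have hQ0 : 0 ≤ Q := integral_nonneg fun _ => sq_nonneg _
  have hP0 : 0 ≤ P := setIntegral_nonneg hms fun y hy => (hρ y hy).1
  have hI0 : 0 ≤ I := setIntegral_nonneg hms fun y hy => mul_nonneg (sq_nonneg _) (hρ y hy).1
  have e3 : volume (cube n) = ENNReal.ofReal (volume.real (cube n)) :=
    (ENNReal.ofReal_toReal hVfin).symm
  rw [hLi, hρi, hc₂, hGi, hHi, e3] at hmain
  have hmain2 := C1_conv I D P Q (volume.real (cube n)) (2 * (n * t ^ 2)) ((t ^ n)⁻¹) n hI0 hD0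
    hP0 hVr.le (by positivity) (by positivity) hQ0 hmain
  have hfin : I ≤ 2 * (n * t ^ 2) * 2 ^ n * D +
      2 * (t ^ n)⁻¹ / volume.real (cube n) * Q * P := by
    rw [← mul_le_mul_iff_left₀ hVr]
    refine hmain2.trans (le_of_eq ?_)
    field_simp
  calc I ≤ _ := hfin
    _ ≤ _ := by
        gcongr

end Pool.Agent.Lib.MP_d8ef8f_an.Sf
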