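import Pool.Agent.Lib.MP_d8ef8f_an.Sf.Stm
import Pool.Agent.Lib.MP_d8ef8f_an.Gd.A2
import Pool.Agent.Lib.MP_d8ef8f_an.Gd.P3

set_option autoImplicit false

namespace Pool.Agent.Lib.MP_d8ef8f_an.Sf

open Set Filter Topology MeasureTheory
open Pool.Agent.Lib.MP_d8ef8f_an.Gd Pool.Agent.Lib.MP_d8ef8f_an.Ff

/-- **C2** the compactness inequality on a chart piece. -/
theorem p_C2 (c1 : StmC1) : StmC2 := by
  intro n Ω hΩo hΩb W Ψ Ψ' M hM hinj himg hΨ η hη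
  have hA : 0 < M ^ n := pow_pos hM n
  obtain ⟨C, hC, hC1⟩ := c1 n (η / (M ^ n * (M ^ 2 * M))) (by positivity)
  have hms : MeasurableSet (cube n) := (p2_cube_open n).measurableSet
  have hVfin : volume (cube n) ≠ ⊤ := (p2_bdd n).measure_lt_top.ne
  have hcc : IsCompact (closure Ω) := hΩb.isCompact_closure
  have hsubΩ : ∀ y ∈ cube n, Ψ y ∈ Ω := fun y hy => by
    have : Ψ y ∈ W ∩ Ω := himg ▸ mem_image_of_mem Ψ hy
    exact this.2
  have hfd : ∀ y ∈ cube n, HasFDerivWithinAt Ψ (Ψ' y) (cube n) y :=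
    fun y hy => (hΨ y hy).1.hasFDerivWithinAt
  have hJ : ∀ y ∈ cube n, |(Ψ' y).det| ≤ M ^ n := fun y hy =>
    (p3_det _).trans (pow_le_pow_left₀ (norm_nonneg _) (hΨ y hy).2.1 n)
  refine ⟨C * M, by positivity, ?_⟩
  intro w Dw hw h hh hh01
  obtain ⟨CD, hCD⟩ := hcc.exists_bound_of_continuousOn hw.contD
  set v : Sp n → ℝ := fun y => w (Ψ y) with hv
  set v' : Sp n → Sp n →L[ℝ] ℝ := fun y => (innerSL ℝ (Dw (Ψ y))).comp (Ψ' y) with hv'
  set ρ : Sp n → ℝ := fun y => (M ^ n)⁻¹ * (|(Ψ' y).det| • h (Ψ y)) with hρ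
  have hvd : ∀ y ∈ cube n, HasFDerivAt v (v' y) y := by
    intro y hy
    have h1 : HasFDerivAt w (innerSL ℝ (Dw (Ψ y))) (Ψ y) :=
      (hw.grad _ (hsubΩ y hy)).hasFDerivAt
    exact h1.comp y (hΨ y hy).1
  have hvn : ∀ y ∈ cube n, ‖v' y‖ ≤ M * ‖Dw (Ψ y)‖ := by
    intro y hy
    calc ‖v' y‖ ≤ ‖innerSL ℝ (Dw (Ψ y))‖ * ‖Ψ' y‖ := ContinuousLinearMap.opNorm_comp_le _ _
      _ = ‖Dw (Ψ y)‖ * ‖Ψ' y‖ := by rw [innerSL_apply_norm]
      _ ≤ ‖Dw (Ψ y)‖ * M := mul_le_mul_of_nonneg_left (hΨ y hy).2.1 (norm_nonneg _)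
      _ = M * ‖Dw (Ψ y)‖ := mul_comm _ _
  have hvB : ∀ y ∈ cube n, ‖v' y‖ ≤ M * CD := fun y hy =>
    (hvn y hy).trans (mul_le_mul_of_nonneg_left (hCD _ (subset_closure (hsubΩ y hy))) hM.le)
  -- integrability on the image and on the cube
  have hsub : Ψ '' cube n ⊆ Ω := by rw [himg]; exact inter_subset_right
  have hint : ∀ f : Sp n → ℝ, ContinuousOn f (closure Ω) →
      IntegrableOn f Ω := fun f hf => p_A2 Ω hΩb f hf
  have hcube : ∀ f : Sp n → ℝ, ContinuousOn f (closure Ω) →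
      IntegrableOn (fun y => |(Ψ' y).det| • f (Ψ y)) (cube n) := fun f hf =>
    (integrableOn_image_iff_integrableOn_abs_det_fderiv_smul volume hms hfd hinj _).1
      ((hint f hf).mono_set hsub)
  have hcv : ∀ f : Sp n → ℝ, ∫ x in W ∩ Ω, f x = ∫ y in cube n, |(Ψ' y).det| • f (Ψ y) := by
    intro f
    rw [← himg, integral_image_eq_integral_abs_det_fderiv_smul volume hms hfd hinj]
  have hmono : ∀ f : Sp n → ℝ, ContinuousOn f (closure Ω) → (∀ x ∈ closure Ω, 0 ≤ f x) →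
      ∫ x in W ∩ Ω, f x ≤ ∫ x in Ω, f x := by
    intro f hf hf0
    refine setIntegral_mono_set (hint f hf) ?_ inter_subset_right.eventuallyLE
    filter_upwards [ae_restrict_mem hΩo.measurableSet] with x hx
    exact hf0 x (subset_closure hx)
  have hρm : AEStronglyMeasurable ρ (volume.restrict (cube n)) :=
    ((hcube h hh).aestronglyMeasurable).const_mul _
  have hρ01 : ∀ y ∈ cube n, 0 ≤ ρ y ∧ ρ y ≤ 1 := by
    intro y hy
    have h1 := hh01 _ (subset_closure (hsubΩ y hy))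
    have h2 := hJ y hy
    refine ⟨?_, ?_⟩
    · rw [hρ]; simp only [smul_eq_mul]
      exact mul_nonneg (inv_nonneg.2 hA.le) (mul_nonneg (abs_nonneg _) h1.1)
    · rw [hρ]; simp only [smul_eq_mul]
      rw [inv_mul_le_iff₀ hA, mul_one]
      calc |(Ψ' y).det| * h (Ψ y) ≤ |(Ψ' y).det| * 1 :=
            mul_le_mul_of_nonneg_left h1.2 (abs_nonneg _)
        _ ≤ M ^ n := by rw [mul_one]; exact h2
  have hbase := hC1 v v' (M * CD) hvd hvB ρ hρm hρ01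
  -- the four integrals
  have e1 : ∫ x in W ∩ Ω, w x ^ 2 * h x = M ^ n * ∫ y in cube n, v y ^ 2 * ρ y := by
    rw [hcv, ← integral_const_mul]
    congr 1
    funext y
    rw [hρ, hv]; simp only [smul_eq_mul]
    field_simp
  have e2 : ∫ y in cube n, ρ y ≤ (M ^ n)⁻¹ * ∫ x in Ω, h x := by
    have : ∫ y in cube n, ρ y = (M ^ n)⁻¹ * ∫ x in W ∩ Ω, h x := by
      rw [hcv, ← integral_const_mul]
    rw [this]
    exact mul_le_mul_of_nonneg_left (hmono h hh fun x hx => (hh01 x hx).1) (inv_nonneg.2 hA.le)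
  have e3 : ∫ y in cube n, v y ^ 2 ≤ M * ∫ x in Ω, w x ^ 2 := by
    have s1 : ∫ y in cube n, v y ^ 2 ≤ ∫ y in cube n, M * (|(Ψ' y).det| • w (Ψ y) ^ 2) := by
      refine integral_mono_of_nonneg (Eventually.of_forall fun y => sq_nonneg _)
        ((hcube _ (hw.cont.pow 2)).const_mul _) ?_
      filter_upwards [ae_restrict_mem hms] with y hy
      have h2 := (hΨ y hy).2.2
      calc v y ^ 2 = v y ^ 2 * 1 := by ring
        _ ≤ v y ^ 2 * (M * |(Ψ' y).det|) := mul_le_mul_of_nonneg_left h2 (sq_nonneg _)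
        _ = M * (|(Ψ' y).det| • w (Ψ y) ^ 2) := by rw [smul_eq_mul, hv]; ring
    rw [integral_const_mul, ← hcv (fun x => w x ^ 2)] at s1
    exact s1.trans (mul_le_mul_of_nonneg_left
      (hmono _ (hw.cont.pow 2) fun x _ => sq_nonneg _) hM.le)
  have e4 : ∫ y in cube n, ‖v' y‖ ^ 2 ≤ M ^ 2 * M * ∫ x in Ω, ‖Dw x‖ ^ 2 := by
    have s1 : ∫ y in cube n, ‖v' y‖ ^ 2
        ≤ ∫ y in cube n, (M ^ 2 * M) * (|(Ψ' y).det| • ‖Dw (Ψ y)‖ ^ 2) := by
      refine integral_mono_of_nonneg (Eventually.of_forall fun y => sq_nonneg _)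
        ((hcube _ (hw.contD.norm.pow 2)).const_mul _) ?_
      filter_upwards [ae_restrict_mem hms] with y hy
      have h1 : ‖v' y‖ ^ 2 ≤ (M * ‖Dw (Ψ y)‖) ^ 2 :=
        pow_le_pow_left₀ (norm_nonneg _) (hvn y hy) 2
      have h2 := (hΨ y hy).2.2
      calc ‖v' y‖ ^ 2 ≤ (M * ‖Dw (Ψ y)‖) ^ 2 := h1
        _ = M ^ 2 * ‖Dw (Ψ y)‖ ^ 2 * 1 := by ring
        _ ≤ M ^ 2 * ‖Dw (Ψ y)‖ ^ 2 * (M * |(Ψ' y).det|) :=
            mul_le_mul_of_nonneg_left h2 (by positivity)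
        _ = (M ^ 2 * M) * (|(Ψ' y).det| • ‖Dw (Ψ y)‖ ^ 2) := by
            rw [smul_eq_mul]; ring
    rw [integral_const_mul, ← hcv (fun x => ‖Dw x‖ ^ 2)] at s1
    exact s1.trans (mul_le_mul_of_nonneg_left
      (hmono _ (hw.contD.norm.pow 2) fun x _ => sq_nonneg _) (by positivity))
  have n2 : 0 ≤ ∫ y in cube n, ρ y :=
    setIntegral_nonneg hms fun y hy => (hρ01 y hy).1
  have n3 : 0 ≤ ∫ x in Ω, w x ^ 2 := integral_nonneg fun x => sq_nonneg _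
  have n4 : 0 ≤ ∫ x in Ω, ‖Dw x‖ ^ 2 := integral_nonneg fun x => sq_nonneg _
  rw [e1]
  calc M ^ n * ∫ y in cube n, v y ^ 2 * ρ y
      ≤ M ^ n * (η / (M ^ n * (M ^ 2 * M)) * (∫ y in cube n, ‖v' y‖ ^ 2)
          + C * (∫ y in cube n, v y ^ 2) * ∫ y in cube n, ρ y) :=
        mul_le_mul_of_nonneg_left hbase hA.le
    _ ≤ M ^ n * (η / (M ^ n * (M ^ 2 * M)) * (M ^ 2 * M * ∫ x in Ω, ‖Dw x‖ ^ 2)
          + C * (M * ∫ x in Ω, w x ^ 2) * ((M ^ n)⁻¹ * ∫ x in Ω, h x)) := by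
        refine mul_le_mul_of_nonneg_left (add_le_add ?_ ?_) hA.le
        · exact mul_le_mul_of_nonneg_left e4 (by positivity)
        · exact mul_le_mul (mul_le_mul_of_nonneg_left e3 hC) e2 n2 (by positivity)
    _ = η * (∫ x in Ω, ‖Dw x‖ ^ 2) + C * M * (∫ x in Ω, w x ^ 2) * ∫ x in Ω, h x := by
        field_simp

end Pool.Agent.Lib.MP_d8ef8f_an.Sf
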