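import Pool.Agent.Lib.MP_d8ef8f_an.Sf.Stm
import Pool.Agent.Lib.MP_d8ef8f_an.Gd.A2

set_option autoImplicit false

namespace Pool.Agent.Lib.MP_d8ef8f_an.Sf

open Set Filter Topology MeasureTheory
open Pool.Agent.Lib.MP_d8ef8f_an.Gd Pool.Agent.Lib.MP_d8ef8f_an.Ff

/-- the integral of a nonnegative function over a set covered by finitely many measurable sets -/
private lemma int_le_sum {n : ℕ} {Ω : Set (Sp n)} (hΩb : Bornology.IsBounded Ω)
    (f : Sp n → ℝ) (hf : ContinuousOn f (closure Ω)) (hf0 : ∀ x ∈ closure Ω, 0 ≤ f x)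
    {ι : Type} (G : ι → Set (Sp n)) (hG : ∀ i, MeasurableSet (G i)) (hGΩ : ∀ i, G i ⊆ Ω)
    (s : Finset ι) : ∫ x in ⋃ i ∈ s, G i, f x ≤ ∑ i ∈ s, ∫ x in G i, f x := by
  classical
  have hint : IntegrableOn f Ω := p_A2 Ω hΩb f hf
  induction s using Finset.induction_on with
  | empty => simp
  | insert a s ha ih =>
    have e : (⋃ i ∈ insert a s, G i) = G a ∪ ⋃ i ∈ s, G i := by
      simp
    rw [e, Finset.sum_insert ha]
    have hm : MeasurableSet (⋃ i ∈ s, G i) := Finset.measurableSet_biUnion _ fun i _ => hG i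
    have hs : (⋃ i ∈ s, G i) ⊆ Ω := iUnion₂_subset fun i _ => hGΩ i
    have h1 : ∫ x in G a ∪ ⋃ i ∈ s, G i, f x
        = (∫ x in G a, f x) + ∫ x in (⋃ i ∈ s, G i) \ G a, f x := by
      rw [← union_sdiff_self]
      exact setIntegral_union disjoint_sdiff_right (hm.diff (hG a)) (hint.mono_set (hGΩ a))
        (hint.mono_set (sdiff_subset.trans hs))
    have h2 : ∫ x in (⋃ i ∈ s, G i) \ G a, f x ≤ ∫ x in (⋃ i ∈ s, G i), f x := by
      refine setIntegral_mono_set (hint.mono_set hs) ?_ sdiff_subset.eventuallyLE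
      filter_upwards [ae_restrict_mem hm] with x hx
      exact hf0 x (subset_closure (hs hx))
    rw [h1]
    linarith

/-- **C3** the compactness inequality. -/
theorem p_C3 (c2 : StmC2) : StmC3 := by
  classical
  intro n Ω hΩ η hη
  have hcomp : IsCompact (closure Ω) := hΩ.bdd.isCompact_closure
  choose! W hWo hxW hW using hΩ.chart
  obtain ⟨t, htcov⟩ := hcomp.elim_nhds_subcover' (fun x _ => W x)
    (fun x hx => (hWo x hx).mem_nhds (hxW x hx))
  have hcl : ∀ i : t, ((i : closure Ω) : Sp n) ∈ closure Ω := fun i => (i : closure Ω).2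
  have hN : 0 < (Fintype.card t : ℝ) + 1 := by positivity
  have hch : ∀ i : t, ∃ C : ℝ, 0 ≤ C ∧
      ∀ (w : Sp n → ℝ) (Dw : Sp n → Sp n), C1 Ω w Dw → ∀ h : Sp n → ℝ,
      ContinuousOn h (closure Ω) → (∀ x ∈ closure Ω, 0 ≤ h x ∧ h x ≤ 1) →
        (∫ x in W i ∩ Ω, w x ^ 2 * h x)
          ≤ (η / ((Fintype.card t : ℝ) + 1)) * (∫ x in Ω, ‖Dw x‖ ^ 2)
          + C * (∫ x in Ω, w x ^ 2) * ∫ x in Ω, h x := by
    intro i
    obtain ⟨Ψ, Ψ', M, hM, hinj, him, hder⟩ := hW _ (hcl i)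
    exact c2 Ω hΩ.isOpen hΩ.bdd (W i) Ψ Ψ' M hM hinj him hder _ (by positivity)
  choose C hC0 hC using hch
  refine ⟨∑ i, C i, Finset.sum_nonneg fun i _ => hC0 i, ?_⟩
  intro w Dw hw h hh hh01
  have hcov : (⋃ i ∈ (Finset.univ : Finset t), (W i ∩ Ω)) = Ω := by
    apply Subset.antisymm
    · exact iUnion₂_subset fun i _ => inter_subset_right
    · intro x hx
      have := htcov (subset_closure hx)
      simp only [mem_iUnion] at this
      obtain ⟨i, hi, hxi⟩ := this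
      exact mem_iUnion₂.2 ⟨⟨i, hi⟩, Finset.mem_univ _, hxi, hx⟩
  have h1 := int_le_sum hΩ.bdd (fun x => w x ^ 2 * h x) ((hw.cont.pow 2).mul hh)
    (fun x hx => mul_nonneg (sq_nonneg _) (hh01 x hx).1) (fun i : t => W i ∩ Ω)
    (fun i => ((hWo _ (hcl i)).inter hΩ.isOpen).measurableSet) (fun i => inter_subset_right)
    Finset.univ
  rw [hcov] at h1
  have n4 : 0 ≤ ∫ x in Ω, ‖Dw x‖ ^ 2 := integral_nonneg fun x => sq_nonneg _
  calc ∫ x in Ω, w x ^ 2 * h x ≤ ∑ i : t, ∫ x in W i ∩ Ω, w x ^ 2 * h x := h1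
    _ ≤ ∑ i : t, ((η / ((Fintype.card t : ℝ) + 1)) * (∫ x in Ω, ‖Dw x‖ ^ 2)
          + C i * (∫ x in Ω, w x ^ 2) * ∫ x in Ω, h x) :=
        Finset.sum_le_sum fun i _ => hC i w Dw hw h hh hh01
    _ = (Fintype.card t : ℝ) * ((η / ((Fintype.card t : ℝ) + 1)) * (∫ x in Ω, ‖Dw x‖ ^ 2))
          + (∑ i, C i) * (∫ x in Ω, w x ^ 2) * ∫ x in Ω, h x := by
        rw [Finset.sum_add_distrib, Finset.sum_const, Finset.card_univ, nsmul_eq_mul,
          Finset.sum_mul, Finset.sum_mul]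
    _ ≤ η * (∫ x in Ω, ‖Dw x‖ ^ 2) + (∑ i, C i) * (∫ x in Ω, w x ^ 2) * ∫ x in Ω, h x := by
        have : (Fintype.card t : ℝ) * (η / ((Fintype.card t : ℝ) + 1)) ≤ η := by
          rw [mul_div_assoc', div_le_iff₀ hN]
          nlinarith
        have h3 := mul_le_mul_of_nonneg_right this n4
        linarith

end Pool.Agent.Lib.MP_d8ef8f_an.Sf
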