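import Pool.Agent.Lib.MP_d8ef8f_an.Sf.Stm
import Pool.Agent.Lib.MP_d8ef8f_an.Gd.A2

set_option autoImplicit false

namespace Pool.Agent.Lib.MP_d8ef8f_an.Sf

open Set Filter Topology MeasureTheory
open Pool.Agent.Lib.MP_d8ef8f_an.Gd Pool.Agent.Lib.MP_d8ef8f_an.Ff

/-- a nonnegative continuous function, positive at a point of the closure, has positive integral -/
private lemma int_pos {n : ℕ} {Ω : Set (Sp n)} (hΩo : IsOpen Ω) (hΩb : Bornology.IsBounded Ω)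
    (f : Sp n → ℝ) (hf : ContinuousOn f (closure Ω)) (hf0 : ∀ x ∈ closure Ω, 0 ≤ f x)
    (hpos : ∃ x ∈ closure Ω, 0 < f x) : 0 < ∫ x in Ω, f x := by
  obtain ⟨x, hx, hfx⟩ := hpos
  obtain ⟨U, hU, hUeq⟩ := (continuousOn_iff'.1 hf) (Ioi 0) isOpen_Ioi
  have hxU : x ∈ U := by
    have : x ∈ f ⁻¹' Ioi 0 ∩ closure Ω := ⟨hfx, hx⟩
    rw [hUeq] at this
    exact this.1
  have hne : (U ∩ Ω).Nonempty := mem_closure_iff.1 hx U hU hxU
  have hpU : ∀ y ∈ U ∩ Ω, 0 < f y := by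
    intro y hy
    have : y ∈ U ∩ closure Ω := ⟨hy.1, subset_closure hy.2⟩
    rw [← hUeq] at this
    exact this.1
  have hint : IntegrableOn f Ω := p_A2 Ω hΩb f hf
  have hae : 0 ≤ᵐ[volume.restrict Ω] f := by
    filter_upwards [ae_restrict_mem hΩo.measurableSet] with y hy
    exact hf0 y (subset_closure hy)
  rw [setIntegral_pos_iff_support_of_nonneg_ae hae hint]
  refine lt_of_lt_of_le ((hU.inter hΩo).measure_pos volume hne) (measure_mono ?_)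
  intro y hy
  exact ⟨(hpU y hy).ne', hy.2⟩

/-- the algebra -/
private lemma alg {V I m₀ P D t γ c S A Z G : ℝ} (hV : 0 < V) (hI : 0 < I) (hm₀ : 0 < m₀)
    (hP : 0 < P) (hD : 0 < D) (ht : 0 < t) (ht1 : t ≤ 1) (ht2 : t ≤ D / (2 * m₀ * P))
    (hγ : 0 < γ) (hγ1 : γ ≤ t * I / (4 * V)) (hγ2 : γ ≤ D / (4 * P))
    (hS : S ≤ 2 * c ^ 2 * V + 2 * Z) (hA0 : 0 ≤ A) (hA : c ^ 2 / 2 * I - m₀ * Z ≤ A)
    (hZ0 : 0 ≤ Z) (hZ : Z ≤ P * G) : γ * S ≤ A + D * G := by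
  have h1 : t * (m₀ * Z) ≤ D / (2 * P) * Z := by
    have : t * m₀ ≤ D / (2 * P) := by
      calc t * m₀ ≤ D / (2 * m₀ * P) * m₀ := mul_le_mul_of_nonneg_right ht2 hm₀.le
        _ = D / (2 * P) := by field_simp
    calc t * (m₀ * Z) = t * m₀ * Z := by ring
      _ ≤ D / (2 * P) * Z := mul_le_mul_of_nonneg_right this hZ0
  have h2 : D / P * Z ≤ D * G := by
    calc D / P * Z ≤ D / P * (P * G) := mul_le_mul_of_nonneg_left hZ (by positivity)
      _ = D * G := by field_simp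
  have h3 : t * A ≤ A := by nlinarith
  have h4 : t * (c ^ 2 / 2 * I - m₀ * Z) ≤ t * A := mul_le_mul_of_nonneg_left hA ht.le
  have h5 : γ * S ≤ γ * (2 * c ^ 2 * V + 2 * Z) := mul_le_mul_of_nonneg_left hS hγ.le
  have h6 : γ * (2 * c ^ 2 * V) ≤ t * (c ^ 2 / 2 * I) := by
    calc γ * (2 * c ^ 2 * V) ≤ t * I / (4 * V) * (2 * c ^ 2 * V) :=
          mul_le_mul_of_nonneg_right hγ1 (by positivity)
      _ = t * (c ^ 2 / 2 * I) := by field_simp; ring
  have h7 : γ * (2 * Z) ≤ D / (2 * P) * Z := by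
    calc γ * (2 * Z) ≤ D / (4 * P) * (2 * Z) := mul_le_mul_of_nonneg_right hγ2 (by positivity)
      _ = D / (2 * P) * Z := by field_simp; ring
  have h8 : D / P * Z = D / (2 * P) * Z + D / (2 * P) * Z := by field_simp; ring
  nlinarith

/-- **Eg** spectral gap when `m` is negative somewhere. -/
theorem p_Eg : StmEg := by
  intro n Ω P hDom m hm hneg D hD
  have hΩo := hDom.isOpen
  have hΩb := hDom.bdd
  have hP := hDom.hP
  have hfin : volume Ω ≠ ⊤ := hΩb.measure_lt_top.ne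
  have hV : 0 < vol Ω := by
    rw [vol, Measure.real, ENNReal.toReal_pos_iff]
    exact ⟨hΩo.measure_pos volume hDom.nonempty, hΩb.measure_lt_top⟩
  set q : Sp n → ℝ := fun x => max (- m x) 0 with hq
  have hqc : ContinuousOn q (closure Ω) := ContinuousOn.sup hm.neg continuousOn_const
  have hq0 : ∀ x, 0 ≤ q x := fun x => le_max_right _ _
  have hI : 0 < ∫ x in Ω, q x := by
    refine int_pos hΩo hΩb q hqc (fun x _ => hq0 x) ?_
    obtain ⟨x, hx, hmx⟩ := hneg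
    exact ⟨x, hx, lt_of_lt_of_le (by linarith) (le_max_left _ _)⟩
  obtain ⟨B, hB⟩ := hΩb.isCompact_closure.exists_bound_of_continuousOn hqc
  have hm₀ : 0 < |B| + 1 := by positivity
  have hqm : ∀ x ∈ closure Ω, q x ≤ |B| + 1 := fun x hx =>
    (le_abs_self _).trans ((hB x hx).trans ((le_abs_self B).trans (by linarith)))
  set m₀ := |B| + 1 with hm₀def
  set I := ∫ x in Ω, q x with hIdef
  obtain ⟨t, ht, ht1, ht2⟩ : ∃ t : ℝ, 0 < t ∧ t ≤ 1 ∧ t ≤ D / (2 * m₀ * P) :=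
    ⟨min 1 (D / (2 * m₀ * P)), lt_min one_pos (by positivity), min_le_left _ _, min_le_right _ _⟩
  obtain ⟨γ, hγ, hγ1, hγ2⟩ : ∃ γ : ℝ, 0 < γ ∧ γ ≤ t * I / (4 * vol Ω) ∧ γ ≤ D / (4 * P) :=
    ⟨min (t * I / (4 * vol Ω)) (D / (4 * P)), lt_min (by positivity) (by positivity),
      min_le_left _ _, min_le_right _ _⟩
  refine ⟨γ, hγ, fun w Dw hw => ?_⟩
  obtain ⟨c, hc⟩ := hDom.poinc w Dw hw
  have hwc := hw.cont
  have hzc : ContinuousOn (fun x => (w x - c) ^ 2) (closure Ω) :=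
    (hwc.sub continuousOn_const).pow 2
  have iz : IntegrableOn (fun x => (w x - c) ^ 2) Ω := p_A2 Ω hΩb _ hzc
  have iw : IntegrableOn (fun x => w x ^ 2) Ω := p_A2 Ω hΩb _ (hwc.pow 2)
  have iq : IntegrableOn q Ω := p_A2 Ω hΩb _ hqc
  have iwq : IntegrableOn (fun x => w x ^ 2 * q x) Ω := p_A2 Ω hΩb _ ((hwc.pow 2).mul hqc)
  have hconst : ∫ _ in Ω, (2 * c ^ 2) = 2 * c ^ 2 * vol Ω := by
    rw [setIntegral_const, smul_eq_mul, mul_comm]; rfl
  have hS : ∫ x in Ω, w x ^ 2 ≤ 2 * c ^ 2 * vol Ω + 2 * ∫ x in Ω, (w x - c) ^ 2 := by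
    have ic : IntegrableOn (fun _ : Sp n => 2 * c ^ 2) Ω := integrableOn_const hfin
    rw [← hconst, ← integral_const_mul, ← integral_add ic (iz.const_mul 2)]
    refine integral_mono iw (ic.add (iz.const_mul 2)) fun x => ?_
    show w x ^ 2 ≤ 2 * c ^ 2 + 2 * (w x - c) ^ 2
    nlinarith [sq_nonneg (w x - 2 * c)]
  have hA : c ^ 2 / 2 * I - m₀ * (∫ x in Ω, (w x - c) ^ 2) ≤ ∫ x in Ω, w x ^ 2 * q x := by
    rw [hIdef, ← integral_const_mul, ← integral_const_mul,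
      ← integral_sub (iq.const_mul _) (iz.const_mul _)]
    refine setIntegral_mono_on ((iq.const_mul _).sub (iz.const_mul _)) iwq hΩo.measurableSet
      fun x hx => ?_
    have h1 := hq0 x
    have h2 := hqm x (subset_closure hx)
    have h3 : c ^ 2 / 2 ≤ w x ^ 2 + (w x - c) ^ 2 := by nlinarith [sq_nonneg (2 * w x - c)]
    have h4 : c ^ 2 / 2 * q x ≤ (w x ^ 2 + (w x - c) ^ 2) * q x :=
      mul_le_mul_of_nonneg_right h3 h1
    have h5 : (w x - c) ^ 2 * q x ≤ (w x - c) ^ 2 * m₀ :=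
      mul_le_mul_of_nonneg_left h2 (sq_nonneg _)
    linarith
  have hA0 : 0 ≤ ∫ x in Ω, w x ^ 2 * q x :=
    integral_nonneg fun x => mul_nonneg (sq_nonneg _) (hq0 x)
  have hZ0 : 0 ≤ ∫ x in Ω, (w x - c) ^ 2 := integral_nonneg fun x => sq_nonneg _
  exact alg hV hI hm₀ hP hD ht ht1 ht2 hγ hγ1 hγ2 hS hA0 hA hZ0 hc

end Pool.Agent.Lib.MP_d8ef8f_an.Sf
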