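import Pool.Agent.Lib.MP_d8ef8f_an.Sf.Stm
import Pool.Agent.Lib.MP_d8ef8f_an.Ff.F10
import Pool.Agent.Lib.MP_d8ef8f_an.Ff.F4
import Pool.Agent.Lib.MP_d8ef8f_an.Gd.A2

/-!
# Piece I10: a slow species eliminates faster ones when `m` changes sign (assembly)
-/

set_option autoImplicit false

namespace Pool.Agent.Lib.MP_d8ef8f_an.Sf

open Set Filter Topology MeasureTheory
open Pool.Agent.Lib.MP_d8ef8f_an.Gd Pool.Agent.Lib.MP_d8ef8f_an.Ff

/-- `mass² ≤ vol ∫ w²` -/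
theorem mass_sq_le {n : ℕ} {Ω : Set (Sp n)} {P : ℝ} (hD : Dom Ω P) {w : Sp n → ℝ}
    (hw : ContinuousOn w (closure Ω)) : mass Ω w ^ 2 / vol Ω ≤ ∫ x in Ω, w x ^ 2 := by
  have hb := hD.bdd
  have hV := f10_vol_pos hD
  have i1 : IntegrableOn w Ω := p_A2 Ω hb _ hw
  have i2 : IntegrableOn (fun x => w x ^ 2) Ω := p_A2 Ω hb _ (hw.pow 2)
  have hc : ∀ r : ℝ, IntegrableOn (fun _ : Sp n => r) Ω := fun r =>
    integrableOn_const hb.measure_lt_top.ne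
  obtain ⟨c, hcdef⟩ : ∃ c, c = mass Ω w / vol Ω := ⟨_, rfl⟩
  have h1 : 0 ≤ ∫ x in Ω, (w x ^ 2 - 2 * c * w x + c ^ 2) := by
    refine setIntegral_nonneg hD.isOpen.measurableSet fun x _ => ?_
    have : w x ^ 2 - 2 * c * w x + c ^ 2 = (w x - c) ^ 2 := by ring
    rw [this]
    positivity
  have i3 : IntegrableOn (fun x => w x ^ 2 - 2 * c * w x) Ω := i2.sub (i1.const_mul _)
  rw [integral_add i3 (hc _), integral_sub i2 (i1.const_mul _),
    integral_const_mul, setIntegral_const, smul_eq_mul] at h1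
  have h2 : (∫ x in Ω, w x) = c * vol Ω := by
    rw [hcdef]
    unfold mass
    field_simp
  have h3 : volume.real Ω = vol Ω := rfl
  have h4 : mass Ω w ^ 2 / vol Ω = c ^ 2 * vol Ω := by
    rw [hcdef]
    field_simp
  rw [h4]
  rw [h2, h3] at h1
  linarith

/-- bounds of a weighted logarithmic integral, weight between `0` and `Q` -/
theorem wlog_bounds {n : ℕ} {Ω : Set (Sp n)} (hO : IsOpen Ω) (hb : Bornology.IsBounded Ω)
    {w q : Sp n → ℝ} {K ε Q : ℝ} (hw : ContinuousOn w (closure Ω))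
    (h0 : ∀ x ∈ closure Ω, 0 ≤ w x) (h1 : ∀ x ∈ closure Ω, w x ≤ K) (hK : 0 ≤ K) (hε : 0 < ε)
    (hε1 : ε ≤ 1) (hq : ContinuousOn q (closure Ω)) (hq0 : ∀ x ∈ closure Ω, 0 ≤ q x ∧ q x ≤ Q)
    (hQ : 0 ≤ Q) :
    (∫ x in Ω, q x * Real.log (w x + ε)) ≤ Q * (vol Ω * Real.log (K + 1)) ∧
    Q * (Lg Ω ε w - vol Ω * Real.log (K + 1)) ≤ ∫ x in Ω, q x * Real.log (w x + ε) := by
  have hcl := f10_cont hw h0 hε
  have i1 : IntegrableOn (fun x => q x * Real.log (w x + ε)) Ω := p_A2 Ω hb _ (hq.mul hcl)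
  have i2 : IntegrableOn (fun x => Real.log (w x + ε)) Ω := p_A2 Ω hb _ hcl
  have hc : ∀ r : ℝ, IntegrableOn (fun _ : Sp n => r) Ω := fun r =>
    integrableOn_const hb.measure_lt_top.ne
  have hlog : 0 ≤ Real.log (K + 1) := Real.log_nonneg (by linarith)
  have hle : ∀ x ∈ closure Ω, Real.log (w x + ε) ≤ Real.log (K + 1) := fun x hx => by
    have h3 := h0 x hx
    have h4 := h1 x hx
    exact Real.log_le_log (by linarith) (by linarith)
  constructor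
  · have h := setIntegral_mono_on i1 (hc (Q * Real.log (K + 1))) hO.measurableSet fun x hx => by
      have h2 := hq0 x (subset_closure hx)
      have h3 := hle x (subset_closure hx)
      calc q x * Real.log (w x + ε) ≤ q x * Real.log (K + 1) :=
            mul_le_mul_of_nonneg_left h3 h2.1
        _ ≤ Q * Real.log (K + 1) := mul_le_mul_of_nonneg_right h2.2 hlog
    rw [setIntegral_const, smul_eq_mul] at h
    refine h.trans (le_of_eq ?_)
    unfold vol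
    ring
  · have i3 : IntegrableOn (fun x => Real.log (w x + ε) - Real.log (K + 1)) Ω := i2.sub (hc _)
    have h := setIntegral_mono_on (i3.const_mul Q) i1
      hO.measurableSet fun x hx => by
        have h2 := hq0 x (subset_closure hx)
        have h3 := hle x (subset_closure hx)
        show Q * (Real.log (w x + ε) - Real.log (K + 1)) ≤ q x * Real.log (w x + ε)
        have h4 : 0 ≤ (Q - q x) * (Real.log (K + 1) - Real.log (w x + ε)) :=
          mul_nonneg (by linarith [h2.2]) (by linarith)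
        have h5 : 0 ≤ q x * Real.log (K + 1) := mul_nonneg h2.1 hlog
        linarith
    rw [integral_const_mul, integral_sub i2 (hc _), setIntegral_const, smul_eq_mul] at h
    exact h

private theorem i10_eps (C δ : ℝ) (hδ : 0 < δ) : ∃ ε₀ : ℝ, 0 < ε₀ ∧ ε₀ < 1 ∧
    0 < Real.log (1 / ε₀) ∧ C / Real.log (1 / ε₀) ≤ δ := f10_eps C δ hδ

/-- the core estimate on an interval where the sup bound holds -/
private theorem i10_core (h3 : Ff.StmF3) (h4 : StmF4) (h5 : StmF5) (h7 : StmI7) (h9 : StmF9)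
    {n N : ℕ} (Ω : Set (Sp n)) (P : ℝ) (hD : Dom Ω P) (d : Fin N → ℝ) (m : Sp n → ℝ)
    (hm : ContinuousOn m (closure Ω)) (hd : ∀ j, 0 < d j) (Ks : ℝ) (hKs : 0 < Ks)
    (k l : Fin N) (D R γ C K b Q e B : ℝ)
    (hD0 : 0 < D) (hDl : D ≤ d l) (hR : 0 < R) (hC : 0 ≤ C) (hK : 0 < K) (hb0 : 0 ≤ b)
    (hQ : 0 < Q) (he : 0 ≤ e)
    (hgap : ∀ (w : Sp n → ℝ) (Dw : Sp n → Sp n), C1 Ω w Dw → γ * (∫ x in Ω, w x ^ 2) ≤
        (∫ x in Ω, w x ^ 2 * max (- m x) 0) + D / 2 * ∫ x in Ω, ‖Dw x‖ ^ 2)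
    (hCE : CE Ω (D / (2 * R)) C)
    (β ψ : Sp n → ℝ) (Dβ Dψ : Sp n → Sp n) (hβ : C1 Ω β Dβ) (hψ : C1 Ω ψ Dψ)
    (hβm : ∀ x ∈ closure Ω, β x ≠ 0 → 0 < m x) (hβb : ∀ x ∈ closure Ω, β x ^ 2 ≤ b)
    (hq : ∀ x ∈ closure Ω, β x ^ 2 + K * ψ x ^ 2 ≤ Q)
    (hψm : ∀ x ∈ closure Ω, |ψ x ^ 2 - max (m x) 0| ≤ e)
    (hB : (∫ x in Ω, ‖Dβ x‖ ^ 2) + K * (∫ x in Ω, ‖Dψ x‖ ^ 2) ≤ B)
    (G : ℝ) (hG0 : 0 < G)
    (hG : G ≤ vol Ω * γ - d k * B - K * e * R * vol Ω - (b + vol Ω * C) ^ 2 * vol Ω / (4 * K))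
    (hRK : ∀ v : Fin N → Sp n → ℝ, (∀ j, ∀ x ∈ closure Ω, 0 ≤ v j x ∧ v j x ≤ Ks) →
        ∀ x ∈ closure Ω, |m x - ∑ j, v j x| ≤ R) (A q : ℝ) (hA : 0 < A) (hq0 : 0 < q) :
    ∃ S : ℝ, ∀ (T : Set ℝ), IsOpen T → ∀ (a b : ℝ), a ≤ b → Icc a b ⊆ T →
    ∀ (u ut : Fin N → ℝ → Sp n → ℝ) (Du : Fin N → ℝ → Sp n → Sp n) (lu : Fin N → ℝ → Sp n → ℝ),
      IsSol Ω d m T u ut Du lu → (∀ j, ∀ t ∈ Icc a b, ∀ x ∈ closure Ω, u j t x ≤ Ks) →
      A ≤ mass Ω (u k a) → q ≤ mass Ω (u l b) → b - a ≤ S := by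
  have hO := hD.isOpen
  have hb := hD.bdd
  have hV := f10_vol_pos hD
  obtain ⟨V, hVdef⟩ : ∃ V, V = vol Ω := ⟨_, rfl⟩
  rw [← hVdef] at hV
  have hN : 0 < (N : ℝ) := by
    have : 0 < N := lt_of_le_of_lt (Nat.zero_le _) k.isLt
    exact_mod_cast this
  obtain ⟨KA, hKA⟩ := h9 Ω P hD d m hm k (hd k) Ks A hA
  obtain ⟨L1, hL1⟩ : ∃ L1, L1 = vol Ω * Real.log (Ks + 1) := ⟨_, rfl⟩
  have hlogK : 0 ≤ Real.log (Ks + 1) := Real.log_nonneg (by linarith)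
  have hL10 : 0 ≤ L1 := by
    rw [hL1, ← hVdef]
    positivity
  obtain ⟨C1, hC1⟩ : ∃ C1, C1 = Q * L1 - V / 2 * Real.log (q ^ 2 / V) := ⟨_, rfl⟩
  obtain ⟨C2, hC2⟩ : ∃ C2, C2 = Q * (|KA| + L1) + V / 2 * Real.log (Ks ^ 2 * V)
    + K * (N * (Ks * V)) := ⟨_, rfl⟩
  refine ⟨1 + 2 / G * (|C1| + |C2|), ?_⟩
  intro T hT a b hab hIcc u ut Du lu hs hM hmk hml
  have hn := hs.nonneg
  have hpt : ∀ t ∈ Icc a b, ∀ x ∈ closure Ω, |m x - ∑ j, u j t x| ≤ R := fun t ht =>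
    hRK (fun j => u j t) fun j x hx => ⟨hn j t (hIcc ht) x hx, hM j t ht x hx⟩
  have hmass := fun j => h4 Ω hO hb d m hm T hT u ut Du lu hs j
  have hbd : ∀ j, ∀ s t, a ≤ s → s ≤ t → t ≤ b →
      mass Ω (u j s) * Real.exp (- (R * (t - s))) ≤ mass Ω (u j t) ∧
      mass Ω (u j t) ≤ mass Ω (u j s) * Real.exp (R * (t - s)) := fun j s t hs1 hst htb =>
    (hmass j).2 R s t hst ((Icc_subset_Icc hs1 htb).trans hIcc)
      fun t' ht' => hpt t' ⟨hs1.trans ht'.1, ht'.2.trans htb⟩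
  have hmass0 : ∀ j, ∀ t ∈ Icc a b, 0 ≤ mass Ω (u j t) := fun j t ht =>
    setIntegral_nonneg hO.measurableSet fun x hx => hn j t (hIcc ht) x (subset_closure hx)
  -- the mass of the fast species
  have hml0 : 0 < mass Ω (u l b) := lt_of_lt_of_le hq0 hml
  have hmlpos : ∀ t ∈ Icc a b, 0 < mass Ω (u l t) := fun t ht => by
    by_contra hneg
    have h0 : mass Ω (u l t) = 0 := le_antisymm (not_lt.1 hneg) (hmass0 l t ht)
    have h1 := (hbd l t b ht.1 ht.2 le_rfl).2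
    rw [h0, zero_mul] at h1
    linarith
  have hbI : b ∈ Icc a b := ⟨hab, le_rfl⟩
  have hbig : 0 ≤ 2 / G * (|C1| + |C2|) := by positivity
  rcases lt_or_ge b (a + 1) with hcase | hcase
  · linarith
  have h1b : a + 1 ≤ b := hcase
  have hu0 : ∀ j, ∀ t ∈ Icc a b, ∀ x ∈ closure Ω, 0 ≤ u j t x := fun j t ht =>
    hn j t (hIcc ht)
  have hcu : ∀ j, ∀ t ∈ Icc a b, ContinuousOn (u j t) (closure Ω) := fun j t ht =>
    f10_slice hs j (hIcc ht)
  have hsl : ∀ t ∈ Icc a b, 0 < (∫ x in Ω, u l t x ^ 2) := fun t ht => by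
    have h1 := mass_sq_le hD (hcu l t ht)
    have h2 := hmlpos t ht
    rw [← hVdef] at h1
    exact lt_of_lt_of_le (by positivity) h1
  -- the choice of the regularisation
  obtain ⟨Kb, hKb⟩ : ∃ Kb, Kb = |KA| + R * V * (b - a) := ⟨_, rfl⟩
  have hKb0 : 0 ≤ Kb := by
    have : 0 ≤ b - a := by linarith
    rw [hKb]
    positivity
  obtain ⟨δ, hδ⟩ : ∃ δ, δ = G / (2 * R * Q) := ⟨_, rfl⟩
  have hδ0 : 0 < δ := by rw [hδ]; positivity
  obtain ⟨c0, hc0⟩ : ∃ c0, c0 = V * (1 + Real.log (Ks + 1)) := ⟨_, rfl⟩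
  obtain ⟨ε, hε0, hε1, hlε, hεδ⟩ := i10_eps (c0 + Kb) δ hδ0
  have hEr : ∀ t ∈ Icc a b, Er Ω ε (u k t) ≤ (c0 - Lg Ω ε (u k t)) / Real.log (1 / ε) :=
    fun t ht => by
      rw [hc0, hVdef]
      exact h5 Ω hO hb (u k t) (hcu k t ht) Ks (fun x hx => ⟨hu0 k t ht x hx, hM k t ht x hx⟩)
        ε hε0 hε1
  -- the lower bound of the logarithmic integral
  have hXa : - KA ≤ Lg Ω ε (u k (a + 1)) :=
    hKA T hT a ((Icc_subset_Icc_right h1b).trans hIcc) u ut Du lu hs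
      (fun j t ht => hM j t ⟨ht.1, ht.2.trans h1b⟩) hmk ε hε0 hε1.le
  have hX : ∀ t ∈ Icc (a + 1) b, - KA - R * V * (t - (a + 1)) ≤ Lg Ω ε (u k t) := by
    intro t ht
    have h := f10_grow (f := fun s => Lg Ω ε (u k s)) (c := - (R * V)) ht.1 fun s hs' => by
      have hsI : s ∈ Icc a b := ⟨by linarith [hs'.1], hs'.2.trans ht.2⟩
      rw [hVdef]
      exact f10_dLg h3 hD hm hd hT hs hε0 k (hIcc hsI) (hpt s hsI)
    linarith
  have hXb : ∀ t ∈ Icc (a + 1) b, - Kb ≤ Lg Ω ε (u k t) := by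
    intro t ht
    have h := hX t ht
    have h' : R * V * (t - (a + 1)) ≤ R * V * (b - a) :=
      mul_le_mul_of_nonneg_left (by linarith [ht.2]) (by positivity)
    have := le_abs_self KA
    rw [hKb]
    linarith
  -- errors
  have herr : ∀ t ∈ Icc (a + 1) b, R * Q * Er Ω ε (u k t) ≤ G / 2 := by
    intro t ht1I
    have htI : t ∈ Icc a b := ⟨by linarith [ht1I.1], ht1I.2⟩
    have hXt := hXb t ht1I
    have hk : Er Ω ε (u k t) ≤ δ := by
      refine (hEr t htI).trans (le_trans ?_ hεδ)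
      exact div_le_div_of_nonneg_right (by linarith) hlε.le
    have h1 : R * Q * δ = G / 2 := by
      rw [hδ]
      field_simp
    rw [← h1]
    exact mul_le_mul_of_nonneg_left hk (by positivity)
  have hgrow : G / 2 * (b - (a + 1)) ≤ PsI Ω k l K ε β ψ (fun j => u j b) -
      PsI Ω k l K ε β ψ (fun j => u j (a + 1)) := by
    refine f10_grow (f := fun s => PsI Ω k l K ε β ψ (fun j => u j s)) hcase ?_
    intro t ht
    have htI : t ∈ Icc a b := ⟨by linarith [ht.1], ht.2⟩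
    obtain ⟨ψ', h1, h2⟩ := h7 Ω P hD d m hm hd k l D R γ C K _ Q e B hD0 hDl hR hC hK hb0 hQ.le he
      hgap hCE β ψ Dβ Dψ hβ hψ hβm hβb hq hψm hB T hT u ut Du lu hs t (hIcc htI) (hpt t htI)
      (hsl t htI) ε hε0
    exact ⟨ψ', h1, by linarith [herr t ht]⟩
  -- the bounds of the functional
  have ha1I : a + 1 ∈ Icc a b := ⟨by linarith, hcase⟩
  have cq : ContinuousOn (fun x => β x ^ 2 + K * ψ x ^ 2) (closure Ω) :=
    (hβ.cont.pow 2).add (continuousOn_const.mul (hψ.cont.pow 2))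
  have hq0' : ∀ x ∈ closure Ω, 0 ≤ β x ^ 2 + K * ψ x ^ 2 ∧ β x ^ 2 + K * ψ x ^ 2 ≤ Q :=
    fun x hx => ⟨by positivity, hq x hx⟩
  have hub := (wlog_bounds hO hb (hcu k b hbI) (hu0 k b hbI) (hM k b hbI) hKs.le hε0 hε1.le cq
    hq0' hQ.le).1
  have hlb := (wlog_bounds hO hb (hcu k (a + 1) ha1I) (hu0 k (a + 1) ha1I) (hM k (a + 1) ha1I)
    hKs.le hε0 hε1.le cq hq0' hQ.le).2
  rw [← hL1] at hub hlb
  have hub2 : V / 2 * Real.log (q ^ 2 / V) ≤ V / 2 * Real.log (∫ x in Ω, u l b x ^ 2) := by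
    refine mul_le_mul_of_nonneg_left (Real.log_le_log (by positivity) ?_) (by positivity)
    have h1 := mass_sq_le hD (hcu l b hbI)
    rw [← hVdef] at h1
    refine le_trans ?_ h1
    exact div_le_div_of_nonneg_right (pow_le_pow_left₀ hq0.le hml 2) hV.le
  have hlb2 : V / 2 * Real.log (∫ x in Ω, u l (a + 1) x ^ 2) ≤ V / 2 * Real.log (Ks ^ 2 * V) := by
    refine mul_le_mul_of_nonneg_left (Real.log_le_log (hsl _ ha1I) ?_) (by positivity)
    have h := setIntegral_mono_on (p_A2 Ω hb _ ((hcu l (a + 1) ha1I).pow 2))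
      (integrableOn_const hb.measure_lt_top.ne : IntegrableOn (fun _ : Sp n => Ks ^ 2) Ω)
      hO.measurableSet fun x hx =>
        pow_le_pow_left₀ (hu0 l (a + 1) ha1I x (subset_closure hx))
          (hM l (a + 1) ha1I x (subset_closure hx)) 2
    rw [setIntegral_const, smul_eq_mul, mul_comm] at h
    rw [hVdef]
    exact h
  have hub3 : 0 ≤ K * ∑ j, mass Ω (u j b) :=
    mul_nonneg hK.le (Finset.sum_nonneg fun j _ => hmass0 j b hbI)
  have hlb3 : K * ∑ j, mass Ω (u j (a + 1)) ≤ K * (N * (Ks * V)) := by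
    refine mul_le_mul_of_nonneg_left ?_ hK.le
    have h1 : ∀ j, mass Ω (u j (a + 1)) ≤ Ks * V := fun j => by
      have h := setIntegral_mono_on (p_A2 Ω hb _ (hcu j (a + 1) ha1I))
        (integrableOn_const hb.measure_lt_top.ne : IntegrableOn (fun _ : Sp n => Ks) Ω)
        hO.measurableSet fun x hx => hM j (a + 1) ha1I x (subset_closure hx)
      rw [setIntegral_const, smul_eq_mul, mul_comm] at h
      rw [hVdef]
      exact h
    refine (Finset.sum_le_card_nsmul _ _ (Ks * V) fun j _ => h1 j).trans ?_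
    simp
  have hX1 : Q * (- |KA| - L1) ≤ Q * (Lg Ω ε (u k (a + 1)) - L1) := by
    refine mul_le_mul_of_nonneg_left ?_ hQ.le
    have := le_abs_self KA
    linarith
  have h10 : G / 2 * (b - (a + 1)) ≤ |C1| + |C2| := by
    have e1 := le_abs_self C1
    have e2 := le_abs_self C2
    unfold PsI at hgrow
    rw [← hVdef] at hgrow
    have e3 : C1 + C2 ≤ |C1| + |C2| := by linarith
    refine le_trans ?_ e3
    rw [hC1, hC2]
    have e4 : Q * (|KA| + L1) = - (Q * (- |KA| - L1)) := by ring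
    rw [e4]
    linarith
  have h11 : b - (a + 1) ≤ 2 / G * (|C1| + |C2|) := by
    have e1 : 2 / G * (G / 2 * (b - (a + 1))) = b - (a + 1) := by field_simp
    rw [← e1]
    exact mul_le_mul_of_nonneg_left h10 (by positivity)
  linarith

/-- approximation of the positive part by squares -/
private theorem i10_sq (hap : StmAp) {n : ℕ} {Ω : Set (Sp n)} (hO : IsOpen Ω)
    (hb : Bornology.IsBounded Ω) {m : Sp n → ℝ} (hm : ContinuousOn m (closure Ω)) {m₀ : ℝ}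
    (hm₀ : 0 < m₀) (hmm : ∀ x ∈ closure Ω, |m x| ≤ m₀) {e : ℝ} (he : 0 < e) :
    ∃ (ψ : Sp n → ℝ) (Dψ : Sp n → Sp n), C1 Ω ψ Dψ ∧
      ∀ x ∈ closure Ω, |ψ x ^ 2 - max (m x) 0| ≤ e := by
  have hs0 : 0 < Real.sqrt m₀ := Real.sqrt_pos.2 hm₀
  obtain ⟨e', he', he1, he2⟩ : ∃ e' : ℝ, 0 < e' ∧ e' ≤ 1 ∧ e' * (2 * Real.sqrt m₀ + 1) ≤ e := by
    refine ⟨min 1 (e / (2 * Real.sqrt m₀ + 1)), lt_min one_pos (by positivity), min_le_left _ _,
      ?_⟩
    have h1 : min 1 (e / (2 * Real.sqrt m₀ + 1)) ≤ e / (2 * Real.sqrt m₀ + 1) := min_le_right _ _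
    rwa [le_div_iff₀ (by positivity)] at h1
  have hc : ContinuousOn (fun x => Real.sqrt (max (m x) 0)) (closure Ω) :=
    (ContinuousOn.sup hm continuousOn_const).sqrt
  obtain ⟨ψ, Dψ, hψ, hψe⟩ := hap Ω hO hb _ hc e' he'
  refine ⟨ψ, Dψ, hψ, fun x hx => ?_⟩
  obtain ⟨r, hr⟩ : ∃ r, r = Real.sqrt (max (m x) 0) := ⟨_, rfl⟩
  have hr0 : 0 ≤ r := by rw [hr]; exact Real.sqrt_nonneg _
  have hr2 : r ^ 2 = max (m x) 0 := by rw [hr]; exact Real.sq_sqrt (le_max_right _ _)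
  have hrm : r ≤ Real.sqrt m₀ := by
    rw [hr]
    exact Real.sqrt_le_sqrt (max_le ((abs_le.1 (hmm x hx)).2) hm₀.le)
  have h1 := hψe x hx
  rw [← hr] at h1
  rw [← hr2]
  have h2 : ψ x ^ 2 - r ^ 2 = (ψ x - r) * ((ψ x - r) + 2 * r) := by ring
  rw [h2, abs_mul]
  have h3 : |(ψ x - r) + 2 * r| ≤ 1 + 2 * Real.sqrt m₀ := by
    refine (abs_add_le _ _).trans ?_
    rw [abs_of_nonneg (by positivity : 0 ≤ 2 * r)]
    linarith
  calc |ψ x - r| * |(ψ x - r) + 2 * r| ≤ e' * (1 + 2 * Real.sqrt m₀) :=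
        mul_le_mul h1 h3 (abs_nonneg _) he'.le
    _ ≤ e := by linarith

/-- **I10** -/
theorem p_I10 (hP : StmP) (h0 : Uf.StmU0) (h3 : Ff.StmF3) (h4 : StmF4) (h5 : StmF5) (h9 : StmF9)
    (hc3 : StmC3) (hap : StmAp) (hbe : StmBe) (heg : StmEg) (h7 : StmI7) : StmI10 := by
  intro n N Ω hΩ m hm hpos hneg D hD
  obtain ⟨P, hP0, hPP⟩ := hP Ω hΩ
  have hDom : Dom Ω P := ⟨hΩ.isOpen, hΩ.nonempty, hΩ.bdd, hPP, hP0⟩
  have hO := hΩ.isOpen
  have hb := hΩ.bdd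
  have hV := f10_vol_pos hDom
  have hcc : IsCompact (closure Ω) := hb.isCompact_closure
  obtain ⟨m1, hm1⟩ := hcc.exists_bound_of_continuousOn hm
  obtain ⟨m₀, hm₀def⟩ : ∃ m₀, m₀ = |m1| + 1 := ⟨_, rfl⟩
  have hm₀ : 0 < m₀ := by rw [hm₀def]; positivity
  have hmm : ∀ x ∈ closure Ω, |m x| ≤ m₀ := fun x hx => by
    have h1 := hm1 x hx
    rw [Real.norm_eq_abs] at h1
    have h2 := le_abs_self m1
    rw [hm₀def]
    linarith
  obtain ⟨R, hR⟩ : ∃ R : ℝ, R = m₀ + N * (2 * m₀) := ⟨_, rfl⟩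
  have hR0 : 0 < R := by
    rw [hR]
    positivity
  obtain ⟨γ, hγ, hgap⟩ := heg Ω P hDom m hm hneg (D / 2) (by positivity)
  obtain ⟨C, hC, hCE⟩ := hc3 Ω hΩ (D / (2 * R)) (by positivity)
  obtain ⟨β, Dβ, hβ, hβm, hβ2⟩ := hbe Ω hO hb m hm hpos
  obtain ⟨b1, hb1⟩ := hcc.exists_bound_of_continuousOn hβ.cont
  obtain ⟨b, hbdef⟩ : ∃ b, b = b1 ^ 2 := ⟨_, rfl⟩
  have hb0 : 0 ≤ b := by rw [hbdef]; positivity
  have hβb : ∀ x ∈ closure Ω, β x ^ 2 ≤ b := fun x hx => by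
    have h1 := hb1 x hx
    rw [Real.norm_eq_abs] at h1
    rw [hbdef, ← sq_abs (β x)]
    exact pow_le_pow_left₀ (abs_nonneg _) h1 2
  obtain ⟨K, hK⟩ : ∃ K, K = (b + vol Ω * C) ^ 2 / γ + 1 := ⟨_, rfl⟩
  have hK0 : 0 < K := by rw [hK]; positivity
  obtain ⟨e, he⟩ : ∃ e, e = γ / (8 * (K * R)) := ⟨_, rfl⟩
  have he0 : 0 < e := by rw [he]; positivity
  obtain ⟨ψ, Dψ, hψ, hψm⟩ := i10_sq hap hO hb hm hm₀ hmm he0
  have cq : ContinuousOn (fun x => β x ^ 2 + K * ψ x ^ 2) (closure Ω) :=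
    (hβ.cont.pow 2).add (continuousOn_const.mul (hψ.cont.pow 2))
  obtain ⟨Q1, hQ1⟩ := hcc.exists_bound_of_continuousOn cq
  obtain ⟨Q, hQ⟩ : ∃ Q, Q = |Q1| + 1 := ⟨_, rfl⟩
  have hQ0 : 0 < Q := by rw [hQ]; positivity
  have hq : ∀ x ∈ closure Ω, β x ^ 2 + K * ψ x ^ 2 ≤ Q := fun x hx => by
    have h1 := hQ1 x hx
    rw [Real.norm_eq_abs] at h1
    have h2 := le_abs_self (β x ^ 2 + K * ψ x ^ 2)
    have h3 := le_abs_self Q1
    rw [hQ]
    linarith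
  obtain ⟨B, hB⟩ : ∃ B, B = (∫ x in Ω, ‖Dβ x‖ ^ 2) + K * (∫ x in Ω, ‖Dψ x‖ ^ 2) := ⟨_, rfl⟩
  have hB0 : 0 ≤ B := by
    have e1 : 0 ≤ ∫ x in Ω, ‖Dβ x‖ ^ 2 :=
      setIntegral_nonneg hO.measurableSet fun x _ => by positivity
    have e2 : 0 ≤ ∫ x in Ω, ‖Dψ x‖ ^ 2 :=
      setIntegral_nonneg hO.measurableSet fun x _ => by positivity
    rw [hB]
    positivity
  refine ⟨min (D / 2) (vol Ω * γ / (8 * (B + 1))), lt_min (by positivity) (by positivity), ?_⟩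
  intro d hd k l L hdk hDl M A q hA hq0
  have hdk1 : d k ≤ D / 2 := hdk.trans (min_le_left _ _)
  have hdk2 : d k * B ≤ vol Ω * γ / 8 := by
    have h1 : d k ≤ vol Ω * γ / (8 * (B + 1)) := hdk.trans (min_le_right _ _)
    rw [le_div_iff₀ (by positivity)] at h1
    have h2 := (hd k).le
    nlinarith
  obtain ⟨G, hG⟩ : ∃ G, G = vol Ω * γ / 2 := ⟨_, rfl⟩
  have hG0 : 0 < G := by rw [hG]; positivity
  have hGG : G ≤ vol Ω * γ - d k * B - K * e * R * vol Ω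
      - (b + vol Ω * C) ^ 2 * vol Ω / (4 * K) := by
    have h1 : K * e * R * vol Ω = vol Ω * γ / 8 := by
      rw [he]
      field_simp
    have h2 : (b + vol Ω * C) ^ 2 * vol Ω / (4 * K) ≤ vol Ω * γ / 4 := by
      rw [div_le_iff₀ (by positivity)]
      have h3 : (b + vol Ω * C) ^ 2 ≤ γ * K := by
        rw [hK, mul_add, mul_one, mul_div_cancel₀ _ hγ.ne']
        linarith
      have h4 := mul_le_mul_of_nonneg_right h3 hV.le
      linarith
    rw [h1, hG]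
    linarith
  obtain ⟨τ, hτ0, hτ⟩ := h0 Ω hO hb m hm m₀ hm₀ (fun x hx => (abs_le.1 (hmm x hx)).2) d hd M
  obtain ⟨RM, hRM⟩ : ∃ RM, RM = m₀ + N * |M| := ⟨_, rfl⟩
  have hA' : 0 < A * Real.exp (- (RM * τ)) := by positivity
  obtain ⟨S, hS⟩ := i10_core h3 h4 h5 h7 h9 Ω P hDom d m hm hd (2 * m₀) (by positivity) k l D R γ C
    K b Q e B hD hDl hR0 hC hK0 hb0 hQ0 he0.le hgap hCE β ψ Dβ Dψ hβ hψ hβm hβb hq hψm
    (le_of_eq hB.symm) G hG0 hGG
    (fun v hv x hx => by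
      have h1 := hmm x hx
      have h2 : |∑ k, v k x| ≤ N * (2 * m₀) := by
        refine (Finset.abs_sum_le_sum_abs _ _).trans ?_
        refine (Finset.sum_le_card_nsmul _ _ (2 * m₀) fun i _ => ?_).trans (le_of_eq ?_)
        · rw [abs_of_nonneg (hv i x hx).1]
          exact (hv i x hx).2
        · simp
      rw [hR]
      exact (abs_sub _ _).trans (by linarith))
    (A * Real.exp (- (RM * τ))) q hA' hq0
  refine ⟨τ + |S|, 1, one_pos, ?_⟩
  intro T hT a b hab hIcc u ut Du lu hs hM hmk _ hml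
  have hSa := le_abs_self S
  have hSa0 := abs_nonneg S
  rcases lt_or_ge b (a + τ) with hcc | hcc
  · linarith
  have hsub : Icc (a + τ) b ⊆ Icc a b := Icc_subset_Icc_left (by linarith)
  have hn := hs.nonneg
  have hmass := (h4 Ω hO hb d m hm T hT u ut Du lu hs k).2 RM a (a + τ) (by linarith)
    ((Icc_subset_Icc_right hcc).trans hIcc) (fun t ht x hx => by
      have htI : t ∈ Icc a b := ⟨ht.1, ht.2.trans hcc⟩
      have h1 := hmm x hx
      have h2 : |∑ k, u k t x| ≤ N * |M| := by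
        refine (Finset.abs_sum_le_sum_abs _ _).trans ?_
        refine (Finset.sum_le_card_nsmul _ _ |M| fun i _ => ?_).trans (le_of_eq ?_)
        · rw [abs_of_nonneg (hn i t (hIcc htI) x hx)]
          exact (hM i t htI x hx).trans (le_abs_self _)
        · simp
      rw [hRM]
      exact (abs_sub _ _).trans (by linarith))
  have hmk' : A * Real.exp (- (RM * τ)) ≤ mass Ω (u k (a + τ)) := by
    refine le_trans ?_ hmass.1
    have h1 : a + τ - a = τ := by ring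
    rw [h1]
    exact mul_le_mul_of_nonneg_right hmk (Real.exp_pos _).le
  have h := hS T hT (a + τ) b hcc (hsub.trans hIcc) u ut Du lu hs
    (fun j t ht x hx => hτ T hT a b hIcc u ut Du lu hs hM j t ht x hx) hmk' hml
  linarith

end Pool.Agent.Lib.MP_d8ef8f_an.Sf
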