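import Pool.Agent.Lib.MP_d8ef8f_an.Sf.Stm
import Pool.Agent.Lib.MP_d8ef8f_an.Gd.A2

/-!
# Piece I7: the derivative of the functional when `m` changes sign
-/

set_option autoImplicit false

namespace Pool.Agent.Lib.MP_d8ef8f_an.Sf

open Set Filter Topology MeasureTheory
open Pool.Agent.Lib.MP_d8ef8f_an.Gd Pool.Agent.Lib.MP_d8ef8f_an.Ff

private theorem i7_abs {n : ℕ} {Ω : Set (Sp n)} (hO : IsOpen Ω) (hb : Bornology.IsBounded Ω)
    {F F' : Sp n → ℝ} {R : ℝ} (hF : ContinuousOn F (closure Ω))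
    (hF' : ContinuousOn F' (closure Ω)) (h : ∀ x ∈ closure Ω, |F x| ≤ R * F' x) :
    |∫ x in Ω, F x| ≤ R * ∫ x in Ω, F' x := by
  have i1 : IntegrableOn F Ω := p_A2 Ω hb _ hF
  have i2 : IntegrableOn F' Ω := p_A2 Ω hb _ hF'
  calc |∫ x in Ω, F x| ≤ ∫ x in Ω, |F x| := abs_integral_le_integral_abs
    _ ≤ ∫ x in Ω, R * F' x := by
      refine setIntegral_mono_on i1.abs (i2.const_mul _) hO.measurableSet ?_
      intro x hx
      exact h x (subset_closure hx)
    _ = _ := integral_const_mul _ _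

/-- the weight -/
private theorem i7_weight {n : ℕ} {Ω : Set (Sp n)} {β ψ : Sp n → ℝ} {Dβ Dψ : Sp n → Sp n}
    (hβ : C1 Ω β Dβ) (hψ : C1 Ω ψ Dψ) (K : ℝ) :
    C1 Ω (fun x => β x ^ 2 + K * ψ x ^ 2)
      (fun x => (2 * β x) • Dβ x + (2 * K * ψ x) • Dψ x) := by
  refine ⟨(hβ.cont.pow 2).add (continuousOn_const.mul (hψ.cont.pow 2)),
    ((continuousOn_const.mul hβ.cont).smul hβ.contD).add
      (((continuousOn_const.mul continuousOn_const).mul hψ.cont).smul hψ.contD), ?_⟩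
  intro x hx
  have h1 := hβ.grad x hx
  have h2 := hψ.grad x hx
  rw [hasGradientAt_iff_hasFDerivAt] at h1 h2 ⊢
  have h3 := (h1.pow 2).add ((h2.pow 2).const_mul K)
  refine h3.congr_fderiv ?_
  ext v
  simp
  ring

/-- completing the square -/
private theorem i7_sq {n : ℕ} (a D1 D2 : Sp n) (p q K : ℝ) (hK : 0 ≤ K) :
    - (‖D1‖ ^ 2 + K * ‖D2‖ ^ 2) ≤ (p ^ 2 + K * q ^ 2) * ‖a‖ ^ 2 -
      inner ℝ a ((2 * p) • D1 + (2 * K * q) • D2) := by
  have h1 : 0 ≤ ‖p • a - D1‖ ^ 2 := by positivity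
  have h2 : 0 ≤ ‖q • a - D2‖ ^ 2 := by positivity
  rw [norm_sub_sq_real, norm_smul, real_inner_smul_left, mul_pow, Real.norm_eq_abs, sq_abs]
    at h1 h2
  rw [inner_add_right, real_inner_smul_right, real_inner_smul_right]
  have h3 := mul_nonneg hK h2
  have e : K * (q ^ 2 * ‖a‖ ^ 2 - 2 * (q * inner ℝ a D2) + ‖D2‖ ^ 2) =
      K * q ^ 2 * ‖a‖ ^ 2 - 2 * K * q * inner ℝ a D2 + K * ‖D2‖ ^ 2 := by ring
  rw [e] at h3
  linarith

/-- the pointwise inequality for the zero order terms -/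
private theorem i7_point {m U b p h1 K e R b0 C' : ℝ} (hK : 0 < K)
    (hR : |m - U| ≤ R) (hU : 0 ≤ U) (hb : b ≠ 0 → 0 < m) (hb0 : b ^ 2 ≤ b0)
    (hp : |p ^ 2 - max m 0| ≤ e) (hh1 : h1 = max m 0 - U) :
    - (b0 + C') ^ 2 / (4 * K) - K * e * R + C' * |h1| ≤
      (b ^ 2 + K * p ^ 2) * (m - U) - K * (U * (m - U)) := by
  obtain ⟨g, hg⟩ : ∃ g, g = max (-m) 0 := ⟨_, rfl⟩
  obtain ⟨mp, hmp⟩ : ∃ mp, mp = max m 0 := ⟨_, rfl⟩
  have hg0 : 0 ≤ g := by rw [hg]; exact le_max_right _ _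
  have hmg : m = mp - g := by
    rw [hg, hmp]
    rcases le_total m 0 with h | h
    · rw [max_eq_right h, max_eq_left (by linarith)]
      ring
    · rw [max_eq_left h, max_eq_right (by linarith)]
      ring
  have hmpg : mp * g = 0 := by
    rw [hg, hmp]
    rcases le_total m 0 with h | h
    · rw [max_eq_right h]
      ring
    · rw [max_eq_right (by linarith : -m ≤ 0)]
      ring
  have hbg : b ^ 2 * g = 0 := by
    by_cases hb' : b = 0
    · rw [hb']
      ring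
    · have := hb hb'
      rw [hg, max_eq_right (by linarith)]
      ring
  rw [← hmp] at hp hh1
  have e1 : (b ^ 2 + K * p ^ 2) * (m - U) - K * (U * (m - U)) =
      b ^ 2 * h1 - b ^ 2 * g + K * ((p ^ 2 - mp) * (m - U)) + K * h1 ^ 2 - K * (mp * g)
        + K * (U * g) := by
    rw [hmg, hh1]
    ring
  rw [e1, hbg, hmpg]
  have h2 : - (e * R) ≤ (p ^ 2 - mp) * (m - U) := by
    have h3 : |(p ^ 2 - mp) * (m - U)| ≤ e * R := by
      rw [abs_mul]
      exact mul_le_mul hp hR (abs_nonneg _) ((abs_nonneg _).trans hp)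
    exact (abs_le.1 h3).1
  have h4 : 0 ≤ K * (U * g) := by positivity
  have h5 : - (b0 * |h1|) ≤ b ^ 2 * h1 := by
    have h6 := neg_abs_le h1
    have h7 := abs_nonneg h1
    nlinarith [sq_nonneg b]
  have h8 : - (b0 + C') ^ 2 / (4 * K) + (b0 + C') * |h1| ≤ K * h1 ^ 2 := by
    have h9 : 0 ≤ (2 * K * |h1| - (b0 + C')) ^ 2 := sq_nonneg _
    have h10 : (2 * K * |h1| - (b0 + C')) ^ 2 = 4 * K * (K * h1 ^ 2 - (b0 + C') * |h1|
        + (b0 + C') ^ 2 / (4 * K)) := by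
      have h11 : h1 ^ 2 = |h1| ^ 2 := (sq_abs h1).symm
      rw [h11]
      field_simp
      ring
    rw [h10] at h9
    have h11 := nonneg_of_mul_nonneg_right h9 (by positivity)
    have h12 : - (b0 + C') ^ 2 / (4 * K) = - ((b0 + C') ^ 2 / (4 * K)) := by ring
    rw [h12]
    linarith
  have h13 := mul_le_mul_of_nonneg_left h2 hK.le
  linarith

theorem p_I7 (h3 : Ff.StmF3) (h4 : StmF4) (hu1 : Uf.StmU1) : StmI7 := by
  intro n N Ω P hΩ d m hm hd k l D R γ C K b Q e B hD hDl hR hC hK hb0 hQ he hgap hCE β ψ Dβ Dψ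
    hβ hψ hβm hβb hq hψm hB T hT u ut Du lu hs t ht huR hsl ε hε
  have hO := hΩ.isOpen
  have hb := hΩ.bdd
  have hdk0 := hd k
  have hdl0 := hd l
  have hcu : ∀ j, ContinuousOn (u j t) (closure Ω) := by
    intro j
    exact (hs.cu j).comp (f := fun x => (t, x)) (by fun_prop) (fun x hx => ⟨ht, hx⟩)
  have hcD : ∀ j, ContinuousOn (Du j t) (closure Ω) := by
    intro j
    exact (hs.cD j).comp (f := fun x => (t, x)) (by fun_prop) (fun x hx => ⟨ht, hx⟩)
  have hnn : ∀ j, ∀ x ∈ closure Ω, 0 ≤ u j t x := fun j x hx => hs.nonneg j t ht x hx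
  have hpos : ∀ j, ∀ x ∈ closure Ω, 0 < u j t x + ε := fun j x hx => by
    have := hnn j x hx
    linarith
  have cw : ∀ j, ContinuousOn (fun x => u j t x + ε) (closure Ω) := fun j =>
    (hcu j).add continuousOn_const
  have cE : ∀ j, ContinuousOn (fun x => ε / (u j t x + ε)) (closure Ω) := fun j =>
    continuousOn_const.div (cw j) fun x hx => (hpos j x hx).ne'
  have cG : ∀ j, ContinuousOn (fun x => (u j t x + ε)⁻¹ • Du j t x) (closure Ω) := fun j =>
    ((cw j).inv₀ fun x hx => (hpos j x hx).ne').smul (hcD j)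
  have cU : ContinuousOn (fun x => ∑ j, u j t x) (closure Ω) :=
    continuousOn_finsetSum _ fun j _ => hcu j
  have ch : ContinuousOn (fun x => m x - ∑ j, u j t x) (closure Ω) := hm.sub cU
  have cmp : ContinuousOn (fun x => max (m x) 0) (closure Ω) := ContinuousOn.sup hm continuousOn_const
  have cmn : ContinuousOn (fun x => max (- m x) 0) (closure Ω) := ContinuousOn.sup hm.neg continuousOn_const
  have ch1 : ContinuousOn (fun x => max (m x) 0 - ∑ j, u j t x) (closure Ω) := cmp.sub cU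
  have hU0 : ∀ x ∈ closure Ω, 0 ≤ ∑ j, u j t x := fun x hx =>
    Finset.sum_nonneg fun j _ => hnn j x hx
  have hvol : 0 < vol Ω := by
    unfold vol
    refine ENNReal.toReal_pos ?_ ?_
    · exact (hO.measure_pos volume hΩ.nonempty).ne'
    · exact hb.measure_lt_top.ne
  have hw := i7_weight hβ hψ K
  -- derivative
  have hL := h3 Ω hO hb d m hm T hT u ut Du lu hs ε hε _ _ hw k t ht
  have hSq := hu1 Ω hO hb d m hm T hT u ut Du lu hs l t ht
  have hlog := hSq.log hsl.ne'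
  have hmass : HasDerivAt (fun s => ∑ j, mass Ω (u j s))
      (∑ j, ∫ x in Ω, u j t x * (m x - ∑ i, u i t x)) t :=
    HasDerivAt.fun_sum fun j _ => (h4 Ω hO hb d m hm T hT u ut Du lu hs j).1 t ht
  have hder := (hL.sub (hlog.const_mul (vol Ω / 2))).sub (hmass.const_mul K)
  refine ⟨_, hder, ?_⟩
  -- the gradient terms
  have cq := hw.cont
  have b1 : - B ≤ (∫ x in Ω, (β x ^ 2 + K * ψ x ^ 2) * ‖(u k t x + ε)⁻¹ • Du k t x‖ ^ 2)
      - ∫ x in Ω, inner ℝ ((u k t x + ε)⁻¹ • Du k t x)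
        ((2 * β x) • Dβ x + (2 * K * ψ x) • Dψ x) := by
    have i1 : IntegrableOn (fun x => (β x ^ 2 + K * ψ x ^ 2) *
        ‖(u k t x + ε)⁻¹ • Du k t x‖ ^ 2) Ω := p_A2 Ω hb _ (cq.mul ((cG k).norm.pow 2))
    have i2 : IntegrableOn (fun x => inner ℝ ((u k t x + ε)⁻¹ • Du k t x)
        ((2 * β x) • Dβ x + (2 * K * ψ x) • Dψ x)) Ω := p_A2 Ω hb _ ((cG k).inner hw.contD)
    have i3 : IntegrableOn (fun x => ‖Dβ x‖ ^ 2) Ω := p_A2 Ω hb _ (hβ.contD.norm.pow 2)
    have i4 : IntegrableOn (fun x => ‖Dψ x‖ ^ 2) Ω := p_A2 Ω hb _ (hψ.contD.norm.pow 2)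
    have h5 : (∫ x in Ω, - (‖Dβ x‖ ^ 2 + K * ‖Dψ x‖ ^ 2)) ≤
        ∫ x in Ω, ((β x ^ 2 + K * ψ x ^ 2) * ‖(u k t x + ε)⁻¹ • Du k t x‖ ^ 2 -
          inner ℝ ((u k t x + ε)⁻¹ • Du k t x) ((2 * β x) • Dβ x + (2 * K * ψ x) • Dψ x)) := by
      refine setIntegral_mono_on ((i3.add (i4.const_mul K)).neg) (i1.sub i2)
        hO.measurableSet fun x _ => ?_
      exact i7_sq _ _ _ _ _ _ hK.le
    rw [integral_neg, integral_add i3 (i4.const_mul K), integral_const_mul,
      integral_sub i1 i2] at h5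
    linarith
  have b1' := mul_le_mul_of_nonneg_left b1 hdk0.le
  -- the error term
  have b2 : |∫ x in Ω, (β x ^ 2 + K * ψ x ^ 2) * (ε / (u k t x + ε)) * (m x - ∑ j, u j t x)| ≤
      (R * Q) * Er Ω ε (u k t) := by
    refine i7_abs hO hb ((cq.mul (cE k)).mul ch) (cE k) fun x hx => ?_
    have h1 := div_pos hε (hpos k x hx)
    have h2 : 0 ≤ β x ^ 2 + K * ψ x ^ 2 := by positivity
    rw [abs_mul, abs_mul, abs_of_pos h1, abs_of_nonneg h2]
    calc (β x ^ 2 + K * ψ x ^ 2) * (ε / (u k t x + ε)) * |m x - ∑ j, u j t x|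
        ≤ Q * (ε / (u k t x + ε)) * R :=
          mul_le_mul (mul_le_mul_of_nonneg_right (hq x hx) h1.le) (huR x hx) (abs_nonneg _)
            (by positivity)
      _ = _ := by ring
  have b2' := (abs_le.1 b2).2
  -- the zero order terms of `k` and of the masses
  have hh1R : ∀ x ∈ closure Ω, |max (m x) 0 - ∑ j, u j t x| ≤ R := by
    intro x hx
    have h1 := huR x hx
    have h2 := hU0 x hx
    rcases le_total (m x) 0 with h | h
    · rw [max_eq_right h, zero_sub, abs_neg, abs_of_nonneg h2]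
      have h3 := (abs_le.1 h1).1
      linarith
    · rw [max_eq_left h]
      exact h1
  have b3 : - ((b + vol Ω * C) ^ 2 * vol Ω / (4 * K)) - K * e * R * vol Ω
      + vol Ω * C * (∫ x in Ω, |max (m x) 0 - ∑ j, u j t x|) ≤
      (∫ x in Ω, (β x ^ 2 + K * ψ x ^ 2) * (m x - ∑ j, u j t x))
        - K * ∑ j, ∫ x in Ω, u j t x * (m x - ∑ i, u i t x) := by
    have i1 : IntegrableOn (fun x => (β x ^ 2 + K * ψ x ^ 2) * (m x - ∑ j, u j t x)) Ω :=
      p_A2 Ω hb _ (cq.mul ch)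
    have i2 : ∀ j, IntegrableOn (fun x => u j t x * (m x - ∑ i, u i t x)) Ω := fun j =>
      p_A2 Ω hb _ ((hcu j).mul ch)
    have i3 : IntegrableOn (fun x => ∑ j, u j t x * (m x - ∑ i, u i t x)) Ω :=
      integrable_finsetSum _ fun j _ => i2 j
    have i4 : IntegrableOn (fun x => |max (m x) 0 - ∑ j, u j t x|) Ω :=
      p_A2 Ω hb _ ch1.abs
    have ic : IntegrableOn (fun _ : Sp n => - (b + vol Ω * C) ^ 2 / (4 * K) - K * e * R) Ω :=
      integrableOn_const hb.measure_lt_top.ne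
    have h5 : (∫ x in Ω, ((- (b + vol Ω * C) ^ 2 / (4 * K) - K * e * R)
          + vol Ω * C * |max (m x) 0 - ∑ j, u j t x|)) ≤
        ∫ x in Ω, ((β x ^ 2 + K * ψ x ^ 2) * (m x - ∑ j, u j t x)
          - K * ∑ j, u j t x * (m x - ∑ i, u i t x)) := by
      refine setIntegral_mono_on (ic.add (i4.const_mul _)) (i1.sub (i3.const_mul K))
        hO.measurableSet fun x hx => ?_
      have hx' := subset_closure hx
      rw [← Finset.sum_mul]
      exact i7_point hK (huR x hx') (hU0 x hx') (hβm x hx') (hβb x hx') (hψm x hx') rfl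
    rw [integral_add ic (i4.const_mul _), integral_const_mul, setIntegral_const, smul_eq_mul,
      integral_sub i1 (i3.const_mul K), integral_const_mul,
      integral_finsetSum _ fun j _ => i2 j] at h5
    have hv : volume.real Ω = vol Ω := rfl
    rw [hv] at h5
    refine le_trans (le_of_eq ?_) h5
    ring
  -- the fast species
  obtain ⟨s, hsdef⟩ : ∃ s, s = ∫ x in Ω, u l t x ^ 2 := ⟨_, rfl⟩
  obtain ⟨G, hG⟩ : ∃ G, G = ∫ x in Ω, ‖Du l t x‖ ^ 2 := ⟨_, rfl⟩
  have hG0 : 0 ≤ G := by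
    rw [hG]
    exact setIntegral_nonneg hO.measurableSet fun x _ => by positivity
  obtain ⟨H1, hH1⟩ : ∃ H1, H1 = ∫ x in Ω, |max (m x) 0 - ∑ j, u j t x| := ⟨_, rfl⟩
  have hc1 := (hs.lap l t ht).c1
  have b4 : (∫ x in Ω, u l t x ^ 2 * |max (m x) 0 - ∑ j, u j t x|) ≤
      D / 2 * G + C * s * H1 := by
    have h5 := hCE (u l t) (Du l t) hc1 (fun x => |max (m x) 0 - ∑ j, u j t x| / R)
      (ch1.abs.div_const R) (fun x hx => ⟨by positivity, by
        rw [div_le_one hR]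
        exact hh1R x hx⟩)
    have e1 : (∫ x in Ω, u l t x ^ 2 * (|max (m x) 0 - ∑ j, u j t x| / R)) =
        (∫ x in Ω, u l t x ^ 2 * |max (m x) 0 - ∑ j, u j t x|) / R := by
      rw [← integral_div]
      refine integral_congr_ae (Eventually.of_forall fun x => ?_)
      simp only
      ring
    rw [e1, integral_div, div_le_iff₀ hR, ← hG, ← hsdef, ← hH1] at h5
    refine h5.trans (le_of_eq ?_)
    field_simp
  have b5 : (∫ x in Ω, u l t x ^ 2 * (m x - ∑ j, u j t x)) ≤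
      (∫ x in Ω, u l t x ^ 2 * |max (m x) 0 - ∑ j, u j t x|)
        - ∫ x in Ω, u l t x ^ 2 * max (- m x) 0 := by
    have i1 : IntegrableOn (fun x => u l t x ^ 2 * |max (m x) 0 - ∑ j, u j t x|) Ω :=
      p_A2 Ω hb _ (((hcu l).pow 2).mul ch1.abs)
    have i2 : IntegrableOn (fun x => u l t x ^ 2 * max (- m x) 0) Ω :=
      p_A2 Ω hb _ (((hcu l).pow 2).mul cmn)
    rw [← integral_sub i1 i2]
    refine setIntegral_mono_on (p_A2 Ω hb _ (((hcu l).pow 2).mul ch)) (i1.sub i2)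
      hO.measurableSet fun x _ => ?_
    have h5 : m x - ∑ j, u j t x ≤ |max (m x) 0 - ∑ j, u j t x| - max (- m x) 0 := by
      have h6 := le_abs_self (max (m x) 0 - ∑ j, u j t x)
      rcases le_total (m x) 0 with h | h
      · rw [max_eq_left (by linarith : 0 ≤ - m x)]
        rw [max_eq_right h] at h6 ⊢
        linarith
      · rw [max_eq_right (by linarith : - m x ≤ 0)]
        rw [max_eq_left h] at h6 ⊢
        linarith
    have h7 := mul_le_mul_of_nonneg_left h5 (sq_nonneg (u l t x))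
    rw [← mul_sub]
    exact h7
  have b6 := hgap (u l t) (Du l t) hc1
  rw [← hsdef, ← hG] at b6
  rw [← hsdef] at hsl
  have b7 : vol Ω * γ - vol Ω * C * H1 ≤
      - (vol Ω * (((∫ x in Ω, u l t x ^ 2 * (m x - ∑ j, u j t x)) - d l * G) / s)) := by
    have h5 : ((∫ x in Ω, u l t x ^ 2 * (m x - ∑ j, u j t x)) - d l * G) / s ≤
        C * H1 - γ := by
      rw [div_le_iff₀ hsl]
      have h6 : D * G ≤ d l * G := mul_le_mul_of_nonneg_right hDl hG0
      have h7 : (C * H1 - γ) * s = C * s * H1 - γ * s := by ring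
      rw [h7]
      linarith
    have h6 := mul_le_mul_of_nonneg_left h5 hvol.le
    have h7 : vol Ω * (C * H1 - γ) = vol Ω * C * H1 - vol Ω * γ := by ring
    linarith
  have b8 : vol Ω / 2 * ((2 * (∫ x in Ω, u l t x ^ 2 * (m x - ∑ j, u j t x))
      - 2 * d l * G) / s) =
      vol Ω * (((∫ x in Ω, u l t x ^ 2 * (m x - ∑ j, u j t x)) - d l * G) / s) := by ring
  rw [← hsdef, ← hG, b8]
  rw [← hH1] at b3
  linarith

end Pool.Agent.Lib.MP_d8ef8f_an.Sf
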