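import Pool.Agent.Lib.MP_d8ef8f_an.Sf.I10

/-!
# Piece S10: a slow species eliminates faster ones when `m = ψ²` (assembly)
-/

set_option autoImplicit false

namespace Pool.Agent.Lib.MP_d8ef8f_an.Sf

open Set Filter Topology MeasureTheory
open Pool.Agent.Lib.MP_d8ef8f_an.Gd Pool.Agent.Lib.MP_d8ef8f_an.Ff

private theorem s10_eps (C δ K : ℝ) (hδ : 0 < δ) (hK : 0 < K) : ∃ ε₀ : ℝ, 0 < ε₀ ∧ ε₀ < 1 ∧
    ε₀ ≤ K ∧ 0 < Real.log (1 / ε₀) ∧ C / Real.log (1 / ε₀) ≤ δ := by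
  obtain ⟨X, hX⟩ : ∃ X, X = |C| / δ + |Real.log K| + 1 := ⟨_, rfl⟩
  have h0 : 0 < X := by rw [hX]; positivity
  have h1 : Real.log (1 / Real.exp (-X)) = X := by
    rw [one_div, ← Real.exp_neg, neg_neg, Real.log_exp]
  refine ⟨Real.exp (-X), Real.exp_pos _, ?_, ?_, ?_, ?_⟩
  · rw [Real.exp_lt_one_iff]
    linarith
  · rw [← Real.le_log_iff_exp_le hK]
    have h2 := neg_abs_le (Real.log K)
    have h3 : 0 ≤ |C| / δ := by positivity
    rw [hX]
    linarith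
  · rw [h1]
    exact h0
  · rw [h1, div_le_iff₀ h0]
    have h2 : δ * (|C| / δ) = |C| := by field_simp
    have h3 : δ * X = |C| + δ * |Real.log K| + δ := by
      rw [hX, mul_add, mul_add, h2, mul_one]
    rw [h3]
    have h4 : 0 ≤ δ * |Real.log K| := by positivity
    linarith [le_abs_self C]

/-- the upper and the lower bound of the functional -/
private theorem s10_bounds {n N : ℕ} {Ω : Set (Sp n)} {P : ℝ} (hD : Dom Ω P)
    {k l : Fin N} {mid : Finset (Fin N)} {K0 K ε M L1 m₀ : ℝ} {m : Sp n → ℝ}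
    (hm : ContinuousOn m (closure Ω)) (hmm : ∀ x ∈ closure Ω, 0 ≤ m x ∧ m x ≤ m₀) (hK : 0 < K)
    (hm₀ : 0 < m₀) (hM : 0 < M) (hε : 0 < ε) (hε1 : ε ≤ 1)
    (hL1 : L1 = vol Ω * Real.log (M + 1)) (hK0 : 0 ≤ K0) {v : Fin N → Sp n → ℝ}
    (hv : ∀ j, ContinuousOn (v j) (closure Ω)) (hv0 : ∀ j, ∀ x ∈ closure Ω, 0 ≤ v j x)
    (hvK : ∀ j, ∀ x ∈ closure Ω, v j x ≤ M) (hl : 0 < mass Ω (v l)) :
    (∀ q : ℝ, 0 < q → q ≤ mass Ω (v l) → Uf.PsU Ω k l mid K0 K (1 / (4 * N)) ε m v ≤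
      3 / 4 * L1 + K * m₀ * L1 + 1 / 4 * (Real.log 2 + K0 + L1)
        - vol Ω / 2 * Real.log (q ^ 2 / vol Ω)) ∧
    (1 + K * m₀) * Lg Ω ε (v k) - K * m₀ * L1 - vol Ω / 2 * Real.log (M ^ 2 * vol Ω)
        - K * (N * (M * vol Ω)) ≤ Uf.PsU Ω k l mid K0 K (1 / (4 * N)) ε m v := by
  have hO := hD.isOpen
  have hb := hD.bdd
  have hV := f10_vol_pos hD
  have hN : 0 < (N : ℝ) := by
    have : 0 < N := lt_of_le_of_lt (Nat.zero_le _) k.isLt
    exact_mod_cast this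
  have hcl := f10_cont (hv k) (hv0 k) hε
  have hsp : (∫ x in Ω, (1 + K * m x) * Real.log (v k x + ε)) =
      Lg Ω ε (v k) + K * ∫ x in Ω, m x * Real.log (v k x + ε) := by
    have i1 : IntegrableOn (fun x => Real.log (v k x + ε)) Ω := p_A2 Ω hb _ hcl
    have i2 : IntegrableOn (fun x => m x * Real.log (v k x + ε)) Ω := p_A2 Ω hb _ (hm.mul hcl)
    unfold Lg
    rw [← integral_const_mul, ← integral_add i1 (i2.const_mul K)]
    refine integral_congr_ae (Eventually.of_forall fun x => ?_)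
    simp only
    ring
  have hwl := wlog_bounds hO hb (hv k) (hv0 k) (hvK k) hM.le hε hε1 hm hmm hm₀.le
  rw [← hL1] at hwl
  have hwl1 := mul_le_mul_of_nonneg_left hwl.1 hK.le
  have hwl2 := mul_le_mul_of_nonneg_left hwl.2 hK.le
  have hLk := fun j => f10_Lg_le hO hb (hv j) (hv0 j) (hvK j) hε hε1
  have hs1 := mass_sq_le hD (hv l)
  have hspos : 0 < ∫ x in Ω, v l x ^ 2 := lt_of_lt_of_le (by positivity) hs1
  have hmass0 : ∀ j, 0 ≤ mass Ω (v j) := fun j =>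
    setIntegral_nonneg hO.measurableSet fun x hx => hv0 j x (subset_closure hx)
  have hmassK : ∀ j, mass Ω (v j) ≤ M * vol Ω := fun j => by
    have h := setIntegral_mono_on (p_A2 Ω hb _ (hv j))
      (integrableOn_const hb.measure_lt_top.ne : IntegrableOn (fun _ : Sp n => M) Ω)
      hO.measurableSet fun x hx => hvK j x (subset_closure hx)
    rw [setIntegral_const, smul_eq_mul, mul_comm] at h
    exact h
  have hL10 : 0 ≤ L1 := by
    rw [hL1]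
    have : 0 ≤ Real.log (M + 1) := Real.log_nonneg (by linarith)
    positivity
  have hlog2 : 0 ≤ Real.log 2 := Real.log_nonneg (by norm_num)
  have hcN : 0 ≤ 1 / (4 * (N : ℝ)) := by positivity
  constructor
  · intro q hq hql
    have h3 : ∀ i ∈ mid, sp (Lg Ω ε (v i) - Lg Ω ε (v k) + K0) ≤
        Real.log 2 + (L1 - Lg Ω ε (v k) + K0) := fun i _ =>
      f10_sp_le (by linarith [hLk i, hL1]) (by linarith [hLk k, hL1])
    have h4 : 0 ≤ Real.log 2 + (L1 - Lg Ω ε (v k) + K0) := by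
      linarith [hLk k, hL1]
    have h5 : ∑ i ∈ mid, sp (Lg Ω ε (v i) - Lg Ω ε (v k) + K0) ≤
        N * (Real.log 2 + (L1 - Lg Ω ε (v k) + K0)) := by
      refine (Finset.sum_le_card_nsmul mid _ _ h3).trans ?_
      rw [nsmul_eq_mul]
      refine mul_le_mul_of_nonneg_right ?_ h4
      have h1 : mid.card ≤ N := by
        simpa using Finset.card_le_univ mid
      exact_mod_cast h1
    have h6 : 1 / (4 * (N : ℝ)) * ∑ i ∈ mid, sp (Lg Ω ε (v i) - Lg Ω ε (v k) + K0) ≤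
        1 / 4 * (Real.log 2 + (L1 - Lg Ω ε (v k) + K0)) := by
      have h7 := mul_le_mul_of_nonneg_left h5 hcN
      refine h7.trans (le_of_eq ?_)
      field_simp
    have h7 : Real.log (q ^ 2 / vol Ω) ≤ Real.log (∫ x in Ω, v l x ^ 2) := by
      refine Real.log_le_log (by positivity) (le_trans ?_ hs1)
      have : q ^ 2 ≤ mass Ω (v l) ^ 2 := pow_le_pow_left₀ hq.le hql 2
      exact div_le_div_of_nonneg_right this hV.le
    have h8 := mul_le_mul_of_nonneg_left h7 (by positivity : 0 ≤ vol Ω / 2)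
    have h9 : 0 ≤ K * ∑ j, mass Ω (v j) :=
      mul_nonneg hK.le (Finset.sum_nonneg fun j _ => hmass0 j)
    unfold Uf.PsU
    rw [hsp]
    have h10 := hLk k
    rw [← hL1] at h10
    linarith
  · have h3 : 0 ≤ 1 / (4 * (N : ℝ)) *
        ∑ i ∈ mid, sp (Lg Ω ε (v i) - Lg Ω ε (v k) + K0) :=
      mul_nonneg hcN (Finset.sum_nonneg fun i _ => f10_sp_nonneg _)
    have h4 : (∫ x in Ω, v l x ^ 2) ≤ M ^ 2 * vol Ω := by
      have h := setIntegral_mono_on (p_A2 Ω hb _ ((hv l).pow 2))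
        (integrableOn_const hb.measure_lt_top.ne : IntegrableOn (fun _ : Sp n => M ^ 2) Ω)
        hO.measurableSet fun x hx =>
          pow_le_pow_left₀ (hv0 l x (subset_closure hx)) (hvK l x (subset_closure hx)) 2
      rw [setIntegral_const, smul_eq_mul, mul_comm] at h
      exact h
    have h5 := mul_le_mul_of_nonneg_left (Real.log_le_log hspos h4)
      (by positivity : 0 ≤ vol Ω / 2)
    have h6 : K * ∑ j, mass Ω (v j) ≤ K * (N * (M * vol Ω)) := by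
      refine mul_le_mul_of_nonneg_left ?_ hK.le
      refine (Finset.sum_le_card_nsmul _ _ (M * vol Ω) fun j _ => hmassK j).trans ?_
      simp
    unfold Uf.PsU
    rw [hsp]
    linarith

/-- the core estimate on an interval where the sup bound holds -/
private theorem s10_core (h3 : Ff.StmF3) (h4 : StmF4) (h5 : StmF5) (h7 : StmS7) (h9 : StmF9)
    {n N : ℕ} (Ω : Set (Sp n)) (P : ℝ) (hDm : Dom Ω P) (d : Fin N → ℝ) (m ψ : Sp n → ℝ)
    (Dψ : Sp n → Sp n) (hψ : C1 Ω ψ Dψ) (hmψ : ∀ x ∈ closure Ω, 0 ≤ ψ x ∧ m x = ψ x ^ 2)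
    (hm : ContinuousOn m (closure Ω)) (hd : ∀ j, 0 < d j) (m₀ : ℝ) (hm₀ : 0 < m₀)
    (hmm : ∀ x ∈ closure Ω, m x ≤ m₀)
    (k l : Fin N) (L : Finset (Fin N)) (hkl : k ≠ l) (hkL : k ∉ L) (hlL : l ∉ L)
    (D R M C₁ K Bx e : ℝ) (hD : 0 < D) (hR : 0 < R) (hM : 0 < M) (hC₁ : 0 ≤ C₁)
    (hCE : CE Ω (D / (8 * R)) C₁) (hout : ∀ j, j ∉ L → j ≠ k → D ≤ d j) (hdkD : d k ≤ D)
    (hKm : 1 ≤ 2 * m₀ * K) (hK0 : 0 < K)
    (hKC : 4 * (P / D * (10 + 2 * (vol Ω * C₁) ^ 2)) ≤ K) (hBx : 0 < Bx)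
    (hdkB : 16 * K * Bx ^ 2 * d k ≤ 1)
    (X : Sp n → Sp n) (g : Sp n → ℝ) (hX : Continuous X) (hg : Continuous g)
    (hXg : ∀ x, ‖X x‖ ≤ Bx ∧ |g x| ≤ Bx) (hdiv : DivOf Ω X g)
    (hXe : (∫ x in Ω, ‖(2 : ℝ) • Dψ x - ψ x • X x‖ ^ 2) ≤ e)
    (κm ν G Γ : ℝ) (hκm : 0 < κm) (hG0 : 0 < G) (hΓ0 : 0 < Γ)
    (hΓ : Γ = 1 / (2 * m₀) * (∫ x in Ω, ‖Dψ x‖ ^ 2))
    (hG : G ≤ d k * (Γ - 4 * K ^ 2 * m₀ * e - Γ / 8
            - d k * (K * Bx ^ 2 * vol Ω + 9 * N ^ 2 * K ^ 2 * Bx ^ 2 * M ^ 2 * vol Ω / D)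
            - K * Bx * (N * κm + ν)))
    (hRK : ∀ v : Fin N → Sp n → ℝ, (∀ j, ∀ x ∈ closure Ω, 0 ≤ v j x ∧ v j x ≤ M) →
        ∀ x ∈ closure Ω, |m x - ∑ j, v j x| ≤ R) (A q : ℝ) (hA : 0 < A) (hq : 0 < q) :
    ∃ S : ℝ, ∀ (T : Set ℝ), IsOpen T → ∀ (a b : ℝ), a ≤ b → Icc a b ⊆ T →
    ∀ (u ut : Fin N → ℝ → Sp n → ℝ) (Du : Fin N → ℝ → Sp n → Sp n) (lu : Fin N → ℝ → Sp n → ℝ),
      IsSol Ω d m T u ut Du lu → (∀ j, ∀ t ∈ Icc a b, ∀ x ∈ closure Ω, u j t x ≤ M) →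
      A ≤ mass Ω (u k a) → (∀ t ∈ Icc a b, (∑ j ∈ L, mass Ω (u j t)) ≤ ν) →
      q ≤ mass Ω (u l b) → b - a ≤ S := by
  have hO := hDm.isOpen
  have hb := hDm.bdd
  have hP := hDm.hP
  have hV := f10_vol_pos hDm
  obtain ⟨V, hVdef⟩ : ∃ V, V = vol Ω := ⟨_, rfl⟩
  rw [← hVdef] at hV
  have hN : 0 < (N : ℝ) := by
    have : 0 < N := lt_of_le_of_lt (Nat.zero_le _) k.isLt
    exact_mod_cast this
  have hdk0 := hd k
  have hdl0 := hd l
  have hmm0 : ∀ x ∈ closure Ω, 0 ≤ m x ∧ m x ≤ m₀ := fun x hx => by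
    refine ⟨?_, hmm x hx⟩
    rw [(hmψ x hx).2]
    positivity
  obtain ⟨KA, hKA⟩ := h9 Ω P hDm d m hm k (hd k) M A hA
  have hκe : 0 < κm * Real.exp (-R) := by positivity
  choose Kf hKf using fun i : Fin N => h9 Ω P hDm d m hm i (hd i) M (κm * Real.exp (-R)) hκe
  obtain ⟨L1, hL1⟩ : ∃ L1, L1 = vol Ω * Real.log (M + 1) := ⟨_, rfl⟩
  have hlogK : 0 ≤ Real.log (M + 1) := Real.log_nonneg (by linarith)
  have hL10 : 0 ≤ L1 := by
    rw [hL1, ← hVdef]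
    positivity
  obtain ⟨K0, hK0def⟩ : ∃ K0, K0 = L1 + ∑ i, |Kf i| := ⟨_, rfl⟩
  have hK00 : 0 ≤ K0 := by
    rw [hK0def]
    exact add_nonneg hL10 (Finset.sum_nonneg fun i _ => abs_nonneg _)
  have hKfi : ∀ i, Kf i + L1 ≤ K0 := fun i => by
    have h := Finset.single_le_sum (f := fun i => |Kf i|) (fun i _ => abs_nonneg _)
      (Finset.mem_univ i)
    have h' := le_abs_self (Kf i)
    rw [hK0def]
    linarith
  obtain ⟨C1, hC1⟩ : ∃ C1, C1 = 3 / 4 * L1 + K * m₀ * L1 + 1 / 4 * (Real.log 2 + K0 + L1)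
    - V / 2 * Real.log (q ^ 2 / V) := ⟨_, rfl⟩
  obtain ⟨C2, hC2⟩ : ∃ C2, C2 = (1 + K * m₀) * |KA| + K * m₀ * L1 + V / 2 * Real.log (M ^ 2 * V)
    + K * (N * (M * V)) := ⟨_, rfl⟩
  refine ⟨1 + 2 / G * (|C1| + |C2|), ?_⟩
  intro T hT a b hab hIcc u ut Du lu hs hMu hmk hlow hml
  have hn := hs.nonneg
  have hpt : ∀ t ∈ Icc a b, ∀ x ∈ closure Ω, |m x - ∑ j, u j t x| ≤ R := fun t ht =>
    hRK (fun j => u j t) fun j x hx => ⟨hn j t (hIcc ht) x hx, hMu j t ht x hx⟩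
  have hmass := fun j => h4 Ω hO hb d m hm T hT u ut Du lu hs j
  have hbd : ∀ j, ∀ s t, a ≤ s → s ≤ t → t ≤ b →
      mass Ω (u j s) * Real.exp (- (R * (t - s))) ≤ mass Ω (u j t) ∧
      mass Ω (u j t) ≤ mass Ω (u j s) * Real.exp (R * (t - s)) := fun j s t hs1 hst htb =>
    (hmass j).2 R s t hst ((Icc_subset_Icc hs1 htb).trans hIcc)
      fun t' ht' => hpt t' ⟨hs1.trans ht'.1, ht'.2.trans htb⟩
  have hmass0 : ∀ j, ∀ t ∈ Icc a b, 0 ≤ mass Ω (u j t) := fun j t ht =>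
    setIntegral_nonneg hO.measurableSet fun x hx => hn j t (hIcc ht) x (subset_closure hx)
  -- the mass of the fast species
  have hml0 : 0 < mass Ω (u l b) := lt_of_lt_of_le hq hml
  have hmlpos : ∀ t ∈ Icc a b, 0 < mass Ω (u l t) := fun t ht => by
    by_contra hneg
    have h0 : mass Ω (u l t) = 0 := le_antisymm (not_lt.1 hneg) (hmass0 l t ht)
    have h1 := (hbd l t b ht.1 ht.2 le_rfl).2
    rw [h0, zero_mul] at h1
    linarith
  have hbI : b ∈ Icc a b := ⟨hab, le_rfl⟩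
  have hbig : 0 ≤ 2 / G * (|C1| + |C2|) := by positivity
  rcases lt_or_ge b (a + 1) with hcase | hcase
  · linarith
  -- main case
  have h1b : a + 1 ≤ b := hcase
  have hu0 : ∀ j, ∀ t ∈ Icc a b, ∀ x ∈ closure Ω, 0 ≤ u j t x := fun j t ht =>
    hn j t (hIcc ht)
  have hcu : ∀ j, ∀ t ∈ Icc a b, ContinuousOn (u j t) (closure Ω) := fun j t ht =>
    f10_slice hs j (hIcc ht)
  have hsl : ∀ t ∈ Icc a b, 0 < (∫ x in Ω, u l t x ^ 2) := fun t ht => by
    have h1 := mass_sq_le hDm (hcu l t ht)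
    have h2 := hmlpos t ht
    rw [← hVdef] at h1
    exact lt_of_lt_of_le (by positivity) h1
  -- the choice of the regularisation
  obtain ⟨Kb, hKb⟩ : ∃ Kb, Kb = |KA| + R * V * (b - a) := ⟨_, rfl⟩
  have hKb0 : 0 ≤ Kb := by
    have : 0 ≤ b - a := by linarith
    rw [hKb]
    positivity
  obtain ⟨δ, hδ⟩ : ∃ δ, δ = G / (2 * R * ((2 + K * m₀) + N)) := ⟨_, rfl⟩
  have hδ0 : 0 < δ := by rw [hδ]; positivity
  obtain ⟨Z, hZ⟩ : ∃ Z, Z = Kb + K0 + V / δ := ⟨_, rfl⟩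
  have hZ0 : 0 ≤ Z := by rw [hZ]; positivity
  obtain ⟨c0, hc0⟩ : ∃ c0, c0 = V * (1 + Real.log (M + 1)) := ⟨_, rfl⟩
  have hc00 : 0 ≤ c0 := by rw [hc0]; positivity
  obtain ⟨r0, hr0, hr0M, hr0e⟩ : ∃ r0 : ℝ, 0 < r0 ∧ r0 ≤ M ∧
      4 * K ^ 2 * Bx ^ 2 * V * r0 ^ 2 ≤ Γ / 8 := by
    refine ⟨min M (Real.sqrt (Γ / (8 * (4 * K ^ 2 * Bx ^ 2 * V)))), lt_min hM
      (Real.sqrt_pos.2 (by positivity)), min_le_left _ _, ?_⟩
    have h1 : min M (Real.sqrt (Γ / (8 * (4 * K ^ 2 * Bx ^ 2 * V)))) ^ 2 ≤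
        Γ / (8 * (4 * K ^ 2 * Bx ^ 2 * V)) := by
      have h2 : min M (Real.sqrt (Γ / (8 * (4 * K ^ 2 * Bx ^ 2 * V)))) ≤
        Real.sqrt (Γ / (8 * (4 * K ^ 2 * Bx ^ 2 * V))) := min_le_right _ _
      have h3 : 0 ≤ min M (Real.sqrt (Γ / (8 * (4 * K ^ 2 * Bx ^ 2 * V)))) :=
        le_min hM.le (Real.sqrt_nonneg _)
      have h4 := pow_le_pow_left₀ h3 h2 2
      rwa [Real.sq_sqrt (by positivity)] at h4
    have h2 := mul_le_mul_of_nonneg_left h1 (by positivity : 0 ≤ 4 * K ^ 2 * Bx ^ 2 * V)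
    refine h2.trans (le_of_eq ?_)
    field_simp
  obtain ⟨ε, hε0, hε1, hεr, hlε, hεδ⟩ := s10_eps (c0 + Kb + Z) δ r0 hδ0 hr0
  have hεM : ε ≤ M := hεr.trans hr0M
  have hεΓ : 4 * K ^ 2 * Bx ^ 2 * V * ε ^ 2 ≤ Γ / 8 := by
    refine le_trans ?_ hr0e
    have h1 := pow_le_pow_left₀ hε0.le hεr 2
    exact mul_le_mul_of_nonneg_left h1 (by positivity)
  have hLgle : ∀ j, ∀ t ∈ Icc a b, Lg Ω ε (u j t) ≤ L1 := fun j t ht => by
    rw [hL1]
    exact f10_Lg_le hO hb (hcu j t ht) (hu0 j t ht) (hMu j t ht) hε0 hε1.le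
  have hEr : ∀ j, ∀ t ∈ Icc a b, Er Ω ε (u j t) ≤ (c0 - Lg Ω ε (u j t)) / Real.log (1 / ε) :=
    fun j t ht => by
      rw [hc0, hVdef]
      exact h5 Ω hO hb (u j t) (hcu j t ht) M (fun x hx => ⟨hu0 j t ht x hx, hMu j t ht x hx⟩)
        ε hε0 hε1
  have hEr0 : ∀ j, ∀ t ∈ Icc a b, 0 ≤ Er Ω ε (u j t) := fun j t ht =>
    setIntegral_nonneg hO.measurableSet fun x hx => by
      have := hu0 j t ht x (subset_closure hx)
      positivity
  have hErV : ∀ j, ∀ t ∈ Icc a b, Er Ω ε (u j t) ≤ V := fun j t ht => by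
    have hpos : ∀ x ∈ closure Ω, 0 < u j t x + ε := fun x hx => by
      have := hu0 j t ht x hx
      linarith
    have h := setIntegral_mono_on (p_A2 Ω hb _ ((continuousOn_const (c := ε)).div
        ((hcu j t ht).add continuousOn_const) fun x hx => (hpos x hx).ne'))
      (integrableOn_const hb.measure_lt_top.ne : IntegrableOn (fun _ : Sp n => (1:ℝ)) Ω)
      hO.measurableSet fun x hx => by
        have h1 := hpos x (subset_closure hx)
        have h2 := hu0 j t ht x (subset_closure hx)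
        show ε / (u j t x + ε) ≤ 1
        rw [div_le_one h1]
        linarith
    rw [setIntegral_const, smul_eq_mul, mul_one] at h
    rw [hVdef]
    exact h
  -- the lower bound of the logarithmic integral
  have hXa : - KA ≤ Lg Ω ε (u k (a + 1)) :=
    hKA T hT a ((Icc_subset_Icc_right h1b).trans hIcc) u ut Du lu hs
      (fun j t ht => hMu j t ⟨ht.1, ht.2.trans h1b⟩) hmk ε hε0 hε1.le
  have hXl : ∀ t ∈ Icc (a + 1) b, - KA - R * V * (t - (a + 1)) ≤ Lg Ω ε (u k t) := by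
    intro t ht
    have h := f10_grow (f := fun s => Lg Ω ε (u k s)) (c := - (R * V)) ht.1 fun s hs' => by
      have hsI : s ∈ Icc a b := ⟨by linarith [hs'.1], hs'.2.trans ht.2⟩
      rw [hVdef]
      exact f10_dLg h3 hDm hm hd hT hs hε0 k (hIcc hsI) (hpt s hsI)
    linarith
  have hXb : ∀ t ∈ Icc (a + 1) b, - Kb ≤ Lg Ω ε (u k t) := by
    intro t ht
    have h := hXl t ht
    have h' : R * V * (t - (a + 1)) ≤ R * V * (b - a) :=
      mul_le_mul_of_nonneg_left (by linarith [ht.2]) (by positivity)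
    have := le_abs_self KA
    rw [hKb]
    linarith
  obtain ⟨mid, hmid⟩ : ∃ mid : Finset (Fin N), mid =
    Finset.univ.filter (fun j => j ≠ k ∧ j ≠ l ∧ j ∉ L) := ⟨_, rfl⟩
  have hmidmem : ∀ j, j ∈ mid ↔ j ≠ k ∧ j ≠ l ∧ j ∉ L := fun j => by simp [hmid]
  -- small mass or large logarithmic integral
  have hdich : ∀ t ∈ Icc (a + 1) b, ∀ i ∈ mid,
      mass Ω (u i t) ≤ κm ∨ 0 ≤ Lg Ω ε (u i t) - Lg Ω ε (u k t) + K0 := by
    intro t ht1I i hi
    have htI : t ∈ Icc a b := ⟨by linarith [ht1I.1], ht1I.2⟩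
    rcases le_or_gt (mass Ω (u i t)) κm with h | h
    · exact Or.inl h
    · right
      have h1 := (hbd i (t - 1) t (by linarith [ht1I.1]) (by linarith) ht1I.2).2
      have h2 : κm * Real.exp (-R) ≤ mass Ω (u i (t - 1)) := by
        have h3 : t - (t - 1) = 1 := by ring
        rw [h3, mul_one] at h1
        have h4 : κm * Real.exp (-R) ≤ mass Ω (u i (t - 1)) * Real.exp R * Real.exp (-R) :=
          mul_le_mul_of_nonneg_right (h.le.trans h1) (Real.exp_pos _).le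
        rw [mul_assoc, ← Real.exp_add, add_neg_cancel, Real.exp_zero, mul_one] at h4
        exact h4
      have h3 : Icc (t - 1) (t - 1 + 1) ⊆ Icc a b := by
        rw [sub_add_cancel]
        exact Icc_subset_Icc (by linarith [ht1I.1]) ht1I.2
      have h4 := hKf i T hT (t - 1) (h3.trans hIcc) u ut Du lu hs
        (fun j s hs' => hMu j s (h3 hs')) h2 ε hε0 hε1.le
      rw [sub_add_cancel] at h4
      have h5 := hLgle k t htI
      have h6 := hKfi i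
      linarith
  -- errors
  have herr : ∀ t ∈ Icc (a + 1) b, R * ((2 + K * m₀) * Er Ω ε (u k t) +
      ∑ i ∈ mid, sg (Lg Ω ε (u i t) - Lg Ω ε (u k t) + K0) * Er Ω ε (u i t)) ≤ G / 2 := by
    intro t ht1I
    have htI : t ∈ Icc a b := ⟨by linarith [ht1I.1], ht1I.2⟩
    have hXt := hXb t ht1I
    have hk : Er Ω ε (u k t) ≤ δ := by
      refine (hEr k t htI).trans (le_trans ?_ hεδ)
      exact div_le_div_of_nonneg_right (by linarith) hlε.le
    have hi : ∀ i, sg (Lg Ω ε (u i t) - Lg Ω ε (u k t) + K0) * Er Ω ε (u i t) ≤ δ := by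
      intro i
      obtain ⟨g, hg⟩ : ∃ g, g = Lg Ω ε (u i t) - Lg Ω ε (u k t) + K0 := ⟨_, rfl⟩
      rw [← hg]
      have hE0 := hEr0 i t htI
      rcases le_or_gt (-Z) (Lg Ω ε (u i t)) with h | h
      · have h1 : Er Ω ε (u i t) ≤ δ := by
          refine (hEr i t htI).trans (le_trans ?_ hεδ)
          exact div_le_div_of_nonneg_right (by linarith) hlε.le
        have h2 := mul_le_mul_of_nonneg_right (f10_sg_le_one g) hE0
        linarith
      · have h1 : sg g ≤ Real.exp (-(V / δ)) := by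
          refine (f10_sg_le_exp g).trans (Real.exp_le_exp.2 ?_)
          rw [hg]
          linarith
        have h2 : V * Real.exp (-(V / δ)) ≤ δ := by
          rw [Real.exp_neg, ← div_eq_mul_inv, div_le_iff₀ (Real.exp_pos _)]
          have h3 := Real.add_one_le_exp (V / δ)
          have h4 : δ * (V / δ) = V := by field_simp
          have h5 := mul_le_mul_of_nonneg_left h3 hδ0.le
          linarith
        calc sg g * Er Ω ε (u i t) ≤ Real.exp (-(V / δ)) * V :=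
              mul_le_mul h1 (hErV i t htI) hE0 (Real.exp_pos _).le
          _ ≤ δ := by linarith
    have hsum : ∑ i ∈ mid, sg (Lg Ω ε (u i t) - Lg Ω ε (u k t) + K0) * Er Ω ε (u i t) ≤
        N * δ := by
      refine (Finset.sum_le_card_nsmul mid _ δ fun i _ => hi i).trans ?_
      rw [nsmul_eq_mul]
      refine mul_le_mul_of_nonneg_right ?_ hδ0.le
      have h1 : mid.card ≤ N := by
        simpa using Finset.card_le_univ mid
      exact_mod_cast h1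
    have h1 : R * ((2 + K * m₀) * δ + N * δ) = G / 2 := by
      rw [hδ]
      field_simp
    rw [← h1]
    have h2 := mul_le_mul_of_nonneg_left hk (by positivity : 0 ≤ 2 + K * m₀)
    exact mul_le_mul_of_nonneg_left (by linarith) hR.le
  have hgrow : G / 2 * (b - (a + 1)) ≤
      Uf.PsU Ω k l mid K0 K (1 / (4 * N)) ε m (fun j => u j b) -
      Uf.PsU Ω k l mid K0 K (1 / (4 * N)) ε m (fun j => u j (a + 1)) := by
    refine f10_grow (f := fun s => Uf.PsU Ω k l mid K0 K (1 / (4 * N)) ε m (fun j => u j s))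
      hcase ?_
    intro t ht
    have htI : t ∈ Icc a b := ⟨by linarith [ht.1], ht.2⟩
    obtain ⟨ψ', h1, h2⟩ := h7 Ω P hDm d m ψ Dψ hψ hmψ hd m₀ hm₀ hmm k l mid L hkl
      (by simp [hmidmem])
      (by simp [hmidmem]) hkL hlL (by
        rw [Finset.disjoint_left]
        intro j hj hj'
        exact ((hmidmem j).1 hj).2.2 hj') (by
        intro j
        by_cases h1 : j = k
        · exact Or.inl h1
        by_cases h2 : j = l
        · exact Or.inr (Or.inl h2)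
        by_cases h3 : j ∈ L
        · exact Or.inr (Or.inr (Or.inr h3))
        · exact Or.inr (Or.inr (Or.inl ((hmidmem j).2 ⟨h1, h2, h3⟩))))
      D R M C₁ K Bx e hD hR hM hC₁ hCE (hout l hlL hkl.symm) (by
        intro i hi
        have h := (hmidmem i).1 hi
        exact hout i h.2.2 h.1) hdkD hKm hKC hBx hdkB X g hX hg hXg hdiv hXe
      T hT u ut Du lu hs t (hIcc htI)
      (fun j => hMu j t htI) (hpt t htI) (hsl t htI) ε hε0 hεM κm ν K0 hκm.le (hdich t ht)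
      (hlow t htI)
    refine ⟨ψ', h1, ?_⟩
    have h8 := herr t ht
    rw [← hΓ] at h2
    have h9 : d k * (Γ - 4 * K ^ 2 * m₀ * e - Γ / 8
            - d k * (K * Bx ^ 2 * vol Ω + 9 * N ^ 2 * K ^ 2 * Bx ^ 2 * M ^ 2 * vol Ω / D)
            - K * Bx * (N * κm + ν)) ≤ d k * (Γ - 4 * K ^ 2 * m₀ * e
            - 4 * K ^ 2 * Bx ^ 2 * vol Ω * ε ^ 2
            - d k * (K * Bx ^ 2 * vol Ω + 9 * N ^ 2 * K ^ 2 * Bx ^ 2 * M ^ 2 * vol Ω / D)
            - K * Bx * (N * κm + ν)) := by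
      refine mul_le_mul_of_nonneg_left ?_ hdk0.le
      rw [← hVdef]
      linarith
    linarith
  -- the bounds of the functional
  have ha1I : a + 1 ∈ Icc a b := ⟨by linarith, hcase⟩
  have hub := (s10_bounds (k := k) (l := l) (mid := mid) (K0 := K0) hDm hm hmm0 hK0 hm₀
    hM hε0 hε1.le hL1 hK00 (fun j => hcu j b hbI) (fun j => hu0 j b hbI) (fun j => hMu j b hbI)
    (hmlpos b hbI)).1 q hq hml
  have hlb := (s10_bounds (k := k) (l := l) (mid := mid) (K0 := K0) hDm hm hmm0 hK0 hm₀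
    hM hε0 hε1.le hL1 hK00 (fun j => hcu j (a + 1) ha1I) (fun j => hu0 j (a + 1) ha1I)
    (fun j => hMu j (a + 1) ha1I) (hmlpos (a + 1) ha1I)).2
  rw [← hVdef] at hub hlb
  have h10 : G / 2 * (b - (a + 1)) ≤ |C1| + |C2| := by
    have e1 := le_abs_self C1
    have e2 := le_abs_self C2
    have e3 : - ((1 + K * m₀) * |KA|) ≤ (1 + K * m₀) * Lg Ω ε (u k (a + 1)) := by
      have h1 : - |KA| ≤ Lg Ω ε (u k (a + 1)) := by
        have := le_abs_self KA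
        linarith
      have h2 := mul_le_mul_of_nonneg_left h1 (by positivity : 0 ≤ 1 + K * m₀)
      linarith
    have e4 : C1 + C2 ≤ |C1| + |C2| := by linarith
    refine le_trans ?_ e4
    rw [hC1, hC2]
    linarith
  have h11 : b - (a + 1) ≤ 2 / G * (|C1| + |C2|) := by
    have e1 : 2 / G * (G / 2 * (b - (a + 1))) = b - (a + 1) := by field_simp
    rw [← e1]
    exact mul_le_mul_of_nonneg_left h10 (by positivity)
  linarith

/-- the gradient of `ψ` does not vanish -/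
private theorem s10_grad {n : ℕ} {Ω : Set (Sp n)} {P : ℝ} (hD : Dom Ω P) {m ψ : Sp n → ℝ}
    {Dψ : Sp n → Sp n} (hψ : C1 Ω ψ Dψ) (hmψ : ∀ x ∈ closure Ω, 0 ≤ ψ x ∧ m x = ψ x ^ 2)
    (hnc : ∃ x ∈ closure Ω, ∃ y ∈ closure Ω, m x ≠ m y) : 0 < ∫ x in Ω, ‖Dψ x‖ ^ 2 := by
  have hO := hD.isOpen
  have hb := hD.bdd
  have h0 : 0 ≤ ∫ x in Ω, ‖Dψ x‖ ^ 2 := integral_nonneg fun x => sq_nonneg _
  rcases h0.lt_or_eq with h | h
  · exact h
  exfalso
  obtain ⟨c, hc⟩ := hD.poinc ψ Dψ hψ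
  rw [← h, mul_zero] at hc
  have h1 : ∫ x in Ω, (ψ x - c) ^ 2 = 0 :=
    le_antisymm hc (integral_nonneg fun x => sq_nonneg _)
  have hcont : ContinuousOn (fun x => (ψ x - c) ^ 2) (closure Ω) :=
    (hψ.cont.sub continuousOn_const).pow 2
  have hae : (fun x => (ψ x - c) ^ 2) =ᵐ[volume.restrict Ω] (fun _ => (0 : ℝ)) :=
    (setIntegral_eq_zero_iff_of_nonneg_ae (ae_of_all _ fun x => sq_nonneg _)
      (p_A2 Ω hb _ hcont)).1 h1
  have h2 : EqOn (fun x => (ψ x - c) ^ 2) (fun _ => (0 : ℝ)) Ω :=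
    Measure.eqOn_open_of_ae_eq hae hO (hcont.mono subset_closure) continuousOn_const
  have h3 : EqOn (fun x => (ψ x - c) ^ 2) (fun _ => (0 : ℝ)) (closure Ω) :=
    h2.of_subset_closure hcont continuousOn_const subset_closure subset_rfl
  have h4 : ∀ x ∈ closure Ω, ψ x = c := fun x hx => by
    have h5 := h3 hx
    simp only at h5
    have h6 : ψ x - c = 0 := by simpa using h5
    linarith
  obtain ⟨x, hx, y, hy, hxy⟩ := hnc
  apply hxy
  rw [(hmψ x hx).2, (hmψ y hy).2, h4 x hx, h4 y hy]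

/-- **S10** -/
theorem p_S10 (hP : StmP) (h0 : Uf.StmU0) (h3 : Ff.StmF3) (h4 : StmF4) (h5 : StmF5) (h9 : StmF9)
    (hc3 : StmC3) (hs3 : StmS3) (h7 : StmS7) : StmS10 := by
  intro n N Ω hΩ m ψ Dψ hψ hmψ hnc D hD
  obtain ⟨P, hP0, hPP⟩ := hP Ω hΩ
  have hDom : Dom Ω P := ⟨hΩ.isOpen, hΩ.nonempty, hΩ.bdd, hPP, hP0⟩
  have hO := hΩ.isOpen
  have hb := hΩ.bdd
  have hV := f10_vol_pos hDom
  have hcc : IsCompact (closure Ω) := hb.isCompact_closure
  have hm : ContinuousOn m (closure Ω) := (hψ.cont.pow 2).congr fun x hx => (hmψ x hx).2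
  obtain ⟨m1, hm1⟩ := hcc.exists_bound_of_continuousOn hm
  obtain ⟨m₀, hm₀def⟩ : ∃ m₀, m₀ = |m1| + 1 := ⟨_, rfl⟩
  have hm₀ : 0 < m₀ := by rw [hm₀def]; positivity
  have hmm : ∀ x ∈ closure Ω, |m x| ≤ m₀ := fun x hx => by
    have h1 := hm1 x hx
    rw [Real.norm_eq_abs] at h1
    have h2 := le_abs_self m1
    rw [hm₀def]
    linarith
  have hmm' : ∀ x ∈ closure Ω, m x ≤ m₀ := fun x hx => (abs_le.1 (hmm x hx)).2
  obtain ⟨R, hR⟩ : ∃ R : ℝ, R = m₀ + N * (2 * m₀) := ⟨_, rfl⟩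
  have hR0 : 0 < R := by
    rw [hR]
    positivity
  obtain ⟨C₁, hC, hCE⟩ := hc3 Ω hΩ (D / (8 * R)) (by positivity)
  obtain ⟨K, hK⟩ : ∃ K, K = 4 * (P / D * (10 + 2 * (vol Ω * C₁) ^ 2)) + 1 / (2 * m₀) :=
    ⟨_, rfl⟩
  have hK0 : 0 < K := by rw [hK]; positivity
  have hKC : 4 * (P / D * (10 + 2 * (vol Ω * C₁) ^ 2)) ≤ K := by
    have : 0 < 1 / (2 * m₀) := by positivity
    rw [hK]
    linarith
  have hKm : 1 ≤ 2 * m₀ * K := by
    have h1 : 1 / (2 * m₀) ≤ K := by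
      have : 0 ≤ 4 * (P / D * (10 + 2 * (vol Ω * C₁) ^ 2)) := by positivity
      rw [hK]
      linarith
    rw [div_le_iff₀ (by positivity)] at h1
    linarith
  have hgrad := s10_grad hDom hψ hmψ hnc
  obtain ⟨Γ, hΓ⟩ : ∃ Γ, Γ = 1 / (2 * m₀) * (∫ x in Ω, ‖Dψ x‖ ^ 2) := ⟨_, rfl⟩
  have hΓ0 : 0 < Γ := by rw [hΓ]; positivity
  obtain ⟨e, he⟩ : ∃ e, e = Γ / (8 * (4 * K ^ 2 * m₀)) := ⟨_, rfl⟩
  have he0 : 0 < e := by rw [he]; positivity
  have hee : 4 * K ^ 2 * m₀ * e = Γ / 8 := by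
    rw [he]
    field_simp
  obtain ⟨X, g, Bx, hX, hg, hBx, hXg, hdiv, hXe⟩ := hs3 Ω hO hb ψ Dψ hψ
    (fun x hx => (hmψ x hx).1) e he0
  obtain ⟨M, hM⟩ : ∃ M, M = 2 * m₀ := ⟨_, rfl⟩
  have hM0 : 0 < M := by rw [hM]; positivity
  obtain ⟨Z, hZ⟩ : ∃ Z, Z = K * Bx ^ 2 * vol Ω +
    9 * (N : ℝ) ^ 2 * K ^ 2 * Bx ^ 2 * M ^ 2 * vol Ω / D := ⟨_, rfl⟩
  have hZ0 : 0 < Z := by
    rw [hZ]
    have h1 : 0 < K * Bx ^ 2 * vol Ω := by positivity
    have h2 : 0 ≤ 9 * (N : ℝ) ^ 2 * K ^ 2 * Bx ^ 2 * M ^ 2 * vol Ω / D := by positivity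
    linarith
  refine ⟨min D (min (1 / (16 * K * Bx ^ 2)) (Γ / (8 * Z))), lt_min hD
    (lt_min (by positivity) (by positivity)), ?_⟩
  intro d hd k l L hkl hkL hlL hdk hout M' A q hA hq
  have hdkD : d k ≤ D := hdk.trans (min_le_left _ _)
  have hdkB : 16 * K * Bx ^ 2 * d k ≤ 1 := by
    have h1 : d k ≤ 1 / (16 * K * Bx ^ 2) := hdk.trans ((min_le_right _ _).trans (min_le_left _ _))
    rw [le_div_iff₀ (by positivity)] at h1
    linarith
  have hdkZ : d k * Z ≤ Γ / 8 := by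
    have h1 : d k ≤ Γ / (8 * Z) := hdk.trans ((min_le_right _ _).trans (min_le_right _ _))
    rw [le_div_iff₀ (by positivity)] at h1
    linarith
  have hN0 : (0 : ℝ) < N := by exact_mod_cast k.pos
  obtain ⟨κm, hκm⟩ : ∃ κm, κm = Γ / (16 * (K * Bx) * N) := ⟨_, rfl⟩
  have hκm0 : 0 < κm := by rw [hκm]; positivity
  obtain ⟨ν, hν⟩ : ∃ ν, ν = Γ / (16 * (K * Bx)) := ⟨_, rfl⟩
  have hν0 : 0 < ν := by rw [hν]; positivity
  have hκν : K * Bx * (N * κm + ν) = Γ / 8 := by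
    rw [hκm, hν]
    field_simp
    norm_num
  obtain ⟨G, hG⟩ : ∃ G, G = d k * (Γ / 2) := ⟨_, rfl⟩
  have hdk0 := hd k
  have hG0 : 0 < G := by rw [hG]; positivity
  have hGG : G ≤ d k * (Γ - 4 * K ^ 2 * m₀ * e - Γ / 8
            - d k * (K * Bx ^ 2 * vol Ω + 9 * N ^ 2 * K ^ 2 * Bx ^ 2 * M ^ 2 * vol Ω / D)
            - K * Bx * (N * κm + ν)) := by
    rw [hG, ← hZ, hκν, hee]
    exact mul_le_mul_of_nonneg_left (by linarith) hdk0.le
  obtain ⟨τ, hτ0, hτ⟩ := h0 Ω hO hb m hm m₀ hm₀ hmm' d hd M'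
  obtain ⟨RM, hRM⟩ : ∃ RM, RM = m₀ + N * |M'| := ⟨_, rfl⟩
  have hA' : 0 < A * Real.exp (- (RM * τ)) := by positivity
  obtain ⟨S, hS⟩ := s10_core h3 h4 h5 h7 h9 Ω P hDom d m ψ Dψ hψ hmψ hm hd m₀ hm₀ hmm' k l L hkl
    hkL hlL D R M C₁ K Bx e hD hR0 hM0 hC hCE hout hdkD hKm hK0 hKC hBx hdkB X g hX hg hXg hdiv
    hXe κm ν G Γ hκm0 hG0 hΓ0 hΓ hGG
    (fun v hv x hx => by
      have h1 := hmm x hx
      have h2 : |∑ k, v k x| ≤ N * (2 * m₀) := by
        refine (Finset.abs_sum_le_sum_abs _ _).trans ?_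
        refine (Finset.sum_le_card_nsmul _ _ (2 * m₀) fun i _ => ?_).trans (le_of_eq ?_)
        · rw [abs_of_nonneg (hv i x hx).1, ← hM]
          exact (hv i x hx).2
        · simp
      rw [hR]
      exact (abs_sub _ _).trans (by linarith))
    (A * Real.exp (- (RM * τ))) q hA' hq
  refine ⟨τ + |S|, ν, hν0, ?_⟩
  intro T hT a b hab hIcc u ut Du lu hs hMu hmk hlow hml
  have hSa := le_abs_self S
  have hSa0 := abs_nonneg S
  rcases lt_or_ge b (a + τ) with hcc | hcc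
  · linarith
  have hsub : Icc (a + τ) b ⊆ Icc a b := Icc_subset_Icc_left (by linarith)
  have hn := hs.nonneg
  have hmass := (h4 Ω hO hb d m hm T hT u ut Du lu hs k).2 RM a (a + τ) (by linarith)
    ((Icc_subset_Icc_right hcc).trans hIcc) (fun t ht x hx => by
      have htI : t ∈ Icc a b := ⟨ht.1, ht.2.trans hcc⟩
      have h1 := hmm x hx
      have h2 : |∑ k, u k t x| ≤ N * |M'| := by
        refine (Finset.abs_sum_le_sum_abs _ _).trans ?_
        refine (Finset.sum_le_card_nsmul _ _ |M'| fun i _ => ?_).trans (le_of_eq ?_)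
        · rw [abs_of_nonneg (hn i t (hIcc htI) x hx)]
          exact (hMu i t htI x hx).trans (le_abs_self _)
        · simp
      rw [hRM]
      exact (abs_sub _ _).trans (by linarith))
  have hmk' : A * Real.exp (- (RM * τ)) ≤ mass Ω (u k (a + τ)) := by
    refine le_trans ?_ hmass.1
    have h1 : a + τ - a = τ := by ring
    rw [h1]
    exact mul_le_mul_of_nonneg_right hmk (Real.exp_pos _).le
  have h := hS T hT (a + τ) b hcc (hsub.trans hIcc) u ut Du lu hs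
    (fun j t ht x hx => by
      rw [hM]
      exact hτ T hT a b hIcc u ut Du lu hs hMu j t ht x hx) hmk'
    (fun t ht => hlow t (hsub ht)) hml
  linarith

end Pool.Agent.Lib.MP_d8ef8f_an.Sf
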