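import Pool.Agent.Lib.MP_d8ef8f_an.Sf.Stm
import Pool.Agent.Lib.MP_d8ef8f_an.Gd.A2

/-!
# Piece S2: a species with rate at least `D` (static)
-/

set_option autoImplicit false

namespace Pool.Agent.Lib.MP_d8ef8f_an.Sf

open Set Filter Topology MeasureTheory
open Pool.Agent.Lib.MP_d8ef8f_an.Gd Pool.Agent.Lib.MP_d8ef8f_an.Ff

private theorem young (q a b : ℝ) (ha : 0 ≤ a) (hb : 0 ≤ b) (h : q ^ 2 ≤ a * b) :
    2 * q ≤ a + b := by
  refine le_of_abs_le (abs_le_of_sq_le_sq ?_ (by linarith))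
  nlinarith [sq_nonneg (a - b)]

private theorem alg (V s W G P D d C Q H A B T W2 cb : ℝ) (hV : 0 < V) (hs : 0 < s)
    (hW : 0 ≤ W) (hG : 0 ≤ G) (hP : 0 < P) (hD : 0 < D) (hd : D ≤ d) (hC : 0 ≤ C) (hQ : 0 ≤ Q)
    (h1 : s = cb ^ 2 * V + W) (h2 : W ≤ P * G) (h3 : H ^ 2 ≤ V * Q) (h4 : A ≤ W2)
    (h5 : B ^ 2 ≤ W * Q) (h6 : W2 ≤ D / 8 * G + C * W * T) (h7 : T ^ 2 ≤ V * Q) :
    1 / 2 * (V * d * G / s) - P / D * (10 + 2 * (V * C) ^ 2) * Q
      ≤ H - V * ((A + 2 * cb * B + cb ^ 2 * H - d * G) / s) := by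
  have hd0 : 0 < d := hD.trans_le hd
  set κ := V * cb / s with hκ
  set X := V * d * G / s with hX
  set y := W / s with hy
  have hX0 : 0 ≤ X := by positivity
  have hy0 : 0 ≤ y := by positivity
  have hy1 : y ≤ 1 := by
    rw [hy, div_le_one hs, h1]
    have : 0 ≤ cb ^ 2 * V := by positivity
    linarith
  have hyV : y * V ≤ P / d * X := by
    have e : P / d * X = P * G / s * V := by
      rw [hX]; field_simp
    rw [e, hy]
    exact mul_le_mul_of_nonneg_right (div_le_div_of_nonneg_right h2 hs.le) hV.le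
  have hκ2 : κ ^ 2 ≤ V / s := by
    rw [hκ, div_pow, div_le_div_iff₀ (by positivity) hs]
    have h10 : cb ^ 2 * V ≤ s := by linarith
    have h11 := mul_le_mul_of_nonneg_left h10 (by positivity : 0 ≤ V * s)
    nlinarith [h11]
  set Z := P / d * Q with hZ
  have hZ0 : 0 ≤ Z := by positivity
  -- square bounds
  have key : ∀ q : ℝ, q ^ 2 ≤ V * Q → (y * q) ^ 2 ≤ X * Z := by
    intro q hq
    calc (y * q) ^ 2 = y * (y * q ^ 2) := by ring
      _ ≤ 1 * (y * (V * Q)) := by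
          refine mul_le_mul hy1 (mul_le_mul_of_nonneg_left hq hy0) (by positivity) (by norm_num)
      _ = (y * V) * Q := by ring
      _ ≤ (P / d * X) * Q := mul_le_mul_of_nonneg_right hyV hQ
      _ = X * Z := by rw [hZ]; ring
  have e1 : 2 * (-(y * H) / 2) ≤ X / 8 + 2 * Z := by
    refine young _ _ _ (by positivity) (by positivity) ?_
    have := key H h3
    nlinarith [this]
  have e2 : 2 * (κ * B) ≤ X / 8 + 8 * Z := by
    refine young _ _ _ (by positivity) (by positivity) ?_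
    have h13 : κ ^ 2 * B ^ 2 ≤ V / s * (P * G * Q) := by
      refine mul_le_mul hκ2 (h5.trans ?_) (sq_nonneg _) (by positivity)
      exact mul_le_mul_of_nonneg_right h2 hQ
    have h14 : V / s * (P * G * Q) = X * Z := by
      rw [hX, hZ]; field_simp
    calc (κ * B) ^ 2 = κ ^ 2 * B ^ 2 := by ring
      _ ≤ _ := h13
      _ = X * Z := h14
      _ = X / 8 * (8 * Z) := by ring
  have e3 : 2 * (V * C * (y * T) / 2) ≤ X / 8 + 2 * (V * C) ^ 2 * Z := by
    refine young _ _ _ (by positivity) (by positivity) ?_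
    have h15 := mul_le_mul_of_nonneg_left (key T h7) (sq_nonneg (V * C))
    calc (V * C * (y * T) / 2) ^ 2 = (V * C) ^ 2 * (y * T) ^ 2 / 4 := by ring
      _ ≤ (V * C) ^ 2 * (X * Z) / 4 := by linarith
      _ = X / 8 * (2 * (V * C) ^ 2 * Z) := by ring
  have e4 : V * A / s ≤ X / 8 + V * C * (y * T) := by
    have h16 : V * A ≤ V * (D / 8 * G + C * W * T) := mul_le_mul_of_nonneg_left (h4.trans h6) hV.le
    have h17 : V * A / s ≤ V * (D / 8 * G + C * W * T) / s := div_le_div_of_nonneg_right h16 hs.le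
    have h18 : V * (D / 8 * G + C * W * T) / s = V * D * G / s / 8 + V * C * (y * T) := by
      rw [hy]; field_simp
    have h19 : V * D * G / s ≤ X := by
      rw [hX]
      refine div_le_div_of_nonneg_right ?_ hs.le
      exact mul_le_mul_of_nonneg_right (mul_le_mul_of_nonneg_left hd hV.le) hG
    linarith
  have e5 : Z ≤ P / D * Q := by
    rw [hZ]
    exact mul_le_mul_of_nonneg_right (div_le_div_of_nonneg_left hP.le hD hd) hQ
  have e6 : (10 + 2 * (V * C) ^ 2) * Z ≤ (10 + 2 * (V * C) ^ 2) * (P / D * Q) :=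
    mul_le_mul_of_nonneg_left e5 (by positivity)
  have hRHS : H - V * ((A + 2 * cb * B + cb ^ 2 * H - d * G) / s) =
      y * H - V * A / s - 2 * (κ * B) + X := by
    rw [hκ, hX, hy]
    field_simp
    linear_combination H * h1
  rw [hRHS]
  have e7 : P / D * (10 + 2 * (V * C) ^ 2) * Q = (10 + 2 * (V * C) ^ 2) * (P / D * Q) := by ring
  rw [e7]
  nlinarith [e1, e2, e3, e4, e6]

private theorem disc {a b c : ℝ} (h : ∀ t : ℝ, 0 ≤ a + 2 * t * b + t ^ 2 * c) :
    b ^ 2 ≤ a * c := by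
  have h1 : discrim c (2 * b) a ≤ 0 := discrim_le_zero fun t => by
    have := h t
    nlinarith
  rw [discrim] at h1
  nlinarith

private theorem sum3 {n : ℕ} {Ω : Set (Sp n)} (hm : MeasurableSet Ω) {f g h F : Sp n → ℝ}
    (hf : IntegrableOn f Ω) (hg : IntegrableOn g Ω) (hh : IntegrableOn h Ω)
    (e : ∀ x ∈ Ω, f x + g x + h x = F x) :
    (∫ x in Ω, f x) + (∫ x in Ω, g x) + (∫ x in Ω, h x) = ∫ x in Ω, F x := by
  have e1 : (∫ x in Ω, f x) + (∫ x in Ω, g x) = ∫ x in Ω, (f x + g x) :=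
    (integral_add hf hg).symm
  have e2 : (∫ x in Ω, (f x + g x)) + (∫ x in Ω, h x) = ∫ x in Ω, (f x + g x + h x) :=
    (integral_add (hf.add hg) hh).symm
  rw [e1, e2]
  exact setIntegral_congr_fun hm fun x hx => e x hx

private theorem cs {n : ℕ} {Ω : Set (Sp n)} (hm : MeasurableSet Ω)
    (hb : Bornology.IsBounded Ω) {f g : Sp n → ℝ}
    (hf : ContinuousOn f (closure Ω)) (hg : ContinuousOn g (closure Ω)) :
    (∫ x in Ω, f x * g x) ^ 2 ≤ (∫ x in Ω, f x ^ 2) * ∫ x in Ω, g x ^ 2 := by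
  refine disc fun t => ?_
  have i1 : IntegrableOn (fun x => f x ^ 2) Ω := p_A2 Ω hb _ (hf.pow 2)
  have i2 : IntegrableOn (fun x => 2 * t * (f x * g x)) Ω :=
    p_A2 Ω hb _ (continuousOn_const.mul (hf.mul hg))
  have i3 : IntegrableOn (fun x => t ^ 2 * g x ^ 2) Ω :=
    p_A2 Ω hb _ (continuousOn_const.mul (hg.pow 2))
  have e : (∫ x in Ω, f x ^ 2) + 2 * t * (∫ x in Ω, f x * g x) + t ^ 2 * (∫ x in Ω, g x ^ 2) =
      ∫ x in Ω, (f x + t * g x) ^ 2 := by
    rw [← integral_const_mul, ← integral_const_mul]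
    exact sum3 hm i1 i2 i3 fun x _ => by ring
  rw [e]
  exact integral_nonneg fun x => sq_nonneg _

theorem p_S2 : StmS2 := by
  intro n Ω P hDom D R C₁ hD hR hC hCE u Du hu hs h hh hhR d hd
  have hb := hDom.bdd
  have hmeas := hDom.isOpen.measurableSet
  have hfin : volume Ω ≠ ⊤ := (hb.measure_lt_top).ne
  have hV : 0 < vol Ω := by
    refine ENNReal.toReal_pos (hDom.isOpen.measure_pos _ hDom.nonempty).ne' ?_
    exact hfin
  have hconst : ∀ r : ℝ, ∫ _ in Ω, r = r * vol Ω := by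
    intro r
    rw [setIntegral_const, smul_eq_mul, mul_comm]
    rfl
  set V := vol Ω with hVdef
  set cb : ℝ := (∫ x in Ω, u x) / V with hcb
  set w : Sp n → ℝ := fun x => u x - cb with hw
  have hwc : ContinuousOn w (closure Ω) := hu.cont.sub continuousOn_const
  have hwC1 : C1 Ω w Du := by
    refine ⟨hwc, hu.contD, fun x hx => ?_⟩
    have h1 := hu.grad x hx
    rw [hasGradientAt_iff_hasFDerivAt] at h1 ⊢
    simpa [hw] using h1.sub_const cb
  have iu : IntegrableOn u Ω := p_A2 Ω hb _ hu.cont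
  have iw : IntegrableOn w Ω := p_A2 Ω hb _ hwc
  have iw2 : IntegrableOn (fun x => w x ^ 2) Ω := p_A2 Ω hb _ (hwc.pow 2)
  have ih : IntegrableOn h Ω := p_A2 Ω hb _ hh
  have hw0 : (∫ x in Ω, w x) = 0 := by
    rw [hw, integral_sub iu (integrableOn_const hfin), hconst, hcb]
    field_simp
    ring
  -- quadratic expansions around the mean
  have hexp : ∀ r : ℝ, (∫ x in Ω, (w x + r) ^ 2) = (∫ x in Ω, w x ^ 2) + r ^ 2 * V := by
    intro r
    have e : (∫ x in Ω, (w x + r) ^ 2) =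
        (∫ x in Ω, w x ^ 2) + (2 * r) * (∫ x in Ω, w x) + ∫ _ in Ω, r ^ 2 := by
      rw [← integral_const_mul]
      exact (sum3 hmeas iw2 (iw.const_mul _) (integrableOn_const hfin) fun x _ => by ring).symm
    rw [e, hw0, hconst]
    ring
  have h1 : (∫ x in Ω, u x ^ 2) = cb ^ 2 * V + ∫ x in Ω, w x ^ 2 := by
    have e := hexp cb
    have e' : (∫ x in Ω, (w x + cb) ^ 2) = ∫ x in Ω, u x ^ 2 := by
      refine integral_congr_ae (Eventually.of_forall fun x => ?_)
      simp only [hw]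
      ring
    rw [← e', e]
    ring
  have h2 : (∫ x in Ω, w x ^ 2) ≤ P * ∫ x in Ω, ‖Du x‖ ^ 2 := by
    obtain ⟨c', hc'⟩ := hDom.poinc u Du hu
    refine le_trans ?_ hc'
    have e := hexp (cb - c')
    have e' : (∫ x in Ω, (w x + (cb - c')) ^ 2) = ∫ x in Ω, (u x - c') ^ 2 := by
      refine integral_congr_ae (Eventually.of_forall fun x => ?_)
      simp only [hw]
      ring
    rw [← e', e]
    have : 0 ≤ (cb - c') ^ 2 * V := by positivity
    linarith
  have hW0 : 0 ≤ ∫ x in Ω, w x ^ 2 := integral_nonneg fun x => sq_nonneg _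
  have hone : ContinuousOn (fun _ : Sp n => (1 : ℝ)) (closure Ω) := continuousOn_const
  have hone2 : (∫ _ in Ω, (1 : ℝ) ^ 2) = V := by
    rw [one_pow, hconst, one_mul]
  have h3 : (∫ x in Ω, h x) ^ 2 ≤ V * ∫ x in Ω, h x ^ 2 := by
    have e := cs hmeas hb hone hh
    simp only [one_mul] at e
    rwa [hone2] at e
  have h7 : (∫ x in Ω, |h x|) ^ 2 ≤ V * ∫ x in Ω, h x ^ 2 := by
    have e := cs hmeas hb hone hh.abs
    simp only [one_mul, sq_abs] at e
    rwa [hone2] at e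
  have iwh : IntegrableOn (fun x => w x ^ 2 * h x) Ω := p_A2 Ω hb _ ((hwc.pow 2).mul hh)
  have iwah : IntegrableOn (fun x => w x ^ 2 * |h x|) Ω :=
    p_A2 Ω hb _ ((hwc.pow 2).mul hh.abs)
  have h4 : (∫ x in Ω, w x ^ 2 * h x) ≤ ∫ x in Ω, w x ^ 2 * |h x| := by
    refine setIntegral_mono_on iwh iwah hmeas fun x _ => ?_
    exact mul_le_mul_of_nonneg_left (le_abs_self _) (sq_nonneg _)
  have h5 := cs hmeas hb hwc hh
  have h6 : (∫ x in Ω, w x ^ 2 * |h x|) ≤ D / 8 * (∫ x in Ω, ‖Du x‖ ^ 2)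
      + C₁ * (∫ x in Ω, w x ^ 2) * ∫ x in Ω, |h x| := by
    have e := hCE w Du hwC1 (fun x => |h x| / R) (hh.abs.div_const R) (fun x hx =>
      ⟨by positivity, by rw [div_le_one hR]; exact hhR x hx⟩)
    have e1 : (∫ x in Ω, w x ^ 2 * (|h x| / R)) = (∫ x in Ω, w x ^ 2 * |h x|) / R := by
      rw [← integral_div]
      refine integral_congr_ae (Eventually.of_forall fun x => ?_)
      simp only
      ring
    rw [e1, integral_div, div_le_iff₀ hR] at e
    refine e.trans (le_of_eq ?_)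
    field_simp
  have hA : (∫ x in Ω, u x ^ 2 * h x) = (∫ x in Ω, w x ^ 2 * h x)
      + 2 * cb * (∫ x in Ω, w x * h x) + cb ^ 2 * ∫ x in Ω, h x := by
    have j2 : IntegrableOn (fun x => 2 * cb * (w x * h x)) Ω :=
      p_A2 Ω hb _ (continuousOn_const.mul (hwc.mul hh))
    have j3 : IntegrableOn (fun x => cb ^ 2 * h x) Ω := p_A2 Ω hb _ (continuousOn_const.mul hh)
    rw [← integral_const_mul, ← integral_const_mul]
    refine (sum3 hmeas iwh j2 j3 fun x _ => ?_).symm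
    simp only [hw]
    ring
  have := alg V (∫ x in Ω, u x ^ 2) (∫ x in Ω, w x ^ 2) (∫ x in Ω, ‖Du x‖ ^ 2) P D d C₁
    (∫ x in Ω, h x ^ 2) (∫ x in Ω, h x) (∫ x in Ω, w x ^ 2 * h x) (∫ x in Ω, w x * h x)
    (∫ x in Ω, |h x|) (∫ x in Ω, w x ^ 2 * |h x|) cb hV hs hW0
    (integral_nonneg fun x => sq_nonneg _) hDom.hP hD hd hC
    (integral_nonneg fun x => sq_nonneg _) h1 h2 h3 h4 h5 h6 h7
  rw [hA]
  exact this

end Pool.Agent.Lib.MP_d8ef8f_an.Sf
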