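import Pool.Agent.Lib.MP_d8ef8f_an.Sf.Stm

set_option autoImplicit false

/-!
# Slow species, piece S4: the pointwise inequality
-/

namespace Pool.Agent.Lib.MP_d8ef8f_an.Sf

open Set Filter Topology MeasureTheory
open Pool.Agent.Lib.MP_d8ef8f_an.Gd Pool.Agent.Lib.MP_d8ef8f_an.Ff

/-- the inequality between real numbers -/
private theorem S4_real {α g x ρ ψ K h m₀ : ℝ} (hψ : ψ ^ 2 ≤ m₀) (hm₀ : 0 < m₀)
    (hK : 1 ≤ 2 * m₀ * K) :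
    1 / (8 * m₀) * g ^ 2 - 4 * K ^ 2 * m₀ * ρ ^ 2 - 2 * K ^ 2 * h ^ 2 * x ^ 2 ≤
      3 / 4 * α ^ 2 + K * (ψ * α - g) ^ 2 - K * (ψ * (ρ * α)) - K * (h * (x * α)) - K * (ρ * g) := by
  have s1 : K * (ψ * (ρ * α)) ≤ α ^ 2 / 8 + 2 * K ^ 2 * m₀ * ρ ^ 2 := by
    have h1 : 2 * K ^ 2 * ψ ^ 2 * ρ ^ 2 ≤ 2 * K ^ 2 * m₀ * ρ ^ 2 := by
      have := mul_le_mul_of_nonneg_left hψ (by positivity : 0 ≤ 2 * K ^ 2 * ρ ^ 2)
      linarith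
    have h2 := sq_nonneg (α - 4 * K * ψ * ρ)
    nlinarith
  have s2 : K * (h * (x * α)) ≤ α ^ 2 / 8 + 2 * K ^ 2 * h ^ 2 * x ^ 2 := by
    have h2 := sq_nonneg (α - 4 * K * h * x)
    nlinarith
  have s3 : g ^ 2 / (4 * m₀) ≤ α ^ 2 / 2 + K * (ψ * α - g) ^ 2 := by
    rw [div_le_iff₀ (by positivity)]
    have h1 : ψ ^ 2 * α ^ 2 ≤ m₀ * α ^ 2 := mul_le_mul_of_nonneg_right hψ (sq_nonneg _)
    have h2 : (ψ * α - g) ^ 2 ≤ 2 * m₀ * K * (ψ * α - g) ^ 2 := by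
      have := mul_le_mul_of_nonneg_right hK (sq_nonneg (ψ * α - g))
      linarith
    have h3 := sq_nonneg (2 * (ψ * α) - g)
    nlinarith
  have s4 : K * (ρ * g) ≤ g ^ 2 / (8 * m₀) + 2 * K ^ 2 * m₀ * ρ ^ 2 := by
    have e : g ^ 2 / (8 * m₀) + 2 * K ^ 2 * m₀ * ρ ^ 2 - K * (ρ * g) =
        (g - 4 * K * m₀ * ρ) ^ 2 / (8 * m₀) := by
      field_simp
      ring
    have : 0 ≤ (g - 4 * K * m₀ * ρ) ^ 2 / (8 * m₀) := by positivity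
    linarith
  have e1 : g ^ 2 / (4 * m₀) = 2 * (g ^ 2 / (8 * m₀)) := by
    field_simp
    ring
  have e2 : 1 / (8 * m₀) * g ^ 2 = g ^ 2 / (8 * m₀) := by
    field_simp
  rw [e2]
  linarith

/-- the splitting of `u` -/
private theorem S4_split {ψ u h : ℝ} (hu : 0 ≤ u) (hh : 0 ≤ h) (huh : u ≤ ψ ^ 2 + h) :
    ∃ lam v : ℝ, 0 ≤ lam ∧ lam ≤ 1 ∧ 0 ≤ v ∧ v ≤ h ∧ u = lam * ψ ^ 2 + v := by
  rcases le_total u (ψ ^ 2) with h1 | h1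
  · rcases (sq_nonneg ψ).eq_or_lt with h2 | h2
    · exact ⟨0, 0, le_rfl, zero_le_one, le_rfl, hh, by rw [← h2] at h1; linarith⟩
    · refine ⟨u / ψ ^ 2, 0, by positivity, (div_le_one h2).2 h1, le_rfl, hh, ?_⟩
      rw [div_mul_cancel₀ _ h2.ne']
      ring
  · exact ⟨1, u - ψ ^ 2, zero_le_one, le_rfl, by linarith, by linarith, by ring⟩

theorem p_S4 : StmS4 := by
  intro n a G X ψ K u h m₀ hψ0 hψ hm₀ hK hu hh huh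
  have hK0 : 0 < K := by
    by_contra hcon
    push Not at hcon
    nlinarith
  obtain ⟨lam, v, hl0, hl1, hv0, hv1, rfl⟩ := S4_split hu hh huh
  set r : Sp n := G - ψ • X with hr
  have h1 : ψ * inner ℝ X a = inner ℝ G a - inner ℝ r a := by
    rw [hr, inner_sub_left, real_inner_smul_left]
    ring
  have h2 : ψ * inner ℝ X G = ‖G‖ ^ 2 - inner ℝ r G := by
    rw [hr, inner_sub_left, real_inner_smul_left, real_inner_self_eq_norm_sq]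
    ring
  have b1 : inner ℝ G a ≤ ‖G‖ * ‖a‖ := real_inner_le_norm _ _
  have b2 : -(‖r‖ * ‖a‖) ≤ inner ℝ r a := (abs_le.1 (abs_real_inner_le_norm r a)).1
  have b3 : inner ℝ r G ≤ ‖r‖ * ‖G‖ := real_inner_le_norm _ _
  have b4 : inner ℝ X a ≤ ‖X‖ * ‖a‖ := real_inner_le_norm _ _
  have key := S4_real (α := ‖a‖) (g := ‖G‖) (x := ‖X‖) (ρ := ‖r‖) (h := h) hψ hm₀ hK
  refine key.trans ?_
  have e : (3 / 4 + K * ψ ^ 2) * ‖a‖ ^ 2 - K * (ψ * inner ℝ G a) -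
      K * ((lam * ψ ^ 2 + v) * inner ℝ X a) + K * (ψ * inner ℝ X G) =
      3 / 4 * ‖a‖ ^ 2 + K * (ψ ^ 2 * ‖a‖ ^ 2 - (1 + lam) * (ψ * inner ℝ G a) +
        lam * (ψ * inner ℝ r a) - v * inner ℝ X a + ‖G‖ ^ 2 - inner ℝ r G) := by
    have e1 : (lam * ψ ^ 2 + v) * inner ℝ X a = lam * ψ * (ψ * inner ℝ X a) + v * inner ℝ X a := by
      ring
    rw [e1, h1, h2]
    ring
  rw [e]
  have c1 : (1 + lam) * (ψ * inner ℝ G a) ≤ 2 * (ψ * (‖G‖ * ‖a‖)) := by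
    have p1 : (1 + lam) * (ψ * inner ℝ G a) ≤ (1 + lam) * (ψ * (‖G‖ * ‖a‖)) :=
      mul_le_mul_of_nonneg_left (mul_le_mul_of_nonneg_left b1 hψ0) (by linarith)
    have p2 : (1 + lam) * (ψ * (‖G‖ * ‖a‖)) ≤ 2 * (ψ * (‖G‖ * ‖a‖)) :=
      mul_le_mul_of_nonneg_right (by linarith) (by positivity)
    exact p1.trans p2
  have c2 : -(ψ * (‖r‖ * ‖a‖)) ≤ lam * (ψ * inner ℝ r a) := by
    have p1 : lam * (ψ * (-(‖r‖ * ‖a‖))) ≤ lam * (ψ * inner ℝ r a) :=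
      mul_le_mul_of_nonneg_left (mul_le_mul_of_nonneg_left b2 hψ0) hl0
    have p2 : lam * (ψ * (‖r‖ * ‖a‖)) ≤ 1 * (ψ * (‖r‖ * ‖a‖)) :=
      mul_le_mul_of_nonneg_right hl1 (by positivity)
    linarith
  have c3 : v * inner ℝ X a ≤ h * (‖X‖ * ‖a‖) := by
    have p1 : v * inner ℝ X a ≤ v * (‖X‖ * ‖a‖) := mul_le_mul_of_nonneg_left b4 hv0
    have p2 : v * (‖X‖ * ‖a‖) ≤ h * (‖X‖ * ‖a‖) := mul_le_mul_of_nonneg_right hv1 (by positivity)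
    exact p1.trans p2
  have c4 : (ψ * ‖a‖ - ‖G‖) ^ 2 - ψ * (‖r‖ * ‖a‖) - h * (‖X‖ * ‖a‖) - ‖r‖ * ‖G‖ ≤
      ψ ^ 2 * ‖a‖ ^ 2 - (1 + lam) * (ψ * inner ℝ G a) +
        lam * (ψ * inner ℝ r a) - v * inner ℝ X a + ‖G‖ ^ 2 - inner ℝ r G := by
    have : (ψ * ‖a‖ - ‖G‖) ^ 2 = ψ ^ 2 * ‖a‖ ^ 2 - 2 * (ψ * (‖G‖ * ‖a‖)) + ‖G‖ ^ 2 := by ring
    rw [this]
    linarith
  have c5 := mul_le_mul_of_nonneg_left c4 hK0.le
  linarith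

end Pool.Agent.Lib.MP_d8ef8f_an.Sf
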