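import Pool.Agent.Lib.MP_d8ef8f_an.Sf.Stm
import Pool.Agent.Lib.MP_d8ef8f_an.Gd.A2

/-!
# Piece S7: the derivative of the functional, `m = ψ²`
-/

set_option autoImplicit false

namespace Pool.Agent.Lib.MP_d8ef8f_an.Sf

open Set Filter Topology MeasureTheory
open Pool.Agent.Lib.MP_d8ef8f_an.Gd Pool.Agent.Lib.MP_d8ef8f_an.Ff

private theorem s7_sp (g : ℝ) : HasDerivAt sp (sg g) g := by
  have h1 : HasDerivAt (fun x : ℝ => 1 + Real.exp x) (Real.exp g) g :=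
    (Real.hasDerivAt_exp g).const_add 1
  exact h1.log (by positivity)

private theorem s7_sg_pos (g : ℝ) : 0 < sg g := by unfold sg; positivity

private theorem s7_sg_le (g : ℝ) : sg g ≤ 1 := by
  unfold sg
  rw [div_le_one (by positivity)]
  linarith [Real.exp_pos g]

private theorem s7_sg_half {g : ℝ} (hg : 0 ≤ g) : 1 / 2 ≤ sg g := by
  unfold sg
  rw [div_le_div_iff₀ (by norm_num) (by positivity)]
  have := Real.one_le_exp hg
  linarith

private theorem s7_abs {n : ℕ} {Ω : Set (Sp n)} (hO : IsOpen Ω) (hb : Bornology.IsBounded Ω)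
    {F F' : Sp n → ℝ} {R : ℝ} (hF : ContinuousOn F (closure Ω))
    (hF' : ContinuousOn F' (closure Ω)) (h : ∀ x ∈ closure Ω, |F x| ≤ R * F' x) :
    |∫ x in Ω, F x| ≤ R * ∫ x in Ω, F' x := by
  have i1 : IntegrableOn F Ω := p_A2 Ω hb _ hF
  have i2 : IntegrableOn F' Ω := p_A2 Ω hb _ hF'
  calc |∫ x in Ω, F x| ≤ ∫ x in Ω, |F x| := abs_integral_le_integral_abs
    _ ≤ ∫ x in Ω, R * F' x := by
      refine setIntegral_mono_on i1.abs (i2.const_mul _) hO.measurableSet ?_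
      intro x hx
      exact h x (subset_closure hx)
    _ = _ := integral_const_mul _ _

/-- Young inequality for an integral dominated by `B F`, `F ≥ 0` -/
private theorem s7_young {n : ℕ} {Ω : Set (Sp n)} (hO : IsOpen Ω) (hb : Bornology.IsBounded Ω)
    {F F' : Sp n → ℝ} {A B r : ℝ} (hA : 0 ≤ A) (hr : 0 < r) (hF : ContinuousOn F (closure Ω))
    (hF' : ContinuousOn F' (closure Ω)) (h : ∀ x ∈ closure Ω, |F x| ≤ B * F' x) :
    A * |∫ x in Ω, F x| ≤ r * (∫ x in Ω, F' x ^ 2) + (A * B) ^ 2 / (4 * r) * vol Ω := by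
  have i1 : IntegrableOn F Ω := p_A2 Ω hb _ hF
  have i2 : IntegrableOn (fun x => F' x ^ 2) Ω := p_A2 Ω hb _ (hF'.pow 2)
  have ic : IntegrableOn (fun _ : Sp n => (A * B) ^ 2 / (4 * r)) Ω :=
    integrableOn_const hb.measure_lt_top.ne
  have h1 : A * |∫ x in Ω, F x| ≤ A * ∫ x in Ω, |F x| :=
    mul_le_mul_of_nonneg_left abs_integral_le_integral_abs hA
  refine h1.trans ?_
  rw [← integral_const_mul]
  have i3 : IntegrableOn (fun x => r * F' x ^ 2 + (A * B) ^ 2 / (4 * r)) Ω :=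
    (i2.const_mul r).add ic
  have h2 := setIntegral_mono_on (i1.abs.const_mul A) i3 hO.measurableSet
    fun x hx => by
      have h3 := mul_le_mul_of_nonneg_left (h x (subset_closure hx)) hA
      have h4 : A * (B * F' x) ≤ r * F' x ^ 2 + (A * B) ^ 2 / (4 * r) := by
        have h5 : 0 ≤ (2 * r * F' x - A * B) ^ 2 := sq_nonneg _
        have e : (2 * r * F' x - A * B) ^ 2 = 4 * r * (r * F' x ^ 2 + (A * B) ^ 2 / (4 * r)
            - A * (B * F' x)) := by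
          field_simp
          ring
        rw [e] at h5
        have := nonneg_of_mul_nonneg_right h5 (by positivity)
        linarith
      exact h3.trans h4
  refine h2.trans (le_of_eq ?_)
  rw [integral_add (i2.const_mul r) ic, integral_const_mul, setIntegral_const, smul_eq_mul]
  unfold vol
  ring

section
variable {n N : ℕ} {Ω : Set (Sp n)} {P : ℝ} {d : Fin N → ℝ} {m : Sp n → ℝ} {T : Set ℝ}
  {u ut : Fin N → ℝ → Sp n → ℝ} {Du : Fin N → ℝ → Sp n → Sp n} {lu : Fin N → ℝ → Sp n → ℝ}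

/-- the derivative -/
private theorem s7_der (h3 : Ff.StmF3) (h4 : StmF4) (hu1 : Uf.StmU1) (hΩ : Dom Ω P)
    (hm : ContinuousOn m (closure Ω)) (k l : Fin N) (mid : Finset (Fin N)) (κ ε0 K0 : ℝ)
    {φ : Sp n → ℝ} {Dφ : Sp n → Sp n} (hφ : C1 Ω φ Dφ) (hT : IsOpen T)
    (hs : IsSol Ω d m T u ut Du lu) {t : ℝ} (ht : t ∈ T) (hsl : 0 < (∫ x in Ω, u l t x ^ 2))
    {ε : ℝ} (hε : 0 < ε) (H : ℝ) (hH : H = ∫ x in Ω, (m x - ∑ j, u j t x)) (e a g : Fin N → ℝ)
    (he : ∀ i, e i = ∫ x in Ω, (ε / (u i t x + ε)) * (m x - ∑ j, u j t x))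
    (ha : ∀ i, a i = d i * En Ω ε (u i t) (Du i t))
    (hg : ∀ i, g i = Lg Ω ε (u i t) - Lg Ω ε (u k t) + K0) :
    HasDerivAt (fun s => Uf.PsU Ω k l mid K0 κ ε0 ε φ (fun j => u j s))
      ((d k * (∫ x in Ω, (1 + κ * φ x) * ‖(u k t x + ε)⁻¹ • Du k t x‖ ^ 2)
          - d k * (∫ x in Ω, inner ℝ ((u k t x + ε)⁻¹ • Du k t x) (κ • Dφ x))
          + (∫ x in Ω, (1 + κ * φ x) * (m x - ∑ j, u j t x))
          - ∫ x in Ω, (1 + κ * φ x) * (ε / (u k t x + ε)) * (m x - ∑ j, u j t x))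
        - vol Ω / 2 * ((2 * (∫ x in Ω, u l t x ^ 2 * (m x - ∑ j, u j t x))
          - 2 * d l * ∫ x in Ω, ‖Du l t x‖ ^ 2) / ∫ x in Ω, u l t x ^ 2)
        + ε0 * (∑ i ∈ mid, sg (g i) * ((a i + H - e i) - (a k + H - e k)))
        - κ * ∑ j, ∫ x in Ω, u j t x * (m x - ∑ i, u i t x)) t := by
  have hO := hΩ.isOpen
  have hb := hΩ.bdd
  have hone : C1 Ω (fun _ => (1 : ℝ)) (fun _ => (0 : Sp n)) :=
    ⟨continuousOn_const, continuousOn_const, fun x _ => by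
      simpa using hasGradientAt_const x (1 : ℝ)⟩
  have hLg : ∀ i, HasDerivAt (fun s => Lg Ω ε (u i s)) (a i + H - e i) t := by
    intro i
    have h := h3 Ω hO hb d m hm T hT u ut Du lu hs ε hε _ _ hone i t ht
    rw [ha, he, hH]
    simpa [Lg, En] using h
  have hφ1 : C1 Ω (fun x => 1 + κ * φ x) (fun x => κ • Dφ x) := by
    refine ⟨continuousOn_const.add (continuousOn_const.mul hφ.cont), hφ.contD.const_smul κ, ?_⟩
    intro x hx
    have h1 := hφ.grad x hx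
    rw [hasGradientAt_iff_hasFDerivAt] at h1 ⊢
    have h2 := (h1.const_mul κ).const_add 1
    simpa using h2
  have hLφ := h3 Ω hO hb d m hm T hT u ut Du lu hs ε hε _ _ hφ1 k t ht
  have hSq := hu1 Ω hO hb d m hm T hT u ut Du lu hs l t ht
  have hlog := hSq.log hsl.ne'
  have hmass : HasDerivAt (fun s => ∑ j, mass Ω (u j s))
      (∑ j, ∫ x in Ω, u j t x * (m x - ∑ i, u i t x)) t :=
    HasDerivAt.fun_sum fun j _ => (h4 Ω hO hb d m hm T hT u ut Du lu hs j).1 t ht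
  have hsp : ∀ i, HasDerivAt (fun s => sp (Lg Ω ε (u i s) - Lg Ω ε (u k s) + K0))
      (sg (g i) * ((a i + H - e i) - (a k + H - e k))) t := by
    intro i
    rw [hg i]
    have h := (s7_sp (Lg Ω ε (u i t) - Lg Ω ε (u k t) + K0)).comp t
      ((((hLg i).sub (hLg k)).add_const K0))
    exact h
  have hsum : HasDerivAt
      (fun s => ∑ i ∈ mid, sp (Lg Ω ε (u i s) - Lg Ω ε (u k s) + K0))
      (∑ i ∈ mid, sg (g i) * ((a i + H - e i) - (a k + H - e k))) t :=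
    HasDerivAt.fun_sum fun i _ => hsp i
  exact (((hLφ.sub (hlog.const_mul (vol Ω / 2)))).add (hsum.const_mul ε0)).sub (hmass.const_mul κ)

end

/-- the final algebra -/
private theorem s7_alg {dk Γ e1 c1 h2 eV J A2 K GH Sl SS SC Ek ε0 T TA TE ek Erk TEr R X2 V2 H E
    y1 y2 y3 y4 Km : ℝ} (hdk : 0 < dk) (hK : 0 < K) (hEk : 0 ≤ Ek) (hh2 : 0 ≤ h2)
    (hT : ε0 * T ≤ 1 / 4) (hRE : 0 ≤ R * Erk)
    (i0 : Γ - e1 - c1 * (h2 + eV) ≤ J - K * A2 - K * GH + K * (Sl + SS + SC))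
    (hc1 : dk * c1 * h2 ≤ K / 4 * h2)
    (b7 : dk * K * |GH| ≤ K / 4 * h2 + y1) (b8 : dk * K * |Sl| ≤ 1 / 2 * X2 + y2)
    (b9 : dk * K * |SS| ≤ ε0 * TA + y3) (b10 : |SC| ≤ y4)
    (b3 : 1 / 2 * X2 - K / 4 * h2 ≤ H - V2)
    (q2 : - (1 / 4 * (R * Erk)) ≤ ε0 * T * ek) (q3 : ε0 * TE ≤ R * TEr)
    (q4 : E ≤ (1 + Km) * (R * Erk)) :
    dk * (Γ - e1 - c1 * eV - K * y4) - (y1 + y2 + y3) - R * ((2 + Km) * Erk + TEr) ≤
      dk * (J + 1 / 4 * Ek) - dk * (K * A2) - E + (H + K * h2) - V2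
        + ε0 * (TA - TE - T * (dk * Ek - ek)) := by
  have h1 := mul_le_mul_of_nonneg_left i0 hdk.le
  have h5 : ε0 * T * (dk * Ek) ≤ 1 / 4 * (dk * Ek) :=
    mul_le_mul_of_nonneg_right hT (by positivity)
  have g1 : - (dk * K * |GH|) ≤ dk * K * GH := by
    have := mul_le_mul_of_nonneg_left (neg_abs_le GH) (by positivity : 0 ≤ dk * K)
    linarith
  have g2 : 0 ≤ K * h2 := by positivity
  have g3 : dk * K * Sl ≤ dk * K * |Sl| := mul_le_mul_of_nonneg_left (le_abs_self Sl) (by positivity)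
  have g4 : dk * K * SS ≤ dk * K * |SS| := mul_le_mul_of_nonneg_left (le_abs_self SS) (by positivity)
  have g5 : dk * K * SC ≤ dk * K * y4 :=
    mul_le_mul_of_nonneg_left ((le_abs_self SC).trans b10) (by positivity)
  linarith

theorem p_S7 (h3 : Ff.StmF3) (h4 : StmF4) (hu1 : Uf.StmU1) (hu5 : Uf.StmU5) (hs2 : StmS2)
    (hs4 : StmS4) : StmS7 := by
  classical
  intro n N Ω P hΩ d m ψ Dψ hψ hmψ hd m₀ hm₀ hmm k l mid L hkl hkm hlm hkL hlL hmL hall
    D R M C₁ K Bx e hD hR hM hC₁ hCE hDl hDmid hdkD hKm hKC hBx hdkB X g hX hg hXg hdiv hXe T hT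
    u ut Du lu hs t ht huM huR hsl ε hε hεM κm ν K0 hκm hmid hLν
  have hO := hΩ.isOpen
  have hb := hΩ.bdd
  have hP := hΩ.hP
  have hN : 0 < N := k.pos
  have hN1 : (1 : ℝ) ≤ (N : ℝ) := by exact_mod_cast hN
  have hN0 : (0 : ℝ) < (N : ℝ) := by linarith
  have hdk0 := hd k
  have hdl0 := hd l
  have hK0 : 0 < K := by
    by_contra hneg
    push Not at hneg
    have : 2 * m₀ * K ≤ 0 := mul_nonpos_of_nonneg_of_nonpos (by positivity) hneg
    linarith
  -- `m` is of class `C¹`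
  have hmC : C1 Ω m (fun x => (2 * ψ x) • Dψ x) := by
    refine ⟨(hψ.cont.pow 2).congr fun x hx => (hmψ x hx).2,
      (continuousOn_const.mul hψ.cont).smul hψ.contD, ?_⟩
    intro x hx
    have h1 := hψ.grad x hx
    rw [hasGradientAt_iff_hasFDerivAt] at h1 ⊢
    have h2 := h1.pow 2
    have h3 : m =ᶠ[𝓝 x] fun y => ψ y ^ 2 := by
      filter_upwards [hO.mem_nhds hx] with y hy
      exact (hmψ y (subset_closure hy)).2
    refine (h2.congr_of_eventuallyEq h3).congr_fderiv ?_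
    ext v
    simp
  have hm : ContinuousOn m (closure Ω) := hmC.cont
  -- continuity
  have hcu : ∀ j, ContinuousOn (u j t) (closure Ω) := by
    intro j
    exact (hs.cu j).comp (f := fun x => (t, x)) (by fun_prop) (fun x hx => ⟨ht, hx⟩)
  have hcD : ∀ j, ContinuousOn (Du j t) (closure Ω) := by
    intro j
    exact (hs.cD j).comp (f := fun x => (t, x)) (by fun_prop) (fun x hx => ⟨ht, hx⟩)
  have hnn : ∀ j, ∀ x ∈ closure Ω, 0 ≤ u j t x := fun j x hx => hs.nonneg j t ht x hx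
  have hpos : ∀ j, ∀ x ∈ closure Ω, 0 < u j t x + ε := fun j x hx => by
    have := hnn j x hx
    linarith
  have cw : ∀ j, ContinuousOn (fun x => u j t x + ε) (closure Ω) := fun j =>
    (hcu j).add continuousOn_const
  have cE : ∀ j, ContinuousOn (fun x => ε / (u j t x + ε)) (closure Ω) := fun j =>
    continuousOn_const.div (cw j) fun x hx => (hpos j x hx).ne'
  have cG : ∀ j, ContinuousOn (fun x => (u j t x + ε)⁻¹ • Du j t x) (closure Ω) := fun j =>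
    ((cw j).inv₀ fun x hx => (hpos j x hx).ne').smul (hcD j)
  have ch : ContinuousOn (fun x => m x - ∑ j, u j t x) (closure Ω) :=
    hm.sub (continuousOn_finsetSum _ fun j _ => hcu j)
  have cm1 : ContinuousOn (fun x => 1 + K * m x) (closure Ω) :=
    continuousOn_const.add (continuousOn_const.mul hm)
  have cDm : ContinuousOn (fun x => (2 * ψ x) • Dψ x) (closure Ω) := hmC.contD
  have cX : ContinuousOn X (closure Ω) := hX.continuousOn
  have cg : ContinuousOn g (closure Ω) := hg.continuousOn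
  have hvol : 0 < vol Ω := by
    unfold vol
    refine ENNReal.toReal_pos ?_ ?_
    · exact (hO.measure_pos volume hΩ.nonempty).ne'
    · exact hb.measure_lt_top.ne
  have hcj : ∀ j, C1 Ω (u j t) (Du j t) := fun j => (hs.lap j t ht).c1
  -- the derivatives
  obtain ⟨er, her⟩ : ∃ e : Fin N → ℝ, ∀ i, e i =
      ∫ x in Ω, (ε / (u i t x + ε)) * (m x - ∑ j, u j t x) := ⟨_, fun _ => rfl⟩
  obtain ⟨En', hEn'⟩ : ∃ En' : Fin N → ℝ, ∀ i, En' i = En Ω ε (u i t) (Du i t) :=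
    ⟨_, fun _ => rfl⟩
  obtain ⟨a, ha⟩ : ∃ a : Fin N → ℝ, ∀ i, a i = d i * En' i := ⟨_, fun _ => rfl⟩
  obtain ⟨gg, hgg⟩ : ∃ g : Fin N → ℝ, ∀ i, g i = Lg Ω ε (u i t) - Lg Ω ε (u k t) + K0 :=
    ⟨_, fun _ => rfl⟩
  have hε0p : 0 < 1 / (4 * (N : ℝ)) := by positivity
  refine ⟨_, s7_der h3 h4 hu1 hΩ hm k l mid K (1 / (4 * N)) K0 hmC hT hs ht hsl hε _ rfl er a gg
    her (fun i => by rw [ha, hEn']) hgg, ?_⟩
  -- nonnegativity
  have hEn : ∀ i, 0 ≤ En' i := fun i => by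
    rw [hEn']
    unfold En
    exact setIntegral_nonneg hO.measurableSet fun x _ => by positivity
  have ha0 : ∀ i, 0 ≤ a i := fun i => by
    rw [ha]
    exact mul_nonneg (hd i).le (hEn i)
  have hEr0 : ∀ i, 0 ≤ Er Ω ε (u i t) := fun i => by
    unfold Er
    exact setIntegral_nonneg hO.measurableSet fun x hx =>
      (div_pos hε (hpos i x (subset_closure hx))).le
  have hmass0 : ∀ i, 0 ≤ mass Ω (u i t) := fun i => by
    unfold mass
    exact setIntegral_nonneg hO.measurableSet fun x hx => hnn i x (subset_closure hx)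
  have hm0 : ∀ x ∈ closure Ω, 0 ≤ m x := fun x hx => by
    rw [(hmψ x hx).2]
    positivity
  -- error terms
  have b2 : ∀ i, |er i| ≤ R * Er Ω ε (u i t) := by
    intro i
    rw [her]
    refine s7_abs hO hb ((cE i).mul ch) (cE i) fun x hx => ?_
    rw [abs_mul, abs_of_pos (div_pos hε (hpos i x hx)), mul_comm]
    exact mul_le_mul_of_nonneg_right (huR x hx) (div_pos hε (hpos i x hx)).le
  have b4 : |∫ x in Ω, (1 + K * m x) * (ε / (u k t x + ε)) * (m x - ∑ j, u j t x)| ≤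
      ((1 + K * m₀) * R) * Er Ω ε (u k t) := by
    refine s7_abs hO hb ((cm1.mul (cE k)).mul ch) (cE k) fun x hx => ?_
    have h1 := div_pos hε (hpos k x hx)
    have h2 : |1 + K * m x| ≤ 1 + K * m₀ := by
      have h5 := mul_le_mul_of_nonneg_left (hmm x hx) hK0.le
      have h6 := mul_nonneg hK0.le (hm0 x hx)
      rw [abs_le]
      constructor <;> linarith
    rw [abs_mul, abs_mul, abs_of_pos h1]
    calc |1 + K * m x| * (ε / (u k t x + ε)) * |m x - ∑ j, u j t x|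
        ≤ (1 + K * m₀) * (ε / (u k t x + ε)) * R :=
          mul_le_mul (mul_le_mul_of_nonneg_right h2 h1.le) (huR x hx) (abs_nonneg _)
            (by positivity)
      _ = _ := by ring
  -- names
  obtain ⟨J, hJ⟩ : ∃ J, J = ∫ x in Ω, (3 / 4 + K * m x) * ‖(u k t x + ε)⁻¹ • Du k t x‖ ^ 2 :=
    ⟨_, rfl⟩
  obtain ⟨A2, hA2⟩ : ∃ A2, A2 = ∫ x in Ω, inner ℝ ((u k t x + ε)⁻¹ • Du k t x)
    ((2 * ψ x) • Dψ x) := ⟨_, rfl⟩
  obtain ⟨GH, hGH⟩ : ∃ GH, GH = ∫ x in Ω, g x * (m x - ∑ j, u j t x) := ⟨_, rfl⟩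
  obtain ⟨XD, hXD⟩ : ∃ XD : Fin N → ℝ, ∀ j, XD j = ∫ x in Ω, inner ℝ (X x) (Du j t x) :=
    ⟨_, fun _ => rfl⟩
  obtain ⟨XM, hXM⟩ : ∃ XM, XM = ∫ x in Ω, inner ℝ (X x) ((2 * ψ x) • Dψ x) := ⟨_, rfl⟩
  obtain ⟨h2, hh2⟩ : ∃ h2, h2 = ∫ x in Ω, (m x - ∑ j, u j t x) ^ 2 := ⟨_, rfl⟩
  have hh20 : 0 ≤ h2 := by
    rw [hh2]
    exact setIntegral_nonneg hO.measurableSet fun x _ => by positivity
  have iEn : IntegrableOn (fun x => ‖(u k t x + ε)⁻¹ • Du k t x‖ ^ 2) Ω :=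
    p_A2 Ω hb _ ((cG k).norm.pow 2)
  have iJ : IntegrableOn (fun x => (3 / 4 + K * m x) * ‖(u k t x + ε)⁻¹ • Du k t x‖ ^ 2) Ω :=
    p_A2 Ω hb _ ((continuousOn_const.add (continuousOn_const.mul hm)).mul ((cG k).norm.pow 2))
  have iA2 : IntegrableOn (fun x => inner ℝ ((u k t x + ε)⁻¹ • Du k t x) ((2 * ψ x) • Dψ x)) Ω :=
    p_A2 Ω hb _ ((cG k).inner cDm)
  have iXD : ∀ j, IntegrableOn (fun x => inner ℝ (X x) (Du j t x)) Ω := fun j =>
    p_A2 Ω hb _ (cX.inner (hcD j))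
  have iXM : IntegrableOn (fun x => inner ℝ (X x) ((2 * ψ x) • Dψ x)) Ω :=
    p_A2 Ω hb _ (cX.inner cDm)
  have ih2 : IntegrableOn (fun x => (m x - ∑ j, u j t x) ^ 2) Ω := p_A2 Ω hb _ (ch.pow 2)
  -- first terms of the derivative
  have e1 : (∫ x in Ω, (1 + K * m x) * ‖(u k t x + ε)⁻¹ • Du k t x‖ ^ 2) = J + 1 / 4 * En' k := by
    rw [hJ, hEn']
    unfold En
    rw [← integral_const_mul, ← integral_add iJ (iEn.const_mul _)]
    refine integral_congr_ae (Eventually.of_forall fun x => ?_)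
    simp only
    ring
  have e2 : (∫ x in Ω, inner ℝ ((u k t x + ε)⁻¹ • Du k t x) (K • ((2 * ψ x) • Dψ x))) =
      K * A2 := by
    rw [hA2, ← integral_const_mul]
    refine integral_congr_ae (Eventually.of_forall fun x => ?_)
    simp only
    rw [real_inner_smul_right]
  have e3 : (∫ x in Ω, (1 + K * m x) * (m x - ∑ j, u j t x))
      - K * ∑ j, ∫ x in Ω, u j t x * (m x - ∑ i, u i t x) =
      (∫ x in Ω, (m x - ∑ j, u j t x)) + K * h2 := by
    have i1 : IntegrableOn (fun x => (1 + K * m x) * (m x - ∑ j, u j t x)) Ω :=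
      p_A2 Ω hb _ (cm1.mul ch)
    have i2 : ∀ j, IntegrableOn (fun x => u j t x * (m x - ∑ i, u i t x)) Ω := fun j =>
      p_A2 Ω hb _ ((hcu j).mul ch)
    have i3 : IntegrableOn (fun x => ∑ j, u j t x * (m x - ∑ i, u i t x)) Ω :=
      integrable_finsetSum _ fun j _ => i2 j
    have i4 : IntegrableOn (fun x => m x - ∑ j, u j t x) Ω := p_A2 Ω hb _ ch
    rw [hh2, ← integral_finsetSum _ fun j _ => i2 j, ← integral_const_mul, ← integral_const_mul,
      ← integral_sub i1 (i3.const_mul K), ← integral_add i4 (ih2.const_mul K)]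
    refine integral_congr_ae (Eventually.of_forall fun x => ?_)
    simp only
    rw [← Finset.sum_mul]
    ring
  -- the zero
  have hzero : GH = - (XM - ∑ j, XD j) := by
    have hC : C1 Ω (fun x => m x - ∑ j, u j t x)
        (fun x => (2 * ψ x) • Dψ x - ∑ j, Du j t x) := by
      refine ⟨ch, cDm.sub (continuousOn_finsetSum _ fun j _ => hcD j), ?_⟩
      intro x hx
      have h1 := hmC.grad x hx
      have h2 := fun j => (hcj j).grad x hx
      rw [hasGradientAt_iff_hasFDerivAt] at h1 ⊢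
      have h3 : ∀ j ∈ (Finset.univ : Finset (Fin N)), HasFDerivAt (u j t)
          (InnerProductSpace.toDual ℝ (Sp n) (Du j t x)) x := fun j _ => by
        have := h2 j
        rwa [hasGradientAt_iff_hasFDerivAt] at this
      have h4 := h1.fun_sub (HasFDerivAt.fun_sum h3)
      simpa [map_sub, map_sum] using h4
    have h5 := hdiv _ _ hC
    rw [← hGH] at h5
    rw [h5, hXM]
    have h6 : ∑ j, XD j = ∫ x in Ω, ∑ j, inner ℝ (X x) (Du j t x) := by
      rw [integral_finsetSum _ fun j _ => iXD j]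
      exact Finset.sum_congr rfl fun j _ => hXD j
    rw [h6, ← integral_sub iXM (integrable_finsetSum _ fun j _ => iXD j)]
    congr 1
    refine integral_congr_ae (Eventually.of_forall fun x => ?_)
    simp only
    rw [inner_sub_right, inner_sum]
  -- the pointwise inequality, integrated
  have i0 : 1 / (2 * m₀) * (∫ x in Ω, ‖Dψ x‖ ^ 2) - 4 * K ^ 2 * m₀ * e
      - 4 * K ^ 2 * Bx ^ 2 * (h2 + vol Ω * ε ^ 2) ≤ J - K * A2 - K * XD k + K * XM := by
    have cr : ContinuousOn (fun x => (2 : ℝ) • Dψ x - ψ x • X x) (closure Ω) :=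
      (hψ.contD.const_smul (2 : ℝ)).sub (hψ.cont.smul cX)
    have j1 : IntegrableOn (fun x => ‖Dψ x‖ ^ 2) Ω := p_A2 Ω hb _ (hψ.contD.norm.pow 2)
    have j2 : IntegrableOn (fun x => ‖(2 : ℝ) • Dψ x - ψ x • X x‖ ^ 2) Ω :=
      p_A2 Ω hb _ (cr.norm.pow 2)
    have jc : IntegrableOn (fun _ : Sp n => 4 * K ^ 2 * Bx ^ 2 * ε ^ 2) Ω :=
      integrableOn_const hb.measure_lt_top.ne
    have n1 : IntegrableOn (fun x => 1 / (2 * m₀) * ‖Dψ x‖ ^ 2
      - 4 * K ^ 2 * m₀ * ‖(2 : ℝ) • Dψ x - ψ x • X x‖ ^ 2) Ω :=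
      (j1.const_mul (1 / (2 * m₀))).sub (j2.const_mul (4 * K ^ 2 * m₀))
    have n2 : IntegrableOn (fun x => 4 * K ^ 2 * Bx ^ 2 * (m x - ∑ j, u j t x) ^ 2
      + 4 * K ^ 2 * Bx ^ 2 * ε ^ 2) Ω := (ih2.const_mul (4 * K ^ 2 * Bx ^ 2)).add jc
    have n3 : IntegrableOn (fun x => 1 / (2 * m₀) * ‖Dψ x‖ ^ 2
        - 4 * K ^ 2 * m₀ * ‖(2 : ℝ) • Dψ x - ψ x • X x‖ ^ 2
        - (4 * K ^ 2 * Bx ^ 2 * (m x - ∑ j, u j t x) ^ 2 + 4 * K ^ 2 * Bx ^ 2 * ε ^ 2)) Ω :=
      n1.sub n2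
    have n4 : IntegrableOn (fun x => (3 / 4 + K * m x) * ‖(u k t x + ε)⁻¹ • Du k t x‖ ^ 2
      - K * inner ℝ ((u k t x + ε)⁻¹ • Du k t x) ((2 * ψ x) • Dψ x)) Ω :=
      iJ.sub (iA2.const_mul K)
    have n5 : IntegrableOn (fun x => (3 / 4 + K * m x) * ‖(u k t x + ε)⁻¹ • Du k t x‖ ^ 2
      - K * inner ℝ ((u k t x + ε)⁻¹ • Du k t x) ((2 * ψ x) • Dψ x)
      - K * inner ℝ (X x) (Du k t x)) Ω := n4.sub ((iXD k).const_mul K)
    have n6 : IntegrableOn (fun x => (3 / 4 + K * m x) * ‖(u k t x + ε)⁻¹ • Du k t x‖ ^ 2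
      - K * inner ℝ ((u k t x + ε)⁻¹ • Du k t x) ((2 * ψ x) • Dψ x)
      - K * inner ℝ (X x) (Du k t x) + K * inner ℝ (X x) ((2 * ψ x) • Dψ x)) Ω :=
      n5.add (iXM.const_mul K)
    have h5 := setIntegral_mono_on (s := Ω) (f := fun x => 1 / (2 * m₀) * ‖Dψ x‖ ^ 2
        - 4 * K ^ 2 * m₀ * ‖(2 : ℝ) • Dψ x - ψ x • X x‖ ^ 2
        - (4 * K ^ 2 * Bx ^ 2 * (m x - ∑ j, u j t x) ^ 2 + 4 * K ^ 2 * Bx ^ 2 * ε ^ 2))
      (g := fun x => (3 / 4 + K * m x) * ‖(u k t x + ε)⁻¹ • Du k t x‖ ^ 2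
        - K * inner ℝ ((u k t x + ε)⁻¹ • Du k t x) ((2 * ψ x) • Dψ x)
        - K * inner ℝ (X x) (Du k t x) + K * inner ℝ (X x) ((2 * ψ x) • Dψ x))
      n3 n6 hO.measurableSet fun x hx => by
        have hx' := subset_closure hx
        obtain ⟨hψ0, hmx⟩ := hmψ x hx'
        have hp := hpos k x hx'
        have hle : u k t x + ε ≤ ψ x ^ 2 + (|m x - ∑ j, u j t x| + ε) := by
          have h6 : u k t x ≤ ∑ j, u j t x :=
            Finset.single_le_sum (f := fun j => u j t x) (fun j _ => hnn j x hx')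
              (Finset.mem_univ k)
          have h7 := neg_abs_le (m x - ∑ j, u j t x)
          rw [hmx] at h7 ⊢
          linarith
        have h6 := hs4 ((u k t x + ε)⁻¹ • Du k t x) ((2 : ℝ) • Dψ x) (X x) (ψ x) K
          (u k t x + ε) (|m x - ∑ j, u j t x| + ε) m₀ hψ0 (by rw [← hmx]; exact hmm x hx') hm₀ hKm
          hp.le (by positivity) hle
        have g1 : 1 / (8 * m₀) * ‖(2 : ℝ) • Dψ x‖ ^ 2 = 1 / (2 * m₀) * ‖Dψ x‖ ^ 2 := by
          rw [norm_smul, mul_pow]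
          simp only [Real.norm_ofNat]
          field_simp
          norm_num
        have g2 : ψ x * inner ℝ ((2 : ℝ) • Dψ x) ((u k t x + ε)⁻¹ • Du k t x) =
            inner ℝ ((u k t x + ε)⁻¹ • Du k t x) ((2 * ψ x) • Dψ x) := by
          rw [real_inner_comm, real_inner_smul_right, real_inner_smul_right]
          ring
        have g3 : (u k t x + ε) * inner ℝ (X x) ((u k t x + ε)⁻¹ • Du k t x) =
            inner ℝ (X x) (Du k t x) := by
          rw [real_inner_smul_right]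
          field_simp
        have g4 : ψ x * inner ℝ (X x) ((2 : ℝ) • Dψ x) =
            inner ℝ (X x) ((2 * ψ x) • Dψ x) := by
          rw [real_inner_smul_right, real_inner_smul_right]
          ring
        have g5 : 2 * K ^ 2 * (|m x - ∑ j, u j t x| + ε) ^ 2 * ‖X x‖ ^ 2 ≤
            4 * K ^ 2 * Bx ^ 2 * (m x - ∑ j, u j t x) ^ 2 + 4 * K ^ 2 * Bx ^ 2 * ε ^ 2 := by
          have k1 : (|m x - ∑ j, u j t x| + ε) ^ 2 ≤ 2 * ((m x - ∑ j, u j t x) ^ 2 + ε ^ 2) := by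
            have k2 : 0 ≤ (|m x - ∑ j, u j t x| - ε) ^ 2 := sq_nonneg _
            have k3 := sq_abs (m x - ∑ j, u j t x)
            nlinarith
          have k2 : ‖X x‖ ^ 2 ≤ Bx ^ 2 := pow_le_pow_left₀ (norm_nonneg _) (hXg x).1 2
          calc 2 * K ^ 2 * (|m x - ∑ j, u j t x| + ε) ^ 2 * ‖X x‖ ^ 2
              ≤ 2 * K ^ 2 * (2 * ((m x - ∑ j, u j t x) ^ 2 + ε ^ 2)) * Bx ^ 2 := by gcongr
            _ = _ := by ring
        rw [g1, g2, g3, g4, ← hmx] at h6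
        linarith
    have l1 : (∫ x in Ω, (1 / (2 * m₀) * ‖Dψ x‖ ^ 2
        - 4 * K ^ 2 * m₀ * ‖(2 : ℝ) • Dψ x - ψ x • X x‖ ^ 2
        - (4 * K ^ 2 * Bx ^ 2 * (m x - ∑ j, u j t x) ^ 2 + 4 * K ^ 2 * Bx ^ 2 * ε ^ 2))) =
        1 / (2 * m₀) * (∫ x in Ω, ‖Dψ x‖ ^ 2)
        - 4 * K ^ 2 * m₀ * (∫ x in Ω, ‖(2 : ℝ) • Dψ x - ψ x • X x‖ ^ 2)
        - (4 * K ^ 2 * Bx ^ 2 * h2 + 4 * K ^ 2 * Bx ^ 2 * ε ^ 2 * vol Ω) := by
      rw [integral_sub n1 n2, integral_sub (j1.const_mul _) (j2.const_mul _),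
        integral_add (ih2.const_mul _) jc, integral_const_mul, integral_const_mul,
        integral_const_mul, setIntegral_const, smul_eq_mul, hh2]
      unfold vol
      ring
    have l2 : (∫ x in Ω, ((3 / 4 + K * m x) * ‖(u k t x + ε)⁻¹ • Du k t x‖ ^ 2
        - K * inner ℝ ((u k t x + ε)⁻¹ • Du k t x) ((2 * ψ x) • Dψ x)
        - K * inner ℝ (X x) (Du k t x) + K * inner ℝ (X x) ((2 * ψ x) • Dψ x))) =
        J - K * A2 - K * XD k + K * XM := by
      rw [integral_add n5 (iXM.const_mul K), integral_sub n4 ((iXD k).const_mul K),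
        integral_sub iJ (iA2.const_mul K), integral_const_mul, integral_const_mul,
        integral_const_mul, hJ, hA2, hXD, hXM]
    rw [l1, l2] at h5
    have h6 : 4 * K ^ 2 * m₀ * (∫ x in Ω, ‖(2 : ℝ) • Dψ x - ψ x • X x‖ ^ 2) ≤
        4 * K ^ 2 * m₀ * e := mul_le_mul_of_nonneg_left hXe (by positivity)
    refine le_trans ?_ h5
    have h7 : 4 * K ^ 2 * Bx ^ 2 * (h2 + vol Ω * ε ^ 2) =
      4 * K ^ 2 * Bx ^ 2 * h2 + 4 * K ^ 2 * Bx ^ 2 * ε ^ 2 * vol Ω := by ring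
    rw [h7]
    linarith
  -- the sets of species
  obtain ⟨Sm, hSm⟩ : ∃ Sm : Finset (Fin N), Sm = mid.filter (fun i => 0 ≤ gg i) := ⟨_, rfl⟩
  obtain ⟨S, hS⟩ : ∃ S : Finset (Fin N), S = insert k (insert l Sm) := ⟨_, rfl⟩
  have hlSm : l ∉ Sm := fun h => hlm (Finset.mem_filter.1 (hSm ▸ h)).1
  have hkSm : k ∉ Sm := fun h => hkm (Finset.mem_filter.1 (hSm ▸ h)).1
  have hkS : k ∉ insert l Sm := by
    rw [Finset.mem_insert]
    rintro (h | h)
    · exact hkl h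
    · exact hkSm h
  have hub := fun j x hx => And.intro (hnn j x hx) (huM j x hx)
  have h5 := hu5 Ω hO hb (fun j => u j t) (fun j => Du j t) hcj M ε hε hεM hub
  -- the sum of the small masses
  have hz1 : ∑ j ∈ Sᶜ, mass Ω (u j t) ≤ N * κm + ν := by
    have h2 : Sᶜ ⊆ (mid \ Sm) ∪ L := by
      intro j hj
      rw [Finset.mem_compl, hS, Finset.mem_insert, Finset.mem_insert] at hj
      push Not at hj
      rw [Finset.mem_union, Finset.mem_sdiff]
      rcases hall j with h | h | h | h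
      · exact absurd h hj.1
      · exact absurd h hj.2.1
      · exact Or.inl ⟨h, hj.2.2⟩
      · exact Or.inr h
    have h6 : ∑ j ∈ Sᶜ, mass Ω (u j t) ≤ ∑ j ∈ (mid \ Sm) ∪ L, mass Ω (u j t) :=
      Finset.sum_le_sum_of_subset_of_nonneg h2 fun j _ _ => hmass0 j
    have hdisj : Disjoint (mid \ Sm) L :=
      Finset.disjoint_of_subset_left Finset.sdiff_subset hmL
    rw [Finset.sum_union hdisj] at h6
    have h7 : ∑ j ∈ mid \ Sm, mass Ω (u j t) ≤ N * κm := by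
      have h8 : ∀ j ∈ mid \ Sm, mass Ω (u j t) ≤ κm := by
        intro j hj
        rw [Finset.mem_sdiff] at hj
        rcases hmid j hj.1 with h | h
        · exact h
        · refine absurd ?_ hj.2
          rw [hSm, Finset.mem_filter, hgg]
          exact ⟨hj.1, h⟩
      refine (Finset.sum_le_card_nsmul _ _ κm h8).trans ?_
      rw [nsmul_eq_mul]
      refine mul_le_mul_of_nonneg_right ?_ hκm
      have h9 : (mid \ Sm).card ≤ N := by simpa using Finset.card_le_univ (mid \ Sm)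
      exact_mod_cast h9
    linarith
  obtain ⟨SC, hSC⟩ : ∃ SC, SC = ∑ j ∈ Sᶜ, XD j := ⟨_, rfl⟩
  obtain ⟨SS, hSS⟩ : ∃ SS, SS = ∑ j ∈ Sm, XD j := ⟨_, rfl⟩
  have hsumX : ∑ j, XD j = XD k + (XD l + SS + SC) := by
    rw [← Finset.sum_add_sum_compl S XD, hS, Finset.sum_insert hkS, Finset.sum_insert hlSm, hSS,
      hSC, hS]
    ring
  have b10 : |SC| ≤ Bx * (N * κm + ν) := by
    have h6 : ∀ j, |XD j| ≤ Bx * mass Ω (u j t) := by
      intro j
      have h7 := hdiv _ _ (hcj j)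
      have h8 : XD j = - ∫ x in Ω, g x * u j t x := by
        rw [h7, hXD]
        ring
      rw [h8, abs_neg]
      refine s7_abs hO hb (cg.mul (hcu j)) (hcu j) fun x hx => ?_
      rw [abs_mul, abs_of_nonneg (hnn j x hx)]
      exact mul_le_mul_of_nonneg_right (hXg x).2 (hnn j x hx)
    rw [hSC]
    calc |∑ j ∈ Sᶜ, XD j| ≤ ∑ j ∈ Sᶜ, |XD j| := Finset.abs_sum_le_sum_abs _ _
      _ ≤ ∑ j ∈ Sᶜ, Bx * mass Ω (u j t) := Finset.sum_le_sum fun j _ => h6 j
      _ = Bx * ∑ j ∈ Sᶜ, mass Ω (u j t) := by rw [Finset.mul_sum]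
      _ ≤ _ := mul_le_mul_of_nonneg_left hz1 hBx.le
  -- the quadratic error
  have b7 : d k * K * |GH| ≤ K / 4 * h2 + d k ^ 2 * (K * Bx ^ 2 * vol Ω) := by
    have h6 := s7_young hO hb (A := d k * K) (B := Bx) (r := K / 4) (by positivity) (by positivity)
      (cg.mul ch) ch.abs (fun x _ => by
        rw [Pi.mul_apply, abs_mul]
        exact mul_le_mul_of_nonneg_right (hXg x).2 (abs_nonneg _))
    have h7 : (∫ x in Ω, |m x - ∑ j, u j t x| ^ 2) = h2 := by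
      rw [hh2]
      refine integral_congr_ae (Eventually.of_forall fun x => ?_)
      exact sq_abs _
    have h8 : (∫ x in Ω, (g * fun x => m x - ∑ j, u j t x) x) = GH := by rw [hGH]; rfl
    rw [h7, h8] at h6
    refine h6.trans (le_of_eq ?_)
    field_simp
  -- the species `l`
  obtain ⟨s, hsdef⟩ : ∃ s, s = ∫ x in Ω, u l t x ^ 2 := ⟨_, rfl⟩
  obtain ⟨D2, hD2⟩ : ∃ D2, D2 = ∫ x in Ω, ‖Du l t x‖ ^ 2 := ⟨_, rfl⟩
  have hsM : s ≤ M ^ 2 * vol Ω := by
    have h1 : (∫ x in Ω, u l t x ^ 2) ≤ ∫ _ in Ω, M ^ 2 := by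
      refine setIntegral_mono_on (p_A2 Ω hb _ ((hcu l).pow 2)) (p_A2 Ω hb _ continuousOn_const)
        hO.measurableSet ?_
      intro x hx
      exact pow_le_pow_left₀ (hnn l x (subset_closure hx)) (huM l x (subset_closure hx)) 2
    rw [setIntegral_const, smul_eq_mul, mul_comm] at h1
    rw [hsdef]
    exact h1
  have hsl' : 0 < s := by rw [hsdef]; exact hsl
  have b8 : d k * K * |XD l| ≤ 1 / 2 * (vol Ω * d l * D2 / s) +
      d k ^ 2 * (K ^ 2 * Bx ^ 2 * M ^ 2 * vol Ω / (2 * D)) := by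
    have h6 := s7_young hO hb (A := d k * K) (B := Bx) (r := vol Ω * d l / (2 * s))
      (by positivity) (by positivity) (cX.inner (hcD l)) (hcD l).norm (fun x _ =>
        (abs_real_inner_le_norm _ _).trans
          (mul_le_mul_of_nonneg_right (hXg x).1 (norm_nonneg _)))
    rw [← hXD l, ← hD2] at h6
    refine h6.trans ?_
    have h7 : vol Ω * d l / (2 * s) * D2 = 1 / 2 * (vol Ω * d l * D2 / s) := by
      field_simp
    have h8 : (d k * K * Bx) ^ 2 / (4 * (vol Ω * d l / (2 * s))) * vol Ω ≤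
        d k ^ 2 * (K ^ 2 * Bx ^ 2 * M ^ 2 * vol Ω / (2 * D)) := by
      have h9 : (d k * K * Bx) ^ 2 / (4 * (vol Ω * d l / (2 * s))) * vol Ω =
          (d k * K * Bx) ^ 2 / 2 * (s / d l) := by
        field_simp
        norm_num
      have h10 : s / d l ≤ M ^ 2 * vol Ω / D := div_le_div₀ (by positivity) hsM hD hDl
      have h11 := mul_le_mul_of_nonneg_left h10 (by positivity : 0 ≤ (d k * K * Bx) ^ 2 / 2)
      rw [h9]
      refine h11.trans (le_of_eq ?_)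
      field_simp
    rw [h7]
    linarith
  -- the species in the middle
  have hcard : ∀ F : Finset (Fin N), (F.card : ℝ) ≤ (N : ℝ) := fun F => by
    have h1 := Finset.card_le_univ F
    rw [Fintype.card_fin] at h1
    exact_mod_cast h1
  have hTA : 1 / (8 * (N : ℝ)) * ∑ i ∈ Sm, D * En' i ≤
      1 / (4 * (N : ℝ)) * ∑ i ∈ mid, sg (gg i) * a i := by
    have h1 : 1 / (8 * (N : ℝ)) * ∑ i ∈ Sm, D * En' i =
        1 / (4 * (N : ℝ)) * ∑ i ∈ Sm, 1 / 2 * (D * En' i) := by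
      rw [← Finset.mul_sum Sm (fun i => D * En' i) (1 / 2)]
      have e : 1 / (8 * (N : ℝ)) = 1 / (4 * N) * (1 / 2) := by
        field_simp
        norm_num
      rw [e]
      ring
    rw [h1]
    refine mul_le_mul_of_nonneg_left ?_ hε0p.le
    calc ∑ i ∈ Sm, 1 / 2 * (D * En' i) ≤ ∑ i ∈ Sm, sg (gg i) * a i := by
          refine Finset.sum_le_sum fun i hi => ?_
          have hi' := Finset.mem_filter.1 (hSm ▸ hi)
          have h2 := s7_sg_half hi'.2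
          have h6 : D * En' i ≤ a i := by
            rw [ha]
            exact mul_le_mul_of_nonneg_right (hDmid i hi'.1) (hEn i)
          have h7 : 0 ≤ D * En' i := mul_nonneg hD.le (hEn i)
          exact mul_le_mul h2 h6 h7 (s7_sg_pos _).le
      _ ≤ ∑ i ∈ mid, sg (gg i) * a i := by
          refine Finset.sum_le_sum_of_subset_of_nonneg ?_ fun i _ _ =>
            mul_nonneg (s7_sg_pos _).le (ha0 i)
          rw [hSm]
          exact Finset.filter_subset _ _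
  have b9 : d k * K * |SS| ≤ 1 / (4 * (N : ℝ)) * (∑ i ∈ mid, sg (gg i) * a i) +
      d k ^ 2 * (8 * N ^ 2 * K ^ 2 * Bx ^ 2 * M ^ 2 * vol Ω / D) := by
    have h6 : ∀ i, d k * K * |XD i| ≤ 1 / (8 * (N : ℝ)) * (D * En' i) +
        d k ^ 2 * (8 * N * K ^ 2 * Bx ^ 2 * M ^ 2 * vol Ω / D) := by
      intro i
      have h7 := s7_young hO hb (A := d k * K) (B := Bx) (r := D / (32 * N * M ^ 2))
        (by positivity) (by positivity) (cX.inner (hcD i)) (hcD i).norm (fun x _ =>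
          (abs_real_inner_le_norm _ _).trans
            (mul_le_mul_of_nonneg_right (hXg x).1 (norm_nonneg _)))
      rw [← hXD i] at h7
      refine h7.trans ?_
      have h8 := h5.1 i
      rw [← hEn' i] at h8
      have h9 : D / (32 * N * M ^ 2) * (∫ x in Ω, ‖Du i t x‖ ^ 2) ≤
          1 / (8 * (N : ℝ)) * (D * En' i) := by
        have h10 := mul_le_mul_of_nonneg_left h8
          (by positivity : 0 ≤ D / (32 * (N : ℝ) * M ^ 2))
        refine h10.trans (le_of_eq ?_)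
        field_simp
        ring
      have h10 : (d k * K * Bx) ^ 2 / (4 * (D / (32 * N * M ^ 2))) * vol Ω =
          d k ^ 2 * (8 * N * K ^ 2 * Bx ^ 2 * M ^ 2 * vol Ω / D) := by
        field_simp
        norm_num
      rw [h10]
      linarith
    have h7 : |SS| ≤ ∑ i ∈ Sm, |XD i| := by
      rw [hSS]
      exact Finset.abs_sum_le_sum_abs _ _
    have h8 : d k * K * |SS| ≤ ∑ i ∈ Sm, (1 / (8 * (N : ℝ)) * (D * En' i) +
        d k ^ 2 * (8 * N * K ^ 2 * Bx ^ 2 * M ^ 2 * vol Ω / D)) := by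
      refine (mul_le_mul_of_nonneg_left h7 (by positivity)).trans ?_
      rw [Finset.mul_sum]
      exact Finset.sum_le_sum fun i _ => h6 i
    rw [Finset.sum_add_distrib, ← Finset.mul_sum, Finset.sum_const, nsmul_eq_mul] at h8
    have h9 : (Sm.card : ℝ) * (d k ^ 2 * (8 * N * K ^ 2 * Bx ^ 2 * M ^ 2 * vol Ω / D)) ≤
        d k ^ 2 * (8 * N ^ 2 * K ^ 2 * Bx ^ 2 * M ^ 2 * vol Ω / D) := by
      refine (mul_le_mul_of_nonneg_right (hcard Sm) (by positivity)).trans (le_of_eq ?_)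
      field_simp
    linarith
  -- the static estimate of species `l`
  have b3' := hs2 Ω P hΩ D R C₁ hD hR hC₁ hCE (u l t) (Du l t) (hcj l) hsl
    (fun x => m x - ∑ j, u j t x) ch huR (d l) hDl
  rw [← hsdef, ← hD2, ← hh2] at b3'
  have b3 : 1 / 2 * (vol Ω * d l * D2 / s) - K / 4 * h2 ≤ (∫ x in Ω, (m x - ∑ j, u j t x))
      - vol Ω * (((∫ x in Ω, u l t x ^ 2 * (m x - ∑ j, u j t x)) - d l * D2) / s) := by
    have h6 : P / D * (10 + 2 * (vol Ω * C₁) ^ 2) * h2 ≤ K / 4 * h2 :=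
      mul_le_mul_of_nonneg_right (by linarith) hh20
    linarith
  have b3e : |∑ i ∈ mid, sg (gg i) * er i| ≤ R * ∑ i ∈ mid, sg (gg i) * Er Ω ε (u i t) := by
    rw [Finset.mul_sum]
    refine (Finset.abs_sum_le_sum_abs _ _).trans (Finset.sum_le_sum fun i _ => ?_)
    rw [abs_mul, abs_of_pos (s7_sg_pos _)]
    have h1 := mul_le_mul_of_nonneg_left (b2 i) (s7_sg_pos (gg i)).le
    linarith
  have hTEr : 0 ≤ ∑ i ∈ mid, sg (gg i) * Er Ω ε (u i t) :=
    Finset.sum_nonneg fun i _ => mul_nonneg (s7_sg_pos _).le (hEr0 i)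
  have hTτ : 0 ≤ ∑ i ∈ mid, sg (gg i) := Finset.sum_nonneg fun i _ => (s7_sg_pos _).le
  have hTτ' : ∑ i ∈ mid, sg (gg i) ≤ (N : ℝ) := by
    calc ∑ i ∈ mid, sg (gg i) ≤ ∑ i ∈ mid, (1 : ℝ) := Finset.sum_le_sum fun i _ => s7_sg_le _
      _ = mid.card := by simp
      _ ≤ _ := hcard mid
  have hsumeq : ∀ H : ℝ, ∑ i ∈ mid, sg (gg i) * ((a i + H - er i) - (a k + H - er k)) =
      (∑ i ∈ mid, sg (gg i) * a i) - (∑ i ∈ mid, sg (gg i) * er i)
        - (∑ i ∈ mid, sg (gg i)) * (a k - er k) := by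
    intro H
    rw [Finset.sum_mul, ← Finset.sum_sub_distrib, ← Finset.sum_sub_distrib]
    refine Finset.sum_congr rfl fun i _ => ?_
    ring
  have hεT : 1 / (4 * (N : ℝ)) * ∑ i ∈ mid, sg (gg i) ≤ 1 / 4 := by
    have h1 := mul_le_mul_of_nonneg_left hTτ' hε0p.le
    have h2 : 1 / (4 * (N : ℝ)) * (N : ℝ) = 1 / 4 := by
      field_simp
    linarith
  have hεT0 : 0 ≤ 1 / (4 * (N : ℝ)) * ∑ i ∈ mid, sg (gg i) := mul_nonneg hε0p.le hTτ
  have hε01 : 1 / (4 * (N : ℝ)) ≤ 1 := by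
    rw [div_le_one (by positivity)]
    linarith
  have hErk := hEr0 k
  have hRE : 0 ≤ R * Er Ω ε (u k t) := by positivity
  have hRT : 0 ≤ R * ∑ i ∈ mid, sg (gg i) * Er Ω ε (u i t) := by positivity
  have q2 : - (1 / 4 * (R * Er Ω ε (u k t))) ≤
      1 / (4 * (N : ℝ)) * (∑ i ∈ mid, sg (gg i)) * er k := by
    have h1 := (abs_le.1 (b2 k)).1
    have h2 := mul_le_mul_of_nonneg_left h1 hεT0
    have h6 := mul_le_mul_of_nonneg_right hεT hRE
    linarith
  have q3 : 1 / (4 * (N : ℝ)) * (∑ i ∈ mid, sg (gg i) * er i) ≤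
      R * ∑ i ∈ mid, sg (gg i) * Er Ω ε (u i t) := by
    have h1 := (abs_le.1 b3e).2
    have h2 := mul_le_mul_of_nonneg_left h1 hε0p.le
    have h6 := mul_le_mul_of_nonneg_right hε01 hRT
    linarith
  have hc1 : d k * (4 * K ^ 2 * Bx ^ 2) * h2 ≤ K / 4 * h2 := by
    refine mul_le_mul_of_nonneg_right ?_ hh20
    have h6 := mul_le_mul_of_nonneg_left hdkB hK0.le
    linarith
  have i0' : 1 / (2 * m₀) * (∫ x in Ω, ‖Dψ x‖ ^ 2) - 4 * K ^ 2 * m₀ * e
      - 4 * K ^ 2 * Bx ^ 2 * (h2 + vol Ω * ε ^ 2) ≤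
      J - K * A2 - K * GH + K * (XD l + SS + SC) := by
    refine i0.trans (le_of_eq ?_)
    rw [hzero, hsumX]
    ring
  have q4 : (∫ x in Ω, (1 + K * m x) * (ε / (u k t x + ε)) * (m x - ∑ j, u j t x)) ≤
      (1 + K * m₀) * (R * Er Ω ε (u k t)) := by
    have := (abs_le.1 b4).2
    linarith
  have key := s7_alg (V2 := vol Ω * (((∫ x in Ω, u l t x ^ 2 * (m x - ∑ j, u j t x))
      - d l * D2) / s)) hdk0 hK0 (hEn k) hh20 hεT hRE i0' hc1 b7 b8 b9 b10 b3 q2 q3 q4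
  have hgE : ∑ i ∈ mid, sg (Lg Ω ε (u i t) - Lg Ω ε (u k t) + K0) * Er Ω ε (u i t) =
      ∑ i ∈ mid, sg (gg i) * Er Ω ε (u i t) :=
    Finset.sum_congr rfl fun i _ => by rw [hgg]
  have q6 : vol Ω / 2 * ((2 * (∫ x in Ω, u l t x ^ 2 * (m x - ∑ j, u j t x))
          - 2 * d l * D2) / s) =
      vol Ω * (((∫ x in Ω, u l t x ^ 2 * (m x - ∑ j, u j t x)) - d l * D2) / s) := by
    ring
  rw [hgE, e1, e2, hsumeq, ← hsdef, ← hD2, q6, ha k]
  have e4 : (∫ x in Ω, (1 + K * m x) * (m x - ∑ j, u j t x)) =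
      (∫ x in Ω, (m x - ∑ j, u j t x)) + K * h2
        + K * ∑ j, ∫ x in Ω, u j t x * (m x - ∑ i, u i t x) := by
    rw [← e3]
    ring
  rw [e4]
  refine le_trans ?_ (key.trans (le_of_eq ?_))
  · have hN2 : (1 : ℝ) ≤ (N : ℝ) ^ 2 := one_le_pow₀ hN1
    have hq : 0 ≤ K ^ 2 * Bx ^ 2 * M ^ 2 * vol Ω / D := by positivity
    have r1 : K ^ 2 * Bx ^ 2 * M ^ 2 * vol Ω / (2 * D) =
        1 / 2 * (K ^ 2 * Bx ^ 2 * M ^ 2 * vol Ω / D) := by
      field_simp
    have r2 : 8 * (N : ℝ) ^ 2 * K ^ 2 * Bx ^ 2 * M ^ 2 * vol Ω / D =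
        8 * (N : ℝ) ^ 2 * (K ^ 2 * Bx ^ 2 * M ^ 2 * vol Ω / D) := by
      field_simp
    have r3 : 9 * (N : ℝ) ^ 2 * K ^ 2 * Bx ^ 2 * M ^ 2 * vol Ω / D =
        9 * (N : ℝ) ^ 2 * (K ^ 2 * Bx ^ 2 * M ^ 2 * vol Ω / D) := by
      field_simp
    rw [r1, r2, r3]
    have r4 : 1 / 2 * (K ^ 2 * Bx ^ 2 * M ^ 2 * vol Ω / D) ≤
        (N : ℝ) ^ 2 * (K ^ 2 * Bx ^ 2 * M ^ 2 * vol Ω / D) :=
      mul_le_mul_of_nonneg_right (by linarith) hq
    have r5 := mul_le_mul_of_nonneg_left r4 (by positivity : 0 ≤ d k ^ 2)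
    linarith
  · ring

end Pool.Agent.Lib.MP_d8ef8f_an.Sf
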