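import Pool.Agent.Lib.MP_d8ef8f_an.Uf.Main
import Pool.Agent.Lib.MP_d8ef8f_an.Sf.C1
import Pool.Agent.Lib.MP_d8ef8f_an.Sf.C2
import Pool.Agent.Lib.MP_d8ef8f_an.Sf.C3
import Pool.Agent.Lib.MP_d8ef8f_an.Sf.Ap
import Pool.Agent.Lib.MP_d8ef8f_an.Sf.Be
import Pool.Agent.Lib.MP_d8ef8f_an.Sf.Eg
import Pool.Agent.Lib.MP_d8ef8f_an.Sf.I7
import Pool.Agent.Lib.MP_d8ef8f_an.Sf.I10
import Pool.Agent.Lib.MP_d8ef8f_an.Sf.S2
import Pool.Agent.Lib.MP_d8ef8f_an.Sf.S3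
import Pool.Agent.Lib.MP_d8ef8f_an.Sf.S4
import Pool.Agent.Lib.MP_d8ef8f_an.Sf.S7
import Pool.Agent.Lib.MP_d8ef8f_an.Sf.S10

/-!
# Slow species: assembly
-/

set_option autoImplicit false

namespace Pool.Agent.Lib.MP_d8ef8f_an.Sf

open Set Filter Topology MeasureTheory
open Pool.Agent.Lib.MP_d8ef8f_an.Gd Pool.Agent.Lib.MP_d8ef8f_an.Ff

theorem i10_all : StmI10 :=
  p_I10 p_P Uf.p_U0 Ff.p_F3 p_F4 p_F5 p_F9 (p_C3 (p_C2 p_C1)) p_Ap p_Be p_Eg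
    (p_I7 Ff.p_F3 p_F4 Uf.p_U1)

theorem s10_all : StmS10 :=
  p_S10 p_P Uf.p_U0 Ff.p_F3 p_F4 p_F5 p_F9 (p_C3 (p_C2 p_C1)) p_S3
    (p_S7 Ff.p_F3 p_F4 Uf.p_U1 Uf.p_U5 p_S2 p_S4)

/-- a monotone choice of the threshold -/
theorem exists_mono (Q : ℝ → ℝ → Prop) (hQ : ∀ D, 0 < D → ∃ δ, 0 < δ ∧ Q D δ)
    (hmono : ∀ D D' δ δ', 0 < D → D ≤ D' → 0 < δ' → δ' ≤ δ → Q D δ → Q D' δ') :
    ∃ δ : ℝ → ℝ, (∀ x, 0 < x → 0 < δ x ∧ Q x (δ x)) ∧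
      ∀ x y, 0 < x → x ≤ y → δ x ≤ δ y := by
  have hbdd : ∀ x, BddAbove {t : ℝ | 0 < t ∧ t ≤ 1 ∧ Q x t} := fun x =>
    ⟨1, fun t ht => ht.2.1⟩
  have hne : ∀ x, 0 < x → ({t : ℝ | 0 < t ∧ t ≤ 1 ∧ Q x t}).Nonempty := fun x hx => by
    obtain ⟨δ, h1, h2⟩ := hQ x hx
    exact ⟨min δ 1, lt_min h1 one_pos, min_le_right _ _,
      hmono x x δ _ hx le_rfl (lt_min h1 one_pos) (min_le_left _ _) h2⟩
  have hpos : ∀ x, 0 < x → 0 < sSup {t : ℝ | 0 < t ∧ t ≤ 1 ∧ Q x t} := fun x hx => by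
    obtain ⟨t, ht⟩ := hne x hx
    exact lt_of_lt_of_le ht.1 (le_csSup (hbdd x) ht)
  refine ⟨fun x => sSup {t : ℝ | 0 < t ∧ t ≤ 1 ∧ Q x t} / 2, fun x hx => ?_, fun x y hx hxy => ?_⟩
  · have h1 := hpos x hx
    refine ⟨by positivity, ?_⟩
    obtain ⟨t, ht, hlt⟩ := exists_lt_of_lt_csSup (hne x hx) (by linarith :
      sSup {t : ℝ | 0 < t ∧ t ≤ 1 ∧ Q x t} / 2 < sSup {t : ℝ | 0 < t ∧ t ≤ 1 ∧ Q x t})
    exact hmono x x t _ hx le_rfl (by positivity) hlt.le ht.2.2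
  · have h1 : sSup {t : ℝ | 0 < t ∧ t ≤ 1 ∧ Q x t} ≤ sSup {t : ℝ | 0 < t ∧ t ≤ 1 ∧ Q y t} :=
      csSup_le_csSup (hbdd y) (hne x hx) fun t ht =>
        ⟨ht.1, ht.2.1, hmono x y t t hx hxy ht.1 le_rfl ht.2.2⟩
    simp only
    linarith

/-- **slow species, `m` changes sign** -/
theorem slow_sign {n : ℕ} (N : ℕ) {Ω : Set (Sp n)} (hΩ : Domain Ω) {m : Sp n → ℝ}
    (hm : ContinuousOn m (closure Ω)) (hpos : ∃ x ∈ closure Ω, 0 < m x)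
    (hneg : ∃ x ∈ closure Ω, m x < 0) :
    ∃ δ : ℝ → ℝ, (∀ x, 0 < x → 0 < δ x) ∧ (∀ x y, 0 < x → x ≤ y → δ x ≤ δ y) ∧
      ∀ (d : Fin N → ℝ), (∀ j, 0 < d j) → ∀ (k l : Fin N) (L : Finset (Fin N)),
        d k ≤ δ (d l) → Dies Ω d m k l L := by
  obtain ⟨δ, h1, h2⟩ := exists_mono (fun D δ => ∀ (d : Fin N → ℝ), (∀ j, 0 < d j) →
      ∀ (k l : Fin N) (L : Finset (Fin N)), d k ≤ δ → D ≤ d l → Dies Ω d m k l L)
    (fun D hD => i10_all N Ω hΩ m hm hpos hneg D hD)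
    (fun D D' δ δ' _ hDD _ hδ h d hd k l L hk hl => h d hd k l L (hk.trans hδ) (hDD.trans hl))
  exact ⟨δ, fun x hx => (h1 x hx).1, h2, fun d hd k l L hk =>
    (h1 (d l) (hd l)).2 d hd k l L hk le_rfl⟩

/-- **slow species, `m = ψ²`** -/
theorem slow_sq {n : ℕ} (N : ℕ) {Ω : Set (Sp n)} (hΩ : Domain Ω) {m ψ : Sp n → ℝ}
    {Dψ : Sp n → Sp n} (hψ : C1 Ω ψ Dψ) (hmψ : ∀ x ∈ closure Ω, 0 ≤ ψ x ∧ m x = ψ x ^ 2)
    (hnc : ∃ x ∈ closure Ω, ∃ y ∈ closure Ω, m x ≠ m y) :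
    ∃ δ : ℝ → ℝ, (∀ x, 0 < x → 0 < δ x) ∧ (∀ x y, 0 < x → x ≤ y → δ x ≤ δ y) ∧
      ∀ (d : Fin N → ℝ), (∀ j, 0 < d j) → ∀ (k l : Fin N) (L : Finset (Fin N)) (D : ℝ), 0 < D →
        k ≠ l → k ∉ L → l ∉ L → d k ≤ δ D → (∀ j, j ∉ L → j ≠ k → D ≤ d j) →
        Dies Ω d m k l L := by
  obtain ⟨δ, h1, h2⟩ := exists_mono (fun D δ => ∀ (d : Fin N → ℝ), (∀ j, 0 < d j) →
      ∀ (k l : Fin N) (L : Finset (Fin N)), k ≠ l → k ∉ L → l ∉ L → d k ≤ δ →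
        (∀ j, j ∉ L → j ≠ k → D ≤ d j) → Dies Ω d m k l L)
    (fun D hD => s10_all N Ω hΩ m ψ Dψ hψ hmψ hnc D hD)
    (fun D D' δ δ' _ hDD _ hδ h d hd k l L hkl hkL hlL hk hl =>
      h d hd k l L hkl hkL hlL (hk.trans hδ) fun j hj hjk => hDD.trans (hl j hj hjk))
  exact ⟨δ, fun x hx => (h1 x hx).1, h2, fun d hd k l L D hD hkl hkL hlL hk hj =>
    (h1 D hD).2 d hd k l L hkl hkL hlL hk hj⟩

/-- attraction when all species above `l` die out -/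
theorem attr_of_dies {n N : ℕ} {Ω : Set (Sp n)} {P : ℝ} (hD : Dom Ω P) {m : Sp n → ℝ}
    (hm : ContinuousOn m (closure Ω)) {d : Fin N → ℝ} (k l : Fin N) (hkl : k ≤ l)
    {θ : Sp n → ℝ}
    (hfar : ∀ j, l < j → Dies Ω d m k j (Finset.univ.filter (fun j => j < k)))
    (hA : AttrSU Ω d m k θ (Finset.univ.filter (fun j => j < k) ∪
        Finset.univ.filter (fun j => l < j))) : Attr Ω d m k θ := by
  classical
  apply attr_of_attrS hD.bdd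
  refine attrS_of_dies hD hm ?_ ?_ hA
  · rw [Finset.disjoint_left]
    intro j hj hj'
    have h1 : j < k := by simpa using hj
    have h2 : l < j := by simpa using hj'
    exact absurd h1 (not_lt.2 (hkl.trans h2.le))
  · intro j hj
    exact hfar j (by simpa using hj)

/-- a species that dies in the sense of `Dies` tends to zero along bounded forward trajectories -/
theorem tendsto_of_dies {n N : ℕ} {Ω : Set (Sp n)} (hO : IsOpen Ω) (hb : Bornology.IsBounded Ω)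
    {m : Sp n → ℝ} {d : Fin N → ℝ} {k l : Fin N} (h : Dies Ω d m k l ∅)
    {u : Fin N → ℝ → Sp n → ℝ} (hu : Forward Ω d m u) {a : ℝ} (ha : 0 < a)
    (hk : 0 < mass Ω (u k a)) : Tendsto (fun t => ∫ x in Ω, u l t x ^ 2) atTop (𝓝 0) := by
  obtain ⟨⟨ut, Du, lu, hs⟩, hc, M, hM⟩ := hu
  have hsq : ∀ t, a ≤ t → 0 ≤ (∫ x in Ω, u l t x ^ 2) ∧
      (∫ x in Ω, u l t x ^ 2) ≤ |M| * mass Ω (u l t) := by
    intro t ht
    have ht0 : 0 < t := lt_of_lt_of_le ha ht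
    have hcl : ContinuousOn (u l t) (closure Ω) := (hs.lap l t ht0).c1.cont
    refine ⟨setIntegral_nonneg hO.measurableSet fun x _ => sq_nonneg _, ?_⟩
    unfold mass
    rw [← integral_const_mul]
    refine setIntegral_mono_on (p_A2 Ω hb _ (hcl.pow 2)) ((p_A2 Ω hb _ hcl).const_mul _)
      hO.measurableSet fun x hx => ?_
    have h1 := hs.nonneg l t ht0 x (subset_closure hx)
    have h2 := (hM l t ht0.le x (subset_closure hx)).trans (le_abs_self M)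
    rw [sq]
    exact mul_le_mul_of_nonneg_right h2 h1
  rw [Metric.tendsto_atTop]
  intro e he
  obtain ⟨S, ν, hν, H⟩ := h M (mass Ω (u k a)) (e / (|M| + 1)) hk (by positivity)
  refine ⟨a + |S| + 1, fun t ht => ?_⟩
  have hat : a ≤ t := by
    have := abs_nonneg S
    linarith
  obtain ⟨h1, h2⟩ := hsq t hat
  rw [Real.dist_eq, sub_zero, abs_of_nonneg h1]
  by_contra hcon
  push Not at hcon
  have h3 : e / (|M| + 1) ≤ mass Ω (u l t) := by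
    rw [div_le_iff₀ (by positivity)]
    have h4 : 0 ≤ mass Ω (u l t) := setIntegral_nonneg hO.measurableSet fun x hx =>
      hs.nonneg l t (lt_of_lt_of_le ha hat) x (subset_closure hx)
    linarith
  have h4 := H (Ioi 0) isOpen_Ioi a t hat (fun s hs' => lt_of_lt_of_le ha hs'.1) u ut Du lu hs
    (fun j s hs' x hx => hM j s (ha.le.trans hs'.1) x hx) le_rfl
    (fun s _ => by simpa using hν.le) h3
  have := le_abs_self S
  linarith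

end Pool.Agent.Lib.MP_d8ef8f_an.Sf
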