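import Pool.Agent.Lib.MP_d8ef8f_an.Sf.Stm
import Pool.Agent.Lib.MP_d8ef8f_an.Gd.A2

/-!
# S3: a vector field
-/

set_option autoImplicit false

namespace Pool.Agent.Lib.MP_d8ef8f_an.Sf

open Set Filter Topology MeasureTheory
open Pool.Agent.Lib.MP_d8ef8f_an.Gd Pool.Agent.Lib.MP_d8ef8f_an.Ff

/-- test functions -/
private def Tst {n : ℕ} (Ω : Set (Sp n)) (ξ : Sp n → ℝ) : Prop :=
  ContDiff ℝ ((⊤ : ℕ∞) : WithTop ℕ∞) ξ ∧ HasCompactSupport ξ ∧ tsupport ξ ⊆ Ω

private theorem Tst.zero {n : ℕ} (Ω : Set (Sp n)) : Tst Ω (fun _ => (0 : ℝ)) := by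
  refine ⟨contDiff_const, ?_, ?_⟩
  · exact HasCompactSupport.zero
  · have : tsupport (fun _ : Sp n => (0 : ℝ)) = ∅ := tsupport_eq_empty_iff.mpr rfl
    rw [this]
    exact empty_subset _

private theorem Tst.add {n : ℕ} {Ω : Set (Sp n)} {ξ η : Sp n → ℝ} (hξ : Tst Ω ξ) (hη : Tst Ω η) :
    Tst Ω (fun x => ξ x + η x) := by
  refine ⟨hξ.1.add hη.1, hξ.2.1.add hη.2.1, ?_⟩
  exact (tsupport_add ξ η).trans (union_subset hξ.2.2 hη.2.2)

private theorem Tst.smul {n : ℕ} {Ω : Set (Sp n)} {ξ : Sp n → ℝ} (hξ : Tst Ω ξ) (c : ℝ) :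
    Tst Ω (fun x => c * ξ x) := by
  refine ⟨contDiff_const.mul hξ.1, hξ.2.1.mul_left, ?_⟩
  exact (tsupport_mul_subset_right (f := fun _ : Sp n => c) (g := ξ)).trans hξ.2.2

private theorem Tst.zero_of {n : ℕ} {Ω : Set (Sp n)} {ξ : Sp n → ℝ} (hξ : Tst Ω ξ) {x : Sp n}
    (hx : x ∉ Ω) : ξ x = 0 := by
  by_contra h
  exact hx (hξ.2.2 (subset_tsupport ξ h))

/-- functions continuous on the closure are square integrable -/
private theorem memLp_of_cont {n : ℕ} {Ω : Set (Sp n)} (hO : IsOpen Ω)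
    (hb : Bornology.IsBounded Ω) {F : Sp n → ℝ} (hF : ContinuousOn F (closure Ω)) :
    MemLp F 2 (volume.restrict Ω) := by
  have hm : AEStronglyMeasurable F (volume.restrict Ω) :=
    (hF.mono subset_closure).aestronglyMeasurable hO.measurableSet
  rw [memLp_two_iff_integrable_sq hm]
  exact p_A2 Ω hb (fun x => F x ^ 2) (hF.pow 2)

/-- at interior zeros of a nonnegative function the gradient vanishes -/
private theorem grad_zero {n : ℕ} {Ω : Set (Sp n)} (hO : IsOpen Ω) {ψ : Sp n → ℝ}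
    {Dψ : Sp n → Sp n} (hψ : C1 Ω ψ Dψ) (h0 : ∀ x ∈ closure Ω, 0 ≤ ψ x) {x : Sp n} (hx : x ∈ Ω)
    (hz : ψ x = 0) : Dψ x = 0 := by
  have hmin : IsLocalMin ψ x := by
    filter_upwards [hO.mem_nhds hx] with y hy
    rw [hz]
    exact h0 y (subset_closure hy)
  have h1 := hψ.grad x hx
  rw [hasGradientAt_iff_hasFDerivAt] at h1
  have h2 := hmin.hasFDerivAt_eq_zero h1
  exact (LinearIsometryEquiv.map_eq_zero_iff _).1 h2

/-- density -/
private theorem dens {n : ℕ} {Ω : Set (Sp n)} (hO : IsOpen Ω) (hb : Bornology.IsBounded Ω)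
    {ψ : Sp n → ℝ} {Dψ : Sp n → Sp n} (hψ : C1 Ω ψ Dψ)
    {F : Sp n → ℝ} (hF : ContinuousOn F (closure Ω)) (hF0 : ∀ x ∈ Ω, ψ x = 0 → F x = 0)
    {e : ℝ} (he : 0 < e) :
    ∃ ξ : Sp n → ℝ, Tst Ω ξ ∧ (∫ x in Ω, (F x - ψ x * ξ x) ^ 2) ≤ e := by
  classical
  set μ : Measure (Sp n) := volume.restrict Ω with hμ
  have hFL : MemLp F 2 μ := memLp_of_cont hO hb hF
  have hψξ : ∀ ξ : Sp n → ℝ, Tst Ω ξ → MemLp (fun x => ψ x * ξ x) 2 μ := fun ξ hξ =>
    memLp_of_cont hO hb (hψ.cont.mul hξ.1.continuous.continuousOn)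
  let S : Submodule ℝ (Lp ℝ 2 μ) :=
    { carrier := {f | ∃ ξ : Sp n → ℝ, Tst Ω ξ ∧ (f : Sp n → ℝ) =ᵐ[μ] fun x => ψ x * ξ x}
      add_mem' := by
        rintro f g ⟨ξ, hξ, hf⟩ ⟨η, hη, hg⟩
        refine ⟨fun x => ξ x + η x, hξ.add hη, ?_⟩
        filter_upwards [Lp.coeFn_add f g, hf, hg] with x h1 h2 h3
        rw [h1, Pi.add_apply, h2, h3, mul_add]
      zero_mem' := by
        refine ⟨fun _ => 0, Tst.zero Ω, ?_⟩
        filter_upwards [Lp.coeFn_zero ℝ 2 μ] with x h1
        rw [h1, Pi.zero_apply, mul_zero]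
      smul_mem' := by
        rintro c f ⟨ξ, hξ, hf⟩
        refine ⟨fun x => c * ξ x, hξ.smul c, ?_⟩
        filter_upwards [Lp.coeFn_smul c f, hf] with x h1 h2
        rw [h1, Pi.smul_apply, h2, smul_eq_mul]
        ring }
  have hmem : hFL.toLp F ∈ closure (S : Set (Lp ℝ 2 μ)) := by
    rw [← Submodule.topologicalClosure_coe, SetLike.mem_coe,
      ← Submodule.orthogonal_orthogonal_eq_closure, Submodule.mem_orthogonal]
    intro w hw
    rw [Submodule.mem_orthogonal] at hw
    have hwL : MemLp (w : Sp n → ℝ) 2 μ := Lp.memLp w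
    -- `w ψ = 0` a.e.
    have h1 : ∀ᵐ x ∂(volume : Measure (Sp n)), x ∈ Ω → ψ x * w x = 0 := by
      refine hO.ae_eq_zero_of_integral_contDiff_smul_eq_zero ?_ ?_
      · have : IntegrableOn (fun x => ψ x * w x) Ω volume := by
          exact (memLp_of_cont hO hb hψ.cont).integrable_mul hwL
        exact this.locallyIntegrableOn
      · intro g hg hgc hgs
        have hT : Tst Ω g := ⟨hg, hgc, hgs⟩
        have h2 := hw ((hψξ g hT).toLp _) ⟨g, hT, (hψξ g hT).coeFn_toLp⟩
        rw [L2.inner_def] at h2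
        have h3 : (∫ x, g x • (ψ x * w x)) = ∫ x in Ω, g x • (ψ x * w x) := by
          rw [setIntegral_eq_integral_of_forall_compl_eq_zero]
          intro x hx
          rw [hT.zero_of hx, zero_smul]
        rw [h3, ← h2]
        refine integral_congr_ae ?_
        filter_upwards [(hψξ g hT).coeFn_toLp] with x h4
        rw [h4, real_inner_eq_re_inner, RCLike.inner_apply]
        simp only [conj_trivial, smul_eq_mul, RCLike.re_to_real]
        ring
    have h1' : ∀ᵐ x ∂μ, ψ x * w x = 0 := (ae_restrict_iff' hO.measurableSet).2 h1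
    have h1'' : ∀ᵐ x ∂μ, x ∈ Ω := ae_restrict_mem hO.measurableSet
    rw [L2.inner_def]
    rw [integral_congr_ae (g := fun _ => (0 : ℝ)), integral_zero]
    filter_upwards [h1', h1'', hFL.coeFn_toLp] with x h2 h3 h4
    rw [h4]
    rcases mul_eq_zero.1 h2 with h5 | h5
    · rw [hF0 x h3 h5, inner_zero_right]
    · rw [h5, inner_zero_left]
  obtain ⟨f, ⟨ξ, hξ, hf⟩, hd⟩ := Metric.mem_closure_iff.1 hmem (Real.sqrt e) (Real.sqrt_pos.2 he)
  refine ⟨ξ, hξ, ?_⟩
  have h2 : ‖hFL.toLp F - f‖ ^ 2 = ∫ x in Ω, (F x - ψ x * ξ x) ^ 2 := by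
    rw [← real_inner_self_eq_norm_sq, L2.inner_def]
    refine integral_congr_ae ?_
    filter_upwards [Lp.coeFn_sub (hFL.toLp F) f, hFL.coeFn_toLp, hf] with x h3 h4 h5
    rw [h3, Pi.sub_apply, h4, h5, real_inner_self_eq_norm_sq, Real.norm_eq_abs, sq_abs]
  rw [← h2]
  rw [dist_eq_norm] at hd
  calc ‖hFL.toLp F - f‖ ^ 2 ≤ (Real.sqrt e) ^ 2 := by gcongr
    _ = e := Real.sq_sqrt he.le

/-- integration by parts in the direction `i` -/
private theorem parts {n : ℕ} {Ω : Set (Sp n)} (hb : Bornology.IsBounded Ω)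
    {ξ : Sp n → ℝ} (hξ : Tst Ω ξ) {f : Sp n → ℝ} {Df : Sp n → Sp n} (hf : C1 Ω f Df)
    (v : Sp n) : (∫ x in Ω, fderiv ℝ ξ x v * f x) = - ∫ x in Ω, ξ x * inner ℝ (Df x) v := by
  have hcd : Continuous (fderiv ℝ ξ) := hξ.1.continuous_fderiv (by simp)
  have hcv : Continuous fun x => fderiv ℝ ξ x v := hcd.clm_apply continuous_const
  have hz : ∀ x, x ∉ Ω → fderiv ℝ ξ x v = 0 := by
    intro x hx
    have h1 : x ∉ tsupport ξ := fun h => hx (hξ.2.2 h)
    rw [fderiv_of_notMem_tsupport ℝ h1]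
    simp
  have int : ∀ F : Sp n → ℝ, ContinuousOn F (closure Ω) → (∀ x, x ∉ Ω → F x = 0) →
      Integrable F volume := by
    intro F hF hF0
    have h1 : IntegrableOn F Ω volume := p_A2 Ω hb F hF
    rw [← integrableOn_iff_integrable_of_support_subset (s := Ω)]
    · exact h1
    · intro x hx
      by_contra h
      exact hx (hF0 x h)
  have key := integral_bilinear_hasLineDerivAt_right_eq_neg_left_of_integrable
    (μ := (volume : Measure (Sp n))) (f := ξ) (f' := fun x => fderiv ℝ ξ x v) (g := f)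
    (g' := fun x => inner ℝ (Df x) v) (v := v) (B := ContinuousLinearMap.mul ℝ ℝ)
    (by
      refine int _ (hcv.continuousOn.mul hf.cont) ?_
      intro x hx
      simp [hz x hx])
    (by
      refine int _ (hξ.1.continuous.continuousOn.mul (hf.contD.inner continuousOn_const)) ?_
      intro x hx
      simp [hξ.zero_of hx])
    (by
      refine int _ (hξ.1.continuous.continuousOn.mul hf.cont) ?_
      intro x hx
      simp [hξ.zero_of hx])
    (by
      intro x _
      exact ((hξ.1.differentiable (by simp) x).hasFDerivAt).hasLineDerivAt v)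
    (by
      intro x hx
      have h1 := hf.grad x (hξ.2.2 hx)
      rw [hasGradientAt_iff_hasFDerivAt] at h1
      have h2 := h1.hasLineDerivAt v
      simpa using h2)
  simp only [ContinuousLinearMap.mul_apply'] at key
  rw [setIntegral_eq_integral_of_forall_compl_eq_zero (fun x hx => by rw [hz x hx, zero_mul]),
    setIntegral_eq_integral_of_forall_compl_eq_zero (fun x hx => by rw [hξ.zero_of hx, zero_mul]),
    key, neg_neg]

theorem p_S3 : StmS3 := by
  intro n Ω hO hb ψ Dψ hψ h0 e he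
  classical
  -- the components
  have hcomp : ∀ i : Fin n, ∃ ξ : Sp n → ℝ, Tst Ω ξ ∧
      (∫ x in Ω, (2 * (Dψ x) i - ψ x * ξ x) ^ 2) ≤ e / (n + 1) := by
    intro i
    refine dens hO hb hψ (F := fun x => 2 * (Dψ x) i) ?_ ?_ (by positivity)
    · have h1 : ContinuousOn (fun x => (Dψ x) i) (closure Ω) :=
        (EuclideanSpace.proj (𝕜 := ℝ) i).continuous.comp_continuousOn hψ.contD
      exact continuousOn_const.mul h1
    · intro x hx hz
      rw [grad_zero hO hψ h0 hx hz]
      simp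
  choose ξ hξ hξe using hcomp
  let X : Sp n → Sp n := fun x => WithLp.toLp 2 (fun i => ξ i x)
  let g : Sp n → ℝ := fun x => ∑ i, fderiv ℝ (ξ i) x (EuclideanSpace.single i 1)
  have hX : Continuous X := by
    have h1 : Continuous fun x => (fun i => ξ i x : Fin n → ℝ) :=
      continuous_pi fun i => (hξ i).1.continuous
    exact (PiLp.continuous_toLp 2 _).comp h1
  have hg1 : ∀ i, Continuous fun x => fderiv ℝ (ξ i) x (EuclideanSpace.single i 1) := fun i =>
    ((hξ i).1.continuous_fderiv (by simp)).clm_apply continuous_const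
  have hg : Continuous g := continuous_finsetSum _ fun i _ => hg1 i
  have hX0 : ∀ x, x ∉ Ω → X x = 0 := by
    intro x hx
    ext i
    exact (hξ i).zero_of hx
  have hz : ∀ i x, x ∉ Ω → fderiv ℝ (ξ i) x (EuclideanSpace.single i 1) = 0 := by
    intro i x hx
    have h1 : x ∉ tsupport (ξ i) := fun h => hx ((hξ i).2.2 h)
    rw [fderiv_of_notMem_tsupport ℝ h1]
    simp
  have hg0 : ∀ x, x ∉ Ω → g x = 0 := fun x hx => Finset.sum_eq_zero fun i _ => hz i x hx
  obtain ⟨B1, hB1⟩ := hb.isCompact_closure.exists_bound_of_continuousOn hX.continuousOn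
  obtain ⟨B2, hB2⟩ := hb.isCompact_closure.exists_bound_of_continuousOn hg.continuousOn
  refine ⟨X, g, |B1| + |B2| + 1, hX, hg, by positivity, ?_, ?_, ?_⟩
  · intro x
    by_cases hx : x ∈ Ω
    · have h1 := hB1 x (subset_closure hx)
      have h2 := hB2 x (subset_closure hx)
      rw [Real.norm_eq_abs] at h2
      have h3 := le_abs_self B1
      have h4 := le_abs_self B2
      have h5 := abs_nonneg B1
      have h6 := abs_nonneg B2
      constructor <;> linarith
    · rw [hX0 x hx, hg0 x hx, norm_zero, abs_zero]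
      constructor <;> positivity
  · intro f Df hf
    have hfi : ∀ i, IntegrableOn (fun x => fderiv ℝ (ξ i) x (EuclideanSpace.single i 1) * f x) Ω
        volume := fun i => p_A2 Ω hb _ ((hg1 i).continuousOn.mul hf.cont)
    have hgi : ∀ i, IntegrableOn (fun x => ξ i x * inner ℝ (Df x) (EuclideanSpace.single i 1)) Ω
        volume := fun i => p_A2 Ω hb _ ((hξ i).1.continuous.continuousOn.mul
          (hf.contD.inner continuousOn_const))
    have e1 : (∫ x in Ω, g x * f x) =
        ∑ i, ∫ x in Ω, fderiv ℝ (ξ i) x (EuclideanSpace.single i 1) * f x := by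
      rw [← integral_finsetSum _ fun i _ => hfi i]
      refine integral_congr_ae (ae_of_all _ fun x => ?_)
      simp only [g, Finset.sum_mul]
    have e2 : (∫ x in Ω, inner ℝ (X x) (Df x)) =
        ∑ i, ∫ x in Ω, ξ i x * inner ℝ (Df x) (EuclideanSpace.single i 1) := by
      rw [← integral_finsetSum _ fun i _ => hgi i]
      refine integral_congr_ae (ae_of_all _ fun x => ?_)
      simp only [X, PiLp.inner_apply]
      refine Finset.sum_congr rfl fun i _ => ?_
      simp
      ring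
    rw [e1, e2, ← Finset.sum_neg_distrib]
    exact Finset.sum_congr rfl fun i _ => parts hb (hξ i) hf _
  · have hci : ∀ i, IntegrableOn (fun x => (2 * (Dψ x) i - ψ x * ξ i x) ^ 2) Ω volume := by
      intro i
      have h1 : ContinuousOn (fun x => (Dψ x) i) (closure Ω) :=
        (EuclideanSpace.proj (𝕜 := ℝ) i).continuous.comp_continuousOn hψ.contD
      exact p_A2 Ω hb _ (((continuousOn_const.mul h1).sub
        (hψ.cont.mul (hξ i).1.continuous.continuousOn)).pow 2)
    have e1 : (∫ x in Ω, ‖(2 : ℝ) • Dψ x - ψ x • X x‖ ^ 2) =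
        ∑ i, ∫ x in Ω, (2 * (Dψ x) i - ψ x * ξ i x) ^ 2 := by
      rw [← integral_finsetSum _ fun i _ => hci i]
      refine integral_congr_ae (ae_of_all _ fun x => ?_)
      simp only [EuclideanSpace.norm_sq_eq, X]
      refine Finset.sum_congr rfl fun i _ => ?_
      simp
    rw [e1]
    calc ∑ i, ∫ x in Ω, (2 * (Dψ x) i - ψ x * ξ i x) ^ 2 ≤ ∑ _i : Fin n, e / (n + 1) :=
          Finset.sum_le_sum fun i _ => hξe i
      _ = n * (e / (n + 1)) := by simp
      _ ≤ e := by
          have hn : (0 : ℝ) < n + 1 := by positivity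
          rw [mul_div_assoc', div_le_iff₀ hn]
          nlinarith

end Pool.Agent.Lib.MP_d8ef8f_an.Sf
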