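import Pool.Agent.Lib.MP_d8ef8f_an.Uf.Stm
import Pool.Agent.Lib.MP_d8ef8f_an.Ff.At

/-!
# Slow species: statements of the pieces

Two results of the form: if `d k ≤ δ₀` then species `l` with `d l ≥ D` dies out when species `k` is
present.

* `StmI10`: `m` continuous, positive somewhere and negative somewhere: `δ₀ = δ₀(Ω, m, N, D)`, no
  condition on the other species.
* `StmS10`: `m = ψ²`, `ψ ≥ 0` of class `C¹` up to the boundary, `m` not constant: all other species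
  outside the low set `L` have rates at least `D`.
-/

set_option autoImplicit false

namespace Pool.Agent.Lib.MP_d8ef8f_an.Sf

open Set Filter Topology MeasureTheory
open Pool.Agent.Lib.MP_d8ef8f_an.Gd Pool.Agent.Lib.MP_d8ef8f_an.Ff

/-- the compactness inequality on `Ω` with constants `η, C` -/
def CE {n : ℕ} (Ω : Set (Sp n)) (η C : ℝ) : Prop :=
  ∀ (w : Sp n → ℝ) (Dw : Sp n → Sp n), C1 Ω w Dw → ∀ h : Sp n → ℝ,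
    ContinuousOn h (closure Ω) → (∀ x ∈ closure Ω, 0 ≤ h x ∧ h x ≤ 1) →
      (∫ x in Ω, w x ^ 2 * h x) ≤ η * (∫ x in Ω, ‖Dw x‖ ^ 2)
        + C * (∫ x in Ω, w x ^ 2) * ∫ x in Ω, h x

/-- **C1** the compactness inequality on the cube.
Proof. `K` the constant of `StmP2` (`p_P2`). Take an integer `M ≥ 1` with `2 K / M² ≤ η` and
`C = 2 M^n`. For `j : Fin n → Fin M` let `A_j z = M⁻¹ (z + j)`, `Q_j = A_j (cube)`; the `Q_j` are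
disjoint and cover the cube up to the null set of the points with some coordinate in `M⁻¹ ℤ`. With
`v_j = v ∘ A_j` (derivative `M⁻¹ v' ∘ A_j`), `ρ_j = ρ ∘ A_j`:
`v_j(x)² ≤ 2 (v_j x - v_j y)² + 2 v_j(y)²`, multiply by `ρ_j x ∈ [0,1]` and integrate over
`x, y ∈ cube` (volume 1): `∫ v_j² ρ_j ≤ 2 K ∫ ‖v_j'‖² + 2 (∫ ρ_j) (∫ v_j²)`. Change of variables
`∫_{Q_j} f = M^{-n} ∫_cube f ∘ A_j`: `∫_{Q_j} v² ρ ≤ 2 K M⁻² ∫_{Q_j} ‖v'‖² + 2 M^n ∫_{Q_j} ρ ∫_{Q_j} v²`;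
sum over `j`. -/
def StmC1 : Prop :=
  ∀ (n : ℕ) (η : ℝ), 0 < η → ∃ C : ℝ, 0 ≤ C ∧
    ∀ (v : Sp n → ℝ) (v' : Sp n → Sp n →L[ℝ] ℝ) (B : ℝ),
    (∀ y ∈ cube n, HasFDerivAt v (v' y) y) → (∀ y ∈ cube n, ‖v' y‖ ≤ B) →
    ∀ ρ : Sp n → ℝ, AEStronglyMeasurable ρ (volume.restrict (cube n)) →
    (∀ y ∈ cube n, 0 ≤ ρ y ∧ ρ y ≤ 1) →
      (∫ y in cube n, v y ^ 2 * ρ y) ≤ η * (∫ y in cube n, ‖v' y‖ ^ 2)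
        + C * (∫ y in cube n, v y ^ 2) * ∫ y in cube n, ρ y

/-- **C2** the compactness inequality on a chart piece.
Proof. As in `Gd/P3.lean` (`p_P3`): change of variables
(`integral_image_eq_integral_abs_det_fderiv_smul`), `1/M ≤ |det Ψ'| ≤ M^n` (`p3_det`), `C1` for
`v = w ∘ Ψ` and `ρ = (h ∘ Ψ) |det Ψ'| / M^n`. -/
def StmC2 : Prop :=
  ∀ {n : ℕ} (Ω : Set (Sp n)), IsOpen Ω → Bornology.IsBounded Ω →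
    ∀ (W : Set (Sp n)) (Ψ : Sp n → Sp n) (Ψ' : Sp n → Sp n →L[ℝ] Sp n) (M : ℝ), 0 < M →
      InjOn Ψ (cube n) → Ψ '' cube n = W ∩ Ω →
      (∀ y ∈ cube n, HasFDerivAt Ψ (Ψ' y) y ∧ ‖Ψ' y‖ ≤ M ∧ 1 ≤ M * |(Ψ' y).det|) →
      ∀ η : ℝ, 0 < η → ∃ C : ℝ, 0 ≤ C ∧
      ∀ (w : Sp n → ℝ) (Dw : Sp n → Sp n), C1 Ω w Dw → ∀ h : Sp n → ℝ,
      ContinuousOn h (closure Ω) → (∀ x ∈ closure Ω, 0 ≤ h x ∧ h x ≤ 1) →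
        (∫ x in W ∩ Ω, w x ^ 2 * h x) ≤ η * (∫ x in Ω, ‖Dw x‖ ^ 2)
          + C * (∫ x in Ω, w x ^ 2) * ∫ x in Ω, h x

/-- **C3** the compactness inequality. Proof: finite cover of `closure Ω` by chart neighbourhoods
(as in `Gd/P.lean`, `linked_self`), `C2` with `η` divided by their number, sum. -/
def StmC3 : Prop :=
  ∀ {n : ℕ} (Ω : Set (Sp n)), Domain Ω → ∀ η : ℝ, 0 < η → ∃ C : ℝ, 0 ≤ C ∧ CE Ω η C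

/-- **Ap** uniform approximation by functions of class `C¹` up to the boundary.
Proof. Stone-Weierstrass on the compact set `closure Ω` for the subalgebra of the restrictions of
`C¹` functions on `ℝⁿ` (it contains the coordinates). -/
def StmAp : Prop :=
  ∀ {n : ℕ} (Ω : Set (Sp n)), IsOpen Ω → Bornology.IsBounded Ω → ∀ f : Sp n → ℝ,
    ContinuousOn f (closure Ω) → ∀ e : ℝ, 0 < e →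
    ∃ (ψ : Sp n → ℝ) (Dψ : Sp n → Sp n), C1 Ω ψ Dψ ∧ ∀ x ∈ closure Ω, |ψ x - f x| ≤ e

/-- **Be** a bump where `m` is positive (`m > 0` somewhere in `Ω` by continuity; a `ContDiffBump`
with support in a small ball, scaled). -/
def StmBe : Prop :=
  ∀ {n : ℕ} (Ω : Set (Sp n)), IsOpen Ω → Bornology.IsBounded Ω → ∀ m : Sp n → ℝ,
    ContinuousOn m (closure Ω) → (∃ x ∈ closure Ω, 0 < m x) →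
    ∃ (β : Sp n → ℝ) (Dβ : Sp n → Sp n), C1 Ω β Dβ ∧ (∀ x ∈ closure Ω, β x ≠ 0 → 0 < m x) ∧
      (∫ x in Ω, β x ^ 2) = vol Ω

/-- **Eg** spectral gap when `m` is negative somewhere.
Proof. `m⁻ = max (-m) 0`, `I = ∫ m⁻ > 0`, `|m⁻| ≤ m₀`, `w = c + z`, `c` the mean, `∫ w² = c² V + ∫ z²`,
`∫ z² ≤ P ∫ |Dw|²`, `w² ≥ c²/2 - z²`, so for `0 < t ≤ 1`
`∫ w² m⁻ ≥ t (c² I / 2 - m₀ ∫ z²)`, and with `t = min 1 (D / (2 m₀ P))`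
`∫ w² m⁻ + D ∫ |Dw|² ≥ t c² I / 2 + (D / (2 P)) ∫ z²`. -/
def StmEg : Prop :=
  ∀ {n : ℕ} (Ω : Set (Sp n)) (P : ℝ), Dom Ω P → ∀ m : Sp n → ℝ, ContinuousOn m (closure Ω) →
    (∃ x ∈ closure Ω, m x < 0) → ∀ D : ℝ, 0 < D → ∃ γ : ℝ, 0 < γ ∧
    ∀ (w : Sp n → ℝ) (Dw : Sp n → Sp n), C1 Ω w Dw →
      γ * (∫ x in Ω, w x ^ 2) ≤
        (∫ x in Ω, w x ^ 2 * max (- m x) 0) + D * ∫ x in Ω, ‖Dw x‖ ^ 2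

/-- the functional when `m` changes sign -/
noncomputable def PsI {n N : ℕ} (Ω : Set (Sp n)) (k l : Fin N) (K ε : ℝ) (β ψ : Sp n → ℝ)
    (u : Fin N → Sp n → ℝ) : ℝ :=
  (∫ x in Ω, (β x ^ 2 + K * ψ x ^ 2) * Real.log (u k x + ε))
    - vol Ω / 2 * Real.log (∫ x in Ω, u l x ^ 2) - K * ∑ j, mass Ω (u j)

/-- **I7** the derivative of `PsI`.
Proof. `q = β² + K ψ²`, `h = m - U`, `h₁ = m⁺ - U`, `h = h₁ - m⁻`, `a = (u_k + ε)⁻¹ Du_k`. The derivative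
is `d_k (∫ q |a|² - ∫ ⟨a, Dq⟩) + ∫ q h - ∫ q (ε/(u_k+ε)) h - V (∫ u_l² h - d_l ∫|Du_l|²)/s - K ∫ U h`.
* `q |a|² - ⟨a, Dq⟩ ≥ - |Dβ|² - K |Dψ|²`
* `q h - K U h = β² h₁ + K (ψ² - m⁺) h + K h₁² + K U m⁻`
* `∫ u_l² |h₁| ≤ (D/2) ∫ |Du_l|² + C s ∫ |h₁|`
* `∫ u_l² m⁻ + (D/2) ∫ |Du_l|² ≥ γ s`. -/
def StmI7 : Prop :=
  ∀ {n N : ℕ} (Ω : Set (Sp n)) (P : ℝ), Dom Ω P → ∀ (d : Fin N → ℝ) (m : Sp n → ℝ),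
    ContinuousOn m (closure Ω) → (∀ j, 0 < d j) → ∀ (k l : Fin N) (D R γ C K b Q e B : ℝ),
    0 < D → D ≤ d l → 0 < R → 0 ≤ C → 0 < K → 0 ≤ b → 0 ≤ Q → 0 ≤ e →
    (∀ (w : Sp n → ℝ) (Dw : Sp n → Sp n), C1 Ω w Dw → γ * (∫ x in Ω, w x ^ 2) ≤
        (∫ x in Ω, w x ^ 2 * max (- m x) 0) + D / 2 * ∫ x in Ω, ‖Dw x‖ ^ 2) →
    CE Ω (D / (2 * R)) C →
    ∀ (β ψ : Sp n → ℝ) (Dβ Dψ : Sp n → Sp n), C1 Ω β Dβ → C1 Ω ψ Dψ →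
    (∀ x ∈ closure Ω, β x ≠ 0 → 0 < m x) → (∀ x ∈ closure Ω, β x ^ 2 ≤ b) →
    (∀ x ∈ closure Ω, β x ^ 2 + K * ψ x ^ 2 ≤ Q) →
    (∀ x ∈ closure Ω, |ψ x ^ 2 - max (m x) 0| ≤ e) →
    (∫ x in Ω, ‖Dβ x‖ ^ 2) + K * (∫ x in Ω, ‖Dψ x‖ ^ 2) ≤ B → ∀ (T : Set ℝ), IsOpen T →
    ∀ (u ut : Fin N → ℝ → Sp n → ℝ) (Du : Fin N → ℝ → Sp n → Sp n) (lu : Fin N → ℝ → Sp n → ℝ),
      IsSol Ω d m T u ut Du lu → ∀ t ∈ T, (∀ x ∈ closure Ω, |m x - ∑ j, u j t x| ≤ R) →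
      0 < (∫ x in Ω, u l t x ^ 2) → ∀ ε : ℝ, 0 < ε →
      ∃ ψ' : ℝ, HasDerivAt (fun s => PsI Ω k l K ε β ψ (fun j => u j s)) ψ' t ∧
        vol Ω * γ - d k * B - K * e * R * vol Ω - (b + vol Ω * C) ^ 2 * vol Ω / (4 * K)
          - R * Q * Er Ω ε (u k t) ≤ ψ'

/-- **I10** a slow species eliminates faster ones when `m` changes sign. -/
def StmI10 : Prop :=
  ∀ {n : ℕ} (N : ℕ) (Ω : Set (Sp n)), Domain Ω → ∀ (m : Sp n → ℝ),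
    ContinuousOn m (closure Ω) → (∃ x ∈ closure Ω, 0 < m x) → (∃ x ∈ closure Ω, m x < 0) →
    ∀ D : ℝ, 0 < D → ∃ δ : ℝ, 0 < δ ∧ ∀ (d : Fin N → ℝ), (∀ j, 0 < d j) → ∀ (k l : Fin N)
    (L : Finset (Fin N)), d k ≤ δ → D ≤ d l → Dies Ω d m k l L

/-- **S2** a species with rate at least `D` (static).
Proof. `V = vol`, `s = ∫ u²`, `c̄ = (∫ u)/V`, `w = u - c̄`, `ω = ∫ w²`, `G = ∫ |Du|²`, `H² = ∫ h²`,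
`X² = V d G / s`; `s = c̄² V + ω`, `ω ≤ P G` (`Poinc`), so `√(ω/s) ≤ √(P/(d V)) X`... and
`∫ h - V (∫ u² h - d G)/s = X² + (ω ∫ h - 2 V c̄ ∫ w h - V ∫ w² h)/s`.
* `|ω ∫ h|/s ≤ √(ω/s) √V H ≤ √(P/d) X H ≤ X²/8 + 2 (P/d) H²`
* `2 V |c̄ ∫ w h|/s ≤ 2 √V √(ω/s) H ≤ 2 √(P/d) X H ≤ X²/8 + 8 (P/d) H²` (`V |c̄| ≤ √V √s`)
* `CE` for `w` and `|h|/R`: `V ∫ w² |h|/s ≤ V (D/8) G/s + V C₁ (ω/s) ∫ |h| ≤ X²/8 + V C₁ √(P/d) X H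
  ≤ X²/8 + X²/8 + 2 V² C₁² (P/d) H²`. -/
def StmS2 : Prop :=
  ∀ {n : ℕ} (Ω : Set (Sp n)) (P : ℝ), Dom Ω P → ∀ D R C₁ : ℝ, 0 < D → 0 < R → 0 ≤ C₁ →
    CE Ω (D / (8 * R)) C₁ → ∀ (u : Sp n → ℝ) (Du : Sp n → Sp n), C1 Ω u Du →
    0 < (∫ x in Ω, u x ^ 2) → ∀ h : Sp n → ℝ, ContinuousOn h (closure Ω) →
    (∀ x ∈ closure Ω, |h x| ≤ R) → ∀ d : ℝ, D ≤ d →
      1 / 2 * (vol Ω * d * (∫ x in Ω, ‖Du x‖ ^ 2) / ∫ x in Ω, u x ^ 2)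
        - P / D * (10 + 2 * (vol Ω * C₁) ^ 2) * (∫ x in Ω, h x ^ 2)
      ≤ (∫ x in Ω, h x) - vol Ω * (((∫ x in Ω, u x ^ 2 * h x) - d * ∫ x in Ω, ‖Du x‖ ^ 2)
          / ∫ x in Ω, u x ^ 2)

/-- `g` is the divergence of `X`, no flux through the boundary -/
def DivOf {n : ℕ} (Ω : Set (Sp n)) (X : Sp n → Sp n) (g : Sp n → ℝ) : Prop :=
  ∀ (f : Sp n → ℝ) (Df : Sp n → Sp n), C1 Ω f Df →
    (∫ x in Ω, g x * f x) = - ∫ x in Ω, inner ℝ (X x) (Df x)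

/-- **S3** a vector field. Proof. `X` of class `C_c^∞(Ω; ℝⁿ)`, `g = div X`. Density: in `L²(Ω)` the
functions `ψ ξ`, `ξ ∈ C_c^∞(Ω)`, form a subspace; `w` orthogonal to it has `ψ w = 0` a.e.
(`ae_eq_zero_of_integral_contDiff_smul_eq_zero`), so `w = 0` a.e. where `ψ > 0`; where `ψ = 0` in `Ω`
there is a minimum of `ψ` and `Dψ = 0`; hence every component of `Dψ` is orthogonal to `w`, i.e. is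
in the closure of the subspace (`Submodule.orthogonal_orthogonal_eq_closure`). Integration by parts
for `f X` extended by zero. -/
def StmS3 : Prop :=
  ∀ {n : ℕ} (Ω : Set (Sp n)), IsOpen Ω → Bornology.IsBounded Ω → ∀ (ψ : Sp n → ℝ)
    (Dψ : Sp n → Sp n), C1 Ω ψ Dψ → (∀ x ∈ closure Ω, 0 ≤ ψ x) → ∀ e : ℝ, 0 < e →
    ∃ (X : Sp n → Sp n) (g : Sp n → ℝ) (B : ℝ), Continuous X ∧ Continuous g ∧ 0 < B ∧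
      (∀ x, ‖X x‖ ≤ B ∧ |g x| ≤ B) ∧ DivOf Ω X g ∧
      (∫ x in Ω, ‖(2 : ℝ) • Dψ x - ψ x • X x‖ ^ 2) ≤ e

/-- **S4** pointwise inequality.
Proof. `m = ψ²`, `A = ψ a`, `Y = ψ X`, `r = G - Y`, `λ m = min u m`, `0 ≤ λ ≤ 1`. The right hand side is
`3/4 |a|² + K (|A|² - ⟨G, A⟩ - λ ⟨Y, A⟩ + ⟨Y, G⟩) - K (u - m)⁺ ⟨X, a⟩`;
`|A|² - (1+λ) ⟨G, A⟩ + |G|² + λ ⟨r, A⟩ - ⟨r, G⟩ ≥ (|A| - |G|)² - |r| |A| - |r| |G|`;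
`K |r| |A| ≤ |a|²/8 + 2 K² m₀ |r|²`; `K (u-m)⁺ |X| |a| ≤ |a|²/8 + 2 K² h² |X|²`;
`|a|²/2 + K (|A| - |G|)² ≥ |G|²/(4 m₀)` as `|a|² ≥ |A|²/m₀`, `K ≥ 1/(2 m₀)`;
`K |r| |G| ≤ |G|²/(8 m₀) + 2 K² m₀ |r|²`. -/
def StmS4 : Prop :=
  ∀ {n : ℕ} (a G X : Sp n) (ψ K u h m₀ : ℝ), 0 ≤ ψ → ψ ^ 2 ≤ m₀ → 0 < m₀ → 1 ≤ 2 * m₀ * K →
    0 ≤ u → 0 ≤ h → u ≤ ψ ^ 2 + h →
      1 / (8 * m₀) * ‖G‖ ^ 2 - 4 * K ^ 2 * m₀ * ‖G - ψ • X‖ ^ 2 - 2 * K ^ 2 * h ^ 2 * ‖X‖ ^ 2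
      ≤ (3 / 4 + K * ψ ^ 2) * ‖a‖ ^ 2 - K * (ψ * inner ℝ G a) - K * (u * inner ℝ X a)
        + K * (ψ * inner ℝ X G)

/-- **S7** the derivative of the functional `PsU` with `κ = K`, `φ = m`, `ε₀ = 1/(4N)`.
Proof. `h = m - U`, `a = (u_k + ε)⁻¹ Du_k`, `Dm = 2 ψ Dψ`, `G = 2 Dψ`, `0 = ∫ ⟨X, Dm⟩ + ∫ g h - ∑_j ∫ ⟨X, Du_j⟩`
(`DivOf` with `f = h`). The derivative plus `d_k K` times this zero is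
`d_k ∫ ((1 - ε₀ ∑ σ_i + K m) |a|² - K ⟨a, Dm⟩ + K ⟨X, Dm⟩ - K (u_k + ε) ⟨X, a⟩)
  + (∫ h - V (∫ u_l² h - d_l D_l)/s) + K ∫ h² + ε₀ ∑ σ_i d_i En_i
  + d_k K ∫ g h - d_k K ∑_{j ≠ k} ∫ ⟨X, Du_j⟩ - err`.
* S4 with `u = u_k + ε`, `h := |h| + ε`; S2; `d_k K |∫ g h| ≤ (K/4) ∫ h² + d_k² K Bx² V`;
* `d_k K |∫ ⟨X, Du_l⟩| ≤ V d_l D_l/(2 s) + d_k² K² Bx² M² V/(2 D)` (`s ≤ M² V`)
* `i ∈ mid`, `σ_i ≥ 1/2`: `∫ |Du_i|² ≤ 4 M² En_i`,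
  `d_k K |∫ ⟨X, Du_i⟩| ≤ ε₀ D En_i/2 + d_k² K² Bx² V 8 N M²/D`
* `i ∈ mid`, mass `≤ κm`: `|∫ ⟨X, Du_i⟩| = |∫ g u_i| ≤ Bx κm`; `L`: `Bx ν`. -/
def StmS7 : Prop :=
  ∀ {n N : ℕ} (Ω : Set (Sp n)) (P : ℝ), Dom Ω P → ∀ (d : Fin N → ℝ) (m ψ : Sp n → ℝ)
    (Dψ : Sp n → Sp n), C1 Ω ψ Dψ → (∀ x ∈ closure Ω, 0 ≤ ψ x ∧ m x = ψ x ^ 2) →
    (∀ j, 0 < d j) → ∀ m₀ : ℝ, 0 < m₀ → (∀ x ∈ closure Ω, m x ≤ m₀) →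
    ∀ (k l : Fin N) (mid L : Finset (Fin N)), k ≠ l → k ∉ mid → l ∉ mid → k ∉ L → l ∉ L →
    Disjoint mid L → (∀ j, j = k ∨ j = l ∨ j ∈ mid ∨ j ∈ L) →
    ∀ (D R M C₁ K Bx e : ℝ), 0 < D → 0 < R → 0 < M → 0 ≤ C₁ → CE Ω (D / (8 * R)) C₁ → D ≤ d l →
    (∀ i ∈ mid, D ≤ d i) → d k ≤ D → 1 ≤ 2 * m₀ * K →
    4 * (P / D * (10 + 2 * (vol Ω * C₁) ^ 2)) ≤ K → 0 < Bx → 16 * K * Bx ^ 2 * d k ≤ 1 →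
    ∀ (X : Sp n → Sp n) (g : Sp n → ℝ), Continuous X → Continuous g →
    (∀ x, ‖X x‖ ≤ Bx ∧ |g x| ≤ Bx) → DivOf Ω X g →
    (∫ x in Ω, ‖(2 : ℝ) • Dψ x - ψ x • X x‖ ^ 2) ≤ e → ∀ (T : Set ℝ), IsOpen T →
    ∀ (u ut : Fin N → ℝ → Sp n → ℝ) (Du : Fin N → ℝ → Sp n → Sp n) (lu : Fin N → ℝ → Sp n → ℝ),
      IsSol Ω d m T u ut Du lu → ∀ t ∈ T, (∀ j, ∀ x ∈ closure Ω, u j t x ≤ M) →
      (∀ x ∈ closure Ω, |m x - ∑ j, u j t x| ≤ R) → 0 < (∫ x in Ω, u l t x ^ 2) →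
    ∀ ε : ℝ, 0 < ε → ε ≤ M → ∀ (κm ν K0 : ℝ), 0 ≤ κm →
      (∀ i ∈ mid, mass Ω (u i t) ≤ κm ∨ 0 ≤ Lg Ω ε (u i t) - Lg Ω ε (u k t) + K0) →
      (∑ j ∈ L, mass Ω (u j t)) ≤ ν →
      ∃ ψ' : ℝ, HasDerivAt (fun s => Uf.PsU Ω k l mid K0 K (1 / (4 * N)) ε m (fun j => u j s)) ψ' t ∧
        d k * (1 / (2 * m₀) * (∫ x in Ω, ‖Dψ x‖ ^ 2) - 4 * K ^ 2 * m₀ * e
            - 4 * K ^ 2 * Bx ^ 2 * vol Ω * ε ^ 2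
            - d k * (K * Bx ^ 2 * vol Ω + 9 * N ^ 2 * K ^ 2 * Bx ^ 2 * M ^ 2 * vol Ω / D)
            - K * Bx * (N * κm + ν))
          - R * ((2 + K * m₀) * Er Ω ε (u k t) +
            ∑ i ∈ mid, sg (Lg Ω ε (u i t) - Lg Ω ε (u k t) + K0) * Er Ω ε (u i t)) ≤ ψ'

/-- **S10** a slow species eliminates species with rates at least `D`, `m = ψ²`. -/
def StmS10 : Prop :=
  ∀ {n : ℕ} (N : ℕ) (Ω : Set (Sp n)), Domain Ω → ∀ (m ψ : Sp n → ℝ) (Dψ : Sp n → Sp n),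
    C1 Ω ψ Dψ → (∀ x ∈ closure Ω, 0 ≤ ψ x ∧ m x = ψ x ^ 2) →
    (∃ x ∈ closure Ω, ∃ y ∈ closure Ω, m x ≠ m y) → ∀ D : ℝ, 0 < D →
    ∃ δ : ℝ, 0 < δ ∧ ∀ (d : Fin N → ℝ), (∀ j, 0 < d j) → ∀ (k l : Fin N)
    (L : Finset (Fin N)), k ≠ l → k ∉ L → l ∉ L → d k ≤ δ → (∀ j, j ∉ L → j ≠ k → D ≤ d j) →
    Dies Ω d m k l L

end Pool.Agent.Lib.MP_d8ef8f_an.Sf
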